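import Pool.Agent.Work.MP_3c5c20_lc.PIT.Defs
import Pool.Agent.Work.MP_499dc6_lc.Bd.B05

/-! Bundle of small proof modules (one section per former module). -/

section

/-!
# Quasi-polynomial identity testing for constant depth circuits: statements of the items
-/

namespace Pool.Agent.Work.MP_3c5c20_lc.PIT

open MvPolynomial Pool.Agent.Work.MP_499dc6_lc.CD Pool.Agent.Work.MP_499dc6_lc.CDG

/-! ## Roots -/

/-- A root of a nonzero polynomial is a simple root of a Hasse derivative. -/
def S_Mult : Prop :=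
  ∀ (A : Type) [CommRing A] [IsDomain A] [CharZero A] (R : Polynomial A) (g : A), R ≠ 0 →
    R.eval g = 0 → ∃ j : ℕ, (Polynomial.hasseDeriv j R).eval g = 0 ∧
      (Polynomial.derivative (Polynomial.hasseDeriv j R)).eval g ≠ 0

/-- Coefficients of a Hasse derivative at a point. -/
def S_TayHasse : Prop :=
  ∀ (A : Type) [CommRing A] (R : Polynomial A) (c : A) (i j : ℕ),
    (Polynomial.taylor c (Polynomial.hasseDeriv j R)).coeff i =
      ((i + j).choose i : A) * (Polynomial.taylor c R).coeff (i + j)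

/-- Coefficients by interpolation. -/
def S_Interp : Prop :=
  ∀ (K : Type) [Field K] (A : Type) [CommRing A] [Algebra K A] (E : ℕ) (R : Polynomial A) (γ : K)
    (w : Fin (E + 1) → K) (i : ℕ), Function.Injective w → R.natDegree ≤ E →
    ∃ c : Fin (E + 1) → K, (Polynomial.taylor (algebraMap K A γ) R).coeff i =
      ∑ a, algebraMap K A (c a) * R.eval (algebraMap K A (w a))

/-- The components of a simple root are combinations of few products of components of the
coefficients. -/
def S_RootSpan : Prop :=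
  ∀ (σ K : Type) [Field K] (D : ℕ) (q : ℕ → MvPolynomial σ K) (w : MvPolynomial σ K),
    constantCoeff w = 0 → constantCoeff (q 1) ≠ 0 →
    ∑ i ∈ Finset.range (D + 2), q i * w ^ i = 0 →
    ∀ k, 1 ≤ k → homogeneousComponent k w ∈ RS K q k

/-- The number of these products. -/
def S_RSCount : Prop :=
  ∀ (k : ℕ) (e : ℝ), 0 < e → ∃ T : Finset (Multiset (ℕ × ℕ)),
    (∀ M : Multiset (ℕ × ℕ), (∀ p ∈ M, 1 ≤ p.2) → (M.map Prod.snd).sum = k →
      (M.map Prod.fst).sum ≤ 2 * k → M ∈ T) ∧
    (T.card : ℝ) ≤ Real.exp (3 * e * k + 12 / e ^ 3)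

def S_RSBB : Prop :=
  ∀ (Y Z : Type) [Fintype Y] [Fintype Z] (K : Type) [Field K] (al be : ℝ)
    (q : ℕ → MvPolynomial (Y ⊕ Z) K) (f : MvPolynomial (Y ⊕ Z) K) (lam : ℝ) (k : ℕ), 0 < lam →
    (∀ j i, 1 ≤ i → BB al be (homogeneousComponent i (q j)) (Real.exp (-(lam * i)))) →
    f ∈ RS K q k → BB al be f (Real.exp (2592 / lam ^ 3 - lam / 2 * k))

/-- Generic points. -/
def S_GenPt : Prop :=
  ∀ (σ : Type) [Fintype σ] (K : Type) [Field K] [CharZero K] (s E : ℕ)
    (F : Fin s → MvPolynomial (Option σ) K) (h : MvPolynomial σ K), h ≠ 0 →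
    ∃ (x : σ → K) (w : Fin (E + 1) → K), Function.Injective w ∧ eval x h ≠ 0 ∧
      ∀ i, F i ≠ 0 → ∀ a, eval (fun o : Option σ => o.elim (w a) x) (F i) ≠ 0

/-- Measure of the coefficients of a circuit in one of its variables. -/
def S_CoefBB : Prop :=
  ∀ (Y Z : Type) [Fintype Y] [Fintype Z] (K : Type) [Field K] [CharZero K] (al G : ℝ)
    (s D e r E : ℕ) (F : Fin s → MvPolynomial (Option (Y ⊕ Z)) K) (d : Fin s → ℕ)
    (x : Y ⊕ Z → K) (w : Fin (E + 1) → K) (γ : K) (i0 : Fin s), 10 ≤ al → IsCirc e r F d →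
    (∀ i, d i ≤ D) → Function.Injective w →
    (∀ i, F i ≠ 0 → ∀ a, eval (fun o : Option (Y ⊕ Z) => o.elim (w a) x) (F i) ≠ 0) →
    (optionEquivLeft K (Y ⊕ Z) (F i0)).natDegree ≤ E →
    Real.log (s + 1) + e + r + 1 + Real.log (E + 1) ≤ G →
    2 * ((257 * G) ^ (10 ^ (2 * D))) ^ 2 ≤ Real.exp (al / 2) →
    ∀ j k, 1 ≤ k → BB al (√2 * al)
      (homogeneousComponent k
        ((Polynomial.taylor (C γ) ((optionEquivLeft K (Y ⊕ Z) (F i0)).map (trl x))).coeff j))
      (Real.exp ((rg G (2 * D)).1 + G - (rg G (2 * D)).2 * k))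

/-- Measure of a root of a circuit. -/
def S_RootBB : Prop :=
  ∀ (Y Z : Type) [Fintype Y] [Fintype Z] (K : Type) [Field K] [CharZero K] (al G : ℝ)
    (s D e r E : ℕ) (F : Fin s → MvPolynomial (Option (Y ⊕ Z)) K) (d : Fin s → ℕ) (i0 : Fin s)
    (g : MvPolynomial (Y ⊕ Z) K), 10 ≤ al → IsCirc e r F d → (∀ i, d i ≤ D) → F i0 ≠ 0 →
    (optionEquivLeft K (Y ⊕ Z) (F i0)).natDegree ≤ E →
    (optionEquivLeft K (Y ⊕ Z) (F i0)).eval g = 0 →
    Real.log (s + 1) + e + r + 1 + Real.log (E + 1) ≤ G →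
    2 * ((257 * G) ^ (10 ^ (2 * D + 2))) ^ 2 ≤ Real.exp (al / 2) →
    ∃ x : Y ⊕ Z → K, ∀ k, 1 ≤ k → BB al (√2 * al) (homogeneousComponent k (trl x g))
      (Real.exp (324 / (rg G (2 * D + 2)).2 ^ 3 - (rg G (2 * D + 2)).2 * k))

/-- Lower bound for the measure of the hard polynomial. -/
def S_PWLow : Prop :=
  ∀ (K : Type) [Field K] (m n : ℕ) (z0 : Fin n) (c : ℝ), 13 ≤ m → n = m ^ 10 →
    BB (Real.log (n + 1) / √2) (√2 * (Real.log (n + 1) / √2)) (PW K m n z0) c →
    1 / ((n : ℝ) + 1) ^ 4 ≤ c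

/-- The hard polynomial is not a root of a small circuit of small depth. -/
def S_NoRoot : Prop :=
  ∀ (K : Type) [Field K] [CharZero K] (m n : ℕ) (z0 : Fin n) (s D e r E : ℕ)
    (F : Fin s → MvPolynomial (Option (VV m n)) K) (d : Fin s → ℕ) (i0 : Fin s), n = m ^ 10 →
    IsCirc e r F d → (∀ i, d i ≤ D) → F i0 ≠ 0 →
    (optionEquivLeft K (VV m n) (F i0)).natDegree ≤ E →
    (optionEquivLeft K (VV m n) (F i0)).eval (PW K m n z0) = 0 →
    (m : ℝ) ≤ (257 * (Real.log (s + 1) + e + r + 1 + Real.log (E + 1))) ^ (10 ^ (2 * D + 3))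

/-! ## The generator -/

/-- Specialisation of some of the variables. -/
def S_Special : Prop :=
  ∀ (α β K : Type) [Field K] [CharZero K] (P : MvPolynomial α K) (π : α → Option β), P ≠ 0 →
    (∀ a a' b, π a = some b → π a' = some b → a = a') →
    ∃ c : α → K, aeval (fun a => ((π a).elim (C (c a)) X : MvPolynomial β K)) P ≠ 0

/-- Substitution of polynomials with few variables into a circuit. -/
def S_Compose : Prop :=
  ∀ (K : Type) [Field K] (N s r ka D : ℕ) (σ : Type) [Fintype σ]
    (F : Fin s → MvPolynomial (Fin N) K) (d : Fin s → ℕ) (h : Fin N → MvPolynomial σ K),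
    IsCirc 1 r F d → (∀ i, d i ≤ D) → (∀ i, (h i).vars.card ≤ ka) →
    ∃ (F' : Fin (Fintype.card σ + N + s) → MvPolynomial σ K)
      (d' : Fin (Fintype.card σ + N + s) → ℕ), IsCirc 1 (max r ka) F' d' ∧
      (∀ i, d' i ≤ D + 1) ∧ ∀ i : Fin s, ∃ j, F' j = aeval h (F i)

def S_Pos : Prop :=
  ∀ (m n : ℕ), Function.Injective (pos m n) ∧ ∀ v, pos m n v < (aa m + m) * n * n

/-- The design. -/
def S_Dig : Prop :=
  ∀ (m n p ka i j : ℕ) [NeZero p], p.Prime → (aa m + m) * n * n ≤ p → i < p ^ ka → j < p ^ ka →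
    i ≠ j → (Finset.univ.filter fun v : VV m n =>
      dig p ka i (pos m n v) = dig p ka j (pos m n v)).card ≤ ka

/-- The hitting property of the generator. -/
def S_Hit : Prop :=
  ∀ (K : Type) [Field K] [CharZero K] (m n p ka N s D r E : ℕ) [NeZero p] (z0 : Fin n)
    (F : Fin s → MvPolynomial (Fin N) K) (d : Fin s → ℕ) (i0 : Fin s), n = m ^ 10 → p.Prime →
    (aa m + m) * n * n ≤ p → N ≤ p ^ ka → 1 ≤ ka → IsCirc 1 r F d → (∀ i, d i ≤ D) → F i0 ≠ 0 →
    (F i0).totalDegree ≤ E →
    (257 * (Real.log ((((aa m + m) * n * n + 1 + N + s : ℕ) : ℝ) + 1) + (1 : ℕ) +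
      ((max r ka : ℕ) : ℝ) + 1 + Real.log (E + 1))) ^ (10 ^ (2 * (D + 1) + 3)) < (m : ℝ) →
    aeval (fun i : Fin N => Gen K m n p ka z0 i) (F i0) ≠ 0

/-- Nonzero values on a grid. -/
def S_Grid : Prop :=
  ∀ (K : Type) [Field K] [CharZero K] (m n p ka N E : ℕ) [NeZero p] (z0 : Fin n)
    (f : MvPolynomial (Fin N) K), f.totalDegree ≤ E →
    aeval (fun i : Fin N => Gen K m n p ka z0 i) f ≠ 0 →
    ∃ y : VV m n × Fin p → ℕ, (∀ v, y v ≤ E * (aa m + m)) ∧
      eval (fun i : Fin N => ((eval y (Gen ℕ m n p ka z0 i) : ℕ) : K)) f ≠ 0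

end Pool.Agent.Work.MP_3c5c20_lc.PIT

end

section

/-!
# Measure of the coefficients of a circuit in one of its variables
-/

namespace Pool.Agent.Work.MP_3c5c20_lc.PIT

open MvPolynomial Pool.Agent.Work.MP_499dc6_lc.CD Pool.Agent.Work.MP_499dc6_lc.CDG

namespace NCoefBB

theorem bb_sum {Y Z : Type} [Fintype Y] [Fintype Z] {K : Type} [Field K] {al be : ℝ} {ι : Type}
    (T : Finset ι) (f : ι → MvPolynomial (Y ⊕ Z) K) (c : ℝ) (h : ∀ a ∈ T, BB al be (f a) c) :
    BB al be (∑ a ∈ T, f a) (T.card * c) := by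
  classical
  induction T using Finset.induction_on with
  | empty => simpa using (BB.zero : BB al be (0 : MvPolynomial (Y ⊕ Z) K) 0)
  | insert a T ha ih =>
    rw [Finset.sum_insert ha, Finset.card_insert_of_notMem ha]
    have h1 := h a (Finset.mem_insert_self _ _)
    have h2 := ih (fun b hb => h b (Finset.mem_insert_of_mem hb))
    have h3 := BB.add h1 h2
    refine BB.mono h3 (le_of_eq ?_)
    push_cast
    ring

/-- the substitution -/
noncomputable def th {K σ : Type} [Field K] (x : σ → K) (w : K) (o : Option σ) :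
    MvPolynomial σ K := o.elim (C w) (fun j => X j + C (x j))

theorem th_deg {K σ : Type} [Field K] (x : σ → K) (w : K) (o : Option σ) :
    (th x w o).totalDegree ≤ 1 := by
  rcases o with _ | j
  · simp [th]
  · simp only [th, Option.elim_some]
    refine (totalDegree_add _ _).trans (max_le ?_ ?_)
    · exact (totalDegree_X j).le
    · rw [totalDegree_C]; exact Nat.zero_le _

theorem th_cc {K σ : Type} [Field K] (x : σ → K) (w : K) (f : MvPolynomial (Option σ) K) :
    constantCoeff (aeval (th x w) f) = eval (fun o : Option σ => o.elim w x) f := by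
  have key : (constantCoeff : MvPolynomial σ K →+* K).comp
      (aeval (th x w) : MvPolynomial (Option σ) K →ₐ[K] MvPolynomial σ K).toRingHom =
      eval (fun o : Option σ => o.elim w x) := by
    apply MvPolynomial.ringHom_ext
    · intro r
      simp
    · intro o
      simp only [RingHom.comp_apply, AlgHom.toRingHom_eq_coe, RingHom.coe_coe, aeval_X, eval_X]
      rcases o with _ | j <;> simp [th]
  have h1 := congrArg (fun g => g f) key
  simpa only [RingHom.comp_apply, AlgHom.toRingHom_eq_coe, RingHom.coe_coe] using h1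

theorem th_eval {K σ : Type} [Field K] (x : σ → K) (w : K) (f : MvPolynomial (Option σ) K) :
    ((optionEquivLeft K σ f).map (trl x)).eval (C w) = aeval (th x w) f := by
  have key : (Polynomial.evalRingHom (C w : MvPolynomial σ K)).comp
      ((Polynomial.mapRingHom (trl x)).comp (optionEquivLeft K σ).toRingEquiv.toRingHom) =
      (aeval (th x w) : MvPolynomial (Option σ) K →ₐ[K] MvPolynomial σ K).toRingHom := by
    apply MvPolynomial.ringHom_ext
    · intro r
      simp [trl, optionEquivLeft_C]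
    · intro o
      rcases o with _ | j
      · simp [th, optionEquivLeft_X_none]
      · simp [th, trl, optionEquivLeft_X_some]
  exact congrArg (fun g => g f) key

end NCoefBB

open NCoefBB

theorem pr_CoefBB (h1 : S_BBsmul) (h2 : S_CircG) (h3 : S_CircSubstG) (h4 : S_Interp) :
    S_CoefBB := by
  intro Y Z _ _ K _ _ al G s D e r E F d x w γ i0 hal hF hd hw hev hnd hG hexp j k hk
  have hlogE : 0 ≤ Real.log ((E : ℝ) + 1) :=
    Real.log_nonneg (by have : (0 : ℝ) ≤ E := Nat.cast_nonneg _; linarith)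
  have hlogs : 0 ≤ Real.log ((s : ℝ) + 1) :=
    Real.log_nonneg (by have : (0 : ℝ) ≤ s := Nat.cast_nonneg _; linarith)
  have he0 : (0 : ℝ) ≤ e := Nat.cast_nonneg _
  have hr0 : (0 : ℝ) ≤ r := Nat.cast_nonneg _
  have hFa : ∀ a : Fin (E + 1), IsCirc (e * 1) r (fun i => aeval (th x (w a)) (F i)) d :=
    fun a => h3 _ _ K s e 1 r F d (th x (w a)) hF (fun o => th_deg x (w a) o)
  have hne : ∀ (a : Fin (E + 1)) (i : Fin s), aeval (th x (w a)) (F i) ≠ 0 →
      constantCoeff (aeval (th x (w a)) (F i)) ≠ 0 := by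
    intro a i hi
    rw [th_cc]
    refine hev i (fun h0 => hi ?_) a
    rw [h0, map_zero]
  have hBB : ∀ a : Fin (E + 1), BB al (√2 * al)
      (homogeneousComponent k (aeval (th x (w a)) (F i0)))
      (Real.exp ((rg G (2 * D)).1 - (rg G (2 * D)).2 * k)) := by
    intro a
    refine h2 Y Z K al G s D (e * 1) r _ d hal (hFa a) hd (hne a) ?_ hexp i0 k hk
    rw [Nat.mul_one]
    linarith
  obtain ⟨c, hc⟩ := h4 K (MvPolynomial (Y ⊕ Z) K) E
    ((optionEquivLeft K (Y ⊕ Z) (F i0)).map (trl x)) γ w j hw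
    ((Polynomial.natDegree_map_le).trans hnd)
  simp only [MvPolynomial.algebraMap_eq] at hc
  rw [hc, map_sum]
  have hterm : ∀ a ∈ (Finset.univ : Finset (Fin (E + 1))), BB al (√2 * al)
      (homogeneousComponent k (C (c a) *
        ((optionEquivLeft K (Y ⊕ Z) (F i0)).map (trl x)).eval (C (w a))))
      (Real.exp ((rg G (2 * D)).1 - (rg G (2 * D)).2 * k)) := by
    intro a _
    rw [th_eval, homogeneousComponent_C_mul]
    exact h1 Y Z K al (√2 * al) _ _ (c a) (hBB a)
  have hs := bb_sum Finset.univ _ _ hterm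
  refine BB.mono hs ?_
  rw [Finset.card_univ, Fintype.card_fin]
  have hE1 : ((E + 1 : ℕ) : ℝ) = Real.exp (Real.log ((E : ℝ) + 1)) := by
    rw [Real.exp_log (by positivity)]; push_cast; ring
  rw [hE1, ← Real.exp_add]
  apply Real.exp_le_exp.2
  linarith

end Pool.Agent.Work.MP_3c5c20_lc.PIT

end

section

/-!
# Positions and the design
-/

namespace Pool.Agent.Work.MP_3c5c20_lc.PIT

open MvPolynomial Pool.Agent.Work.MP_499dc6_lc.CD Pool.Agent.Work.MP_499dc6_lc.CDG

namespace NDig

theorem radix {n a a' u u' v v' : ℕ} (hu : u < n) (hu' : u' < n) (hv : v < n) (hv' : v' < n)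
    (h : (a * n + u) * n + v = (a' * n + u') * n + v') : a = a' ∧ u = u' ∧ v = v' := by
  have hn : 0 < n := by omega
  have e1 : v = v' := by
    have h1 := congrArg (· % n) h
    simp only [Nat.mul_add_mod', Nat.mod_eq_of_lt hv, Nat.mod_eq_of_lt hv'] at h1
    exact h1
  subst e1
  have h2 : a * n + u = a' * n + u' := Nat.eq_of_mul_eq_mul_right hn (Nat.add_right_cancel h)
  have e2 : u = u' := by
    have h1 := congrArg (· % n) h2
    simp only [Nat.mul_add_mod', Nat.mod_eq_of_lt hu, Nat.mod_eq_of_lt hu'] at h1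
    exact h1
  subst e2
  exact ⟨Nat.eq_of_mul_eq_mul_right hn (Nat.add_right_cancel h2), rfl, rfl⟩

theorem bound {n a A u v : ℕ} (ha : a < A) (hu : u < n) (hv : v < n) :
    (a * n + u) * n + v < A * n * n := by
  calc (a * n + u) * n + v < (a * n + u) * n + n := by omega
    _ = (a * n + u + 1) * n := by ring
    _ ≤ (a * n + n) * n := Nat.mul_le_mul_right n (by omega)
    _ = (a + 1) * n * n := by ring
    _ ≤ A * n * n := Nat.mul_le_mul_right n (Nat.mul_le_mul_right n ha)

theorem digits_inj (p : ℕ) : ∀ (ka i j : ℕ), i < p ^ ka → j < p ^ ka →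
    (∀ c < ka, i / p ^ c % p = j / p ^ c % p) → i = j := by
  intro ka
  induction ka with
  | zero =>
    intro i j hi hj _
    simp only [pow_zero] at hi hj
    omega
  | succ ka ih =>
    intro i j hi hj h
    have h0 : i % p = j % p := by
      have := h 0 (Nat.succ_pos _)
      simpa using this
    have h1 : i / p = j / p := by
      refine ih (i / p) (j / p) ?_ ?_ ?_
      · exact Nat.div_lt_of_lt_mul (by rwa [pow_succ'] at hi)
      · exact Nat.div_lt_of_lt_mul (by rwa [pow_succ'] at hj)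
      · intro c hc
        have h2 := h (c + 1) (by omega)
        rw [pow_succ', ← Nat.div_div_eq_div_mul, ← Nat.div_div_eq_div_mul] at h2
        exact h2
    rw [← Nat.div_add_mod i p, ← Nat.div_add_mod j p, h0, h1]

open Polynomial in
/-- the polynomial with the digits of `i` as coefficients -/
noncomputable def PP (p ka i : ℕ) : (ZMod p)[X] :=
  ∑ c ∈ Finset.range ka, Polynomial.C ((i / p ^ c % p : ℕ) : ZMod p) * Polynomial.X ^ c

theorem PP_degree (p ka i : ℕ) : (PP p ka i).degree < ka := by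
  rw [← Polynomial.mem_degreeLT]
  refine Submodule.sum_mem _ fun c hc => ?_
  rw [Polynomial.mem_degreeLT]
  refine lt_of_le_of_lt (Polynomial.degree_C_mul_X_pow_le c _) ?_
  exact_mod_cast Finset.mem_range.mp hc

theorem PP_eval (p ka i x : ℕ) : (PP p ka i).eval ((x : ℕ) : ZMod p) =
    ((∑ c ∈ Finset.range ka, (i / p ^ c % p) * x ^ c : ℕ) : ZMod p) := by
  unfold PP
  rw [Polynomial.eval_finsetSum]
  push_cast
  refine Finset.sum_congr rfl fun c _ => ?_
  simp

theorem PP_coeff (p ka i c : ℕ) (hc : c < ka) :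
    (PP p ka i).coeff c = ((i / p ^ c % p : ℕ) : ZMod p) := by
  unfold PP
  rw [Polynomial.finsetSum_coeff, Finset.sum_eq_single c]
  · rw [Polynomial.coeff_C_mul_X_pow, if_pos rfl]
  · intro b _ hb
    rw [Polynomial.coeff_C_mul_X_pow, if_neg hb.symm]
  · intro h
    exact absurd (Finset.mem_range.mpr hc) h

theorem cast_inj (p a b : ℕ) (ha : a < p) (hb : b < p) (h : ((a : ℕ) : ZMod p) = (b : ℕ)) :
    a = b := by
  have h1 := (ZMod.natCast_eq_natCast_iff' a b p).1 h
  rwa [Nat.mod_eq_of_lt ha, Nat.mod_eq_of_lt hb] at h1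

end NDig

theorem pr_Pos : S_Pos := by
  intro m n
  constructor
  · rintro (⟨t, u, v⟩ | ⟨t, u, v⟩) (⟨t', u', v'⟩ | ⟨t', u', v'⟩) h
    · simp only [pos] at h
      obtain ⟨h1, h2, h3⟩ := NDig.radix u.2 u'.2 v.2 v'.2 h
      rw [Fin.ext h1, Fin.ext h2, Fin.ext h3]
    · simp only [pos] at h
      obtain ⟨h1, _, _⟩ := NDig.radix u.2 u'.2 v.2 v'.2 h
      have := t.2
      omega
    · simp only [pos] at h
      obtain ⟨h1, _, _⟩ := NDig.radix u.2 u'.2 v.2 v'.2 h
      have := t'.2
      omega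
    · simp only [pos] at h
      obtain ⟨h1, h2, h3⟩ := NDig.radix u.2 u'.2 v.2 v'.2 h
      rw [Fin.ext (Nat.add_left_cancel h1), Fin.ext h2, Fin.ext h3]
  · rintro (⟨t, u, v⟩ | ⟨t, u, v⟩)
    · simp only [pos]
      exact NDig.bound (by have := t.2; omega) u.2 v.2
    · simp only [pos]
      exact NDig.bound (by have := t.2; omega) u.2 v.2

theorem pr_Dig : S_Dig := by
  intro m n p ka i j _ hp hmp hi hj hij
  have : Fact p.Prime := ⟨hp⟩
  by_contra hcard
  rw [not_le] at hcard
  apply hij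
  set s := Finset.univ.filter fun v : VV m n =>
      dig p ka i (pos m n v) = dig p ka j (pos m n v) with hs
  have hPos := pr_Pos m n
  have hlt : ∀ v : VV m n, pos m n v < p := fun v => (hPos.2 v).trans_le hmp
  have hPP : NDig.PP p ka i = NDig.PP p ka j := by
    refine Polynomial.eq_of_degrees_lt_of_eval_index_eq (ι := VV m n) s
      (v := fun v => ((pos m n v : ℕ) : ZMod p)) ?_ ?_ ?_ ?_
    · intro v _ w _ h
      exact hPos.1 (NDig.cast_inj p _ _ (hlt v) (hlt w) h)
    · refine (NDig.PP_degree p ka i).trans ?_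
      exact_mod_cast hcard
    · refine (NDig.PP_degree p ka j).trans ?_
      exact_mod_cast hcard
    · intro v hv
      have h1 : dig p ka i (pos m n v) = dig p ka j (pos m n v) := (Finset.mem_filter.mp hv).2
      rw [NDig.PP_eval, NDig.PP_eval, ZMod.natCast_eq_natCast_iff']
      have h2 := congrArg Fin.val h1
      simpa [dig, Fin.ofNat] using h2
  refine NDig.digits_inj p ka i j hi hj fun c hc => ?_
  have h3 := congrArg (fun P => Polynomial.coeff P c) hPP
  simp only [NDig.PP_coeff p ka _ c hc] at h3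
  exact NDig.cast_inj p _ _ (Nat.mod_lt _ hp.pos) (Nat.mod_lt _ hp.pos) h3

end Pool.Agent.Work.MP_3c5c20_lc.PIT

end

section

/-! Item GenPt: generic points (helper22). -/

namespace Pool.Agent.Work.MP_3c5c20_lc.PIT

open MvPolynomial Pool.Agent.Work.MP_499dc6_lc.CD Pool.Agent.Work.MP_499dc6_lc.CDG

namespace NGenPt

theorem eval_elim {σ K : Type} [Field K] (x : σ → K) (w : K) (F : MvPolynomial (Option σ) K) :
    eval (fun o : Option σ => o.elim w x) F =
      ((optionEquivLeft K σ F).map (eval x)).eval w := by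
  induction F using MvPolynomial.induction_on with
  | C a => simp
  | add p q hp hq => simp only [map_add, Polynomial.map_add, Polynomial.eval_add, hp, hq]
  | mul_X p o hp =>
    rw [map_mul, map_mul, Polynomial.map_mul, Polynomial.eval_mul, hp]
    congr 1
    cases o with
    | none => simp
    | some i => simp

end NGenPt

theorem pr_GenPt : S_GenPt := by
  classical
  intro σ _ K _ _ s E F h hh
  have h1 : ∀ i, ∃ c : MvPolynomial σ K, c ≠ 0 ∧ (F i ≠ 0 →
      ∀ x : σ → K, eval x c ≠ 0 → (optionEquivLeft K σ (F i)).map (eval x) ≠ 0) := by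
    intro i
    by_cases hF : F i = 0
    · exact ⟨1, one_ne_zero, fun h => absurd hF h⟩
    · have h2 : optionEquivLeft K σ (F i) ≠ 0 := by
        intro h
        exact hF ((map_eq_zero_iff _ (optionEquivLeft K σ).injective).1 h)
      refine ⟨(optionEquivLeft K σ (F i)).leadingCoeff, Polynomial.leadingCoeff_ne_zero.2 h2,
        fun _ x hx h3 => hx ?_⟩
      have h4 := congrArg (fun P => Polynomial.coeff P (optionEquivLeft K σ (F i)).natDegree) h3
      rw [Polynomial.coeff_map, Polynomial.coeff_zero] at h4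
      exact h4
  choose c hc0 hc using h1
  have h2 : h * ∏ i, c i ≠ 0 := mul_ne_zero hh (Finset.prod_ne_zero_iff.2 fun i _ => hc0 i)
  obtain ⟨x, hx⟩ : ∃ x : σ → K, eval x (h * ∏ i, c i) ≠ 0 := by
    by_contra hcon
    push Not at hcon
    exact h2 (MvPolynomial.funext fun x => by rw [hcon x, map_zero])
  rw [map_mul, map_prod] at hx
  have hx1 : eval x h ≠ 0 := left_ne_zero_of_mul hx
  have hx2 : ∀ i, eval x (c i) ≠ 0 := fun i =>
    Finset.prod_ne_zero_iff.1 (right_ne_zero_of_mul hx) i (Finset.mem_univ i)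
  let R : Finset K := Finset.univ.biUnion fun i =>
    ((optionEquivLeft K σ (F i)).map (eval x)).roots.toFinset
  have hinf : Set.Infinite ((R : Set K)ᶜ) := R.finite_toSet.infinite_compl
  obtain ⟨T, hT, hcard⟩ := hinf.exists_subset_card_eq (E + 1)
  let e := (T.equivFinOfCardEq hcard).symm
  refine ⟨x, fun a => (e a : K), fun a b hab => e.injective (Subtype.ext hab), hx1,
    fun i hi a h3 => ?_⟩
  rw [NGenPt.eval_elim] at h3
  have h4 : ((e a : K)) ∈ R := by
    refine Finset.mem_biUnion.2 ⟨i, Finset.mem_univ i, ?_⟩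
    rw [Multiset.mem_toFinset, Polynomial.mem_roots (hc i hi x (hx2 i))]
    exact h3
  exact hT (e a).2 h4

end Pool.Agent.Work.MP_3c5c20_lc.PIT

end

section

/-!
# Item Interp: coefficients by interpolation
-/

namespace Pool.Agent.Work.MP_3c5c20_lc.PIT

open MvPolynomial Pool.Agent.Work.MP_499dc6_lc.CD Pool.Agent.Work.MP_499dc6_lc.CDG

namespace NInterp

/-- Prescribed values of the moments. -/
theorem exists_c {K : Type} [Field K] (E : ℕ) (w : Fin (E + 1) → K) (hw : Function.Injective w)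
    (t : ℕ → K) : ∃ c : Fin (E + 1) → K, ∀ n, n < E + 1 → ∑ a, c a * w a ^ n = t n := by
  classical
  have hdet : (Matrix.vandermonde w).det ≠ 0 := Matrix.det_vandermonde_ne_zero_iff.2 hw
  have hu : IsUnit (Matrix.vandermonde w).det := isUnit_iff_ne_zero.2 hdet
  refine ⟨Matrix.vecMul (fun n : Fin (E + 1) => t n) (Matrix.vandermonde w)⁻¹, ?_⟩
  intro n hn
  have h : Matrix.vecMul (Matrix.vecMul (fun n : Fin (E + 1) => t n) (Matrix.vandermonde w)⁻¹)
      (Matrix.vandermonde w) = fun n : Fin (E + 1) => t n := by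
    rw [Matrix.vecMul_vecMul, Matrix.nonsing_inv_mul _ hu, Matrix.vecMul_one]
  have h2 := congrFun h ⟨n, hn⟩
  rw [Matrix.vecMul, dotProduct] at h2
  simp only [Matrix.vandermonde_apply] at h2
  exact h2

theorem coeff_taylor {A : Type} [CommRing A] (E : ℕ) (R : Polynomial A) (r : A) (i : ℕ)
    (hR : R.natDegree ≤ E) :
    (Polynomial.taylor r R).coeff i =
      ∑ n ∈ Finset.range (E + 1), R.coeff n * ((n.choose i : ℕ) * r ^ (n - i)) := by
  rw [Polynomial.taylor_coeff, Polynomial.hasseDeriv_apply, Polynomial.sum_def,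
    Polynomial.eval_finsetSum]
  have h1 : ∀ n ∈ R.support, Polynomial.eval r (Polynomial.monomial (n - i)
      (((n.choose i : ℕ) : A) * R.coeff n)) = R.coeff n * ((n.choose i : ℕ) * r ^ (n - i)) := by
    intro n _
    rw [Polynomial.eval_monomial]
    ring
  rw [Finset.sum_congr rfl h1]
  refine Finset.sum_subset ?_ ?_
  · intro n hn
    rw [Finset.mem_range]
    have := Polynomial.le_natDegree_of_mem_supp n hn
    omega
  · intro n _ hn
    rw [Polynomial.notMem_support_iff.1 hn, zero_mul]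

end NInterp

theorem pr_Interp : S_Interp := by
  intro K _ A _ _ E R γ w i hw hR
  obtain ⟨c, hc⟩ := NInterp.exists_c E w hw (fun n => ((n.choose i : ℕ) : K) * γ ^ (n - i))
  refine ⟨c, ?_⟩
  rw [NInterp.coeff_taylor E R _ i hR]
  have h1 : ∀ a : Fin (E + 1), algebraMap K A (c a) * R.eval (algebraMap K A (w a)) =
      ∑ n ∈ Finset.range (E + 1), R.coeff n * algebraMap K A (c a * w a ^ n) := by
    intro a
    rw [Polynomial.eval_eq_sum_range' (Nat.lt_succ_of_le hR), Finset.mul_sum]
    refine Finset.sum_congr rfl fun n _ => ?_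
    rw [map_mul, map_pow]
    ring
  rw [Finset.sum_congr rfl fun a _ => h1 a, Finset.sum_comm]
  refine Finset.sum_congr rfl fun n hn => ?_
  rw [← Finset.mul_sum, ← map_sum, hc n (Finset.mem_range.1 hn), map_mul, map_pow, map_natCast]

end Pool.Agent.Work.MP_3c5c20_lc.PIT

end

section

/-!
# MP_3c5c20, item Mult: a root is a simple root of a Hasse derivative
-/

namespace Pool.Agent.Work.MP_3c5c20_lc.PIT

open Polynomial in
theorem pr_Mult : S_Mult := by
  classical
  intro A _ _ _ R g hR hg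
  have h0 : Polynomial.taylor g R ≠ 0 := by
    intro h
    exact hR ((Polynomial.taylor_eq_zero g R).1 h)
  have hex : ∃ n : ℕ, (Polynomial.taylor g R).coeff n ≠ 0 := by
    by_contra hcon
    push Not at hcon
    exact h0 (Polynomial.ext fun n => by rw [hcon n, Polynomial.coeff_zero])
  obtain ⟨N, hN, hmin⟩ : ∃ N : ℕ, (Polynomial.taylor g R).coeff N ≠ 0 ∧
      ∀ m < N, (Polynomial.taylor g R).coeff m = 0 := by
    refine ⟨Nat.find hex, Nat.find_spec hex, fun m hm => ?_⟩
    by_contra hc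
    exact Nat.find_min hex hm hc
  cases N with
  | zero =>
    exfalso
    apply hN
    rw [Polynomial.taylor_coeff, Polynomial.hasseDeriv_zero']
    exact hg
  | succ j =>
    refine ⟨j, ?_, ?_⟩
    · have h1 := hmin j (Nat.lt_succ_self j)
      rwa [Polynomial.taylor_coeff] at h1
    · rw [Polynomial.taylor_coeff] at hN
      have h2 : Polynomial.derivative (Polynomial.hasseDeriv j R)
          = ((1 + j).choose 1) • Polynomial.hasseDeriv (1 + j) R := by
        have h3 := congrArg (fun L : A[X] →ₗ[A] A[X] => L R) (Polynomial.hasseDeriv_comp (R := A) 1 j)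
        simp only [LinearMap.comp_apply, LinearMap.smul_apply] at h3
        rw [Polynomial.hasseDeriv_one] at h3
        exact h3
      rw [h2, nsmul_eq_mul, Polynomial.eval_mul, Polynomial.eval_natCast, Nat.choose_one_right,
        Nat.add_comm 1 j]
      exact mul_ne_zero (Nat.cast_ne_zero.2 (Nat.succ_ne_zero j)) hN

end Pool.Agent.Work.MP_3c5c20_lc.PIT

end

section

/-!
# The hard polynomial is not a root of a small circuit
-/

namespace Pool.Agent.Work.MP_3c5c20_lc.PIT

open MvPolynomial Pool.Agent.Work.MP_499dc6_lc Pool.Agent.Work.MP_499dc6_lc.CD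
  Pool.Agent.Work.MP_499dc6_lc.CDG

namespace NNoRoot

/-- The numerical contradiction. -/
theorem num (W μ m k0 L : ℝ) (hW : 257 ≤ W) (hμ : 0 < μ) (hμW : 1 / μ ≤ W) (hm : W ^ 10 < m)
    (hk0 : m ≤ k0) (hL : L ≤ 1 + 10 * Real.log m) (h : μ * k0 ≤ 324 / μ ^ 3 + 4 * L) : False := by
  have hW0 : 0 < W := by linarith
  have hm0 : 0 < m := lt_trans (by positivity) hm
  have hμ1 : 1 / W ≤ μ := by
    rw [div_le_iff₀ hW0]
    rw [div_le_iff₀ hμ] at hμW
    linarith
  have h1 : 324 / μ ^ 3 ≤ 324 * W ^ 3 := by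
    have : 324 / μ ^ 3 = 324 * (1 / μ) ^ 3 := by field_simp
    rw [this]
    have h2 : (0 : ℝ) ≤ 1 / μ := by positivity
    gcongr
  have h2 : m / W ≤ μ * k0 := by
    calc m / W = 1 / W * m := by ring
      _ ≤ μ * k0 := mul_le_mul hμ1 hk0 hm0.le hμ.le
  obtain ⟨r, hr⟩ : ∃ r, r = √m := ⟨_, rfl⟩
  have hr2 : r ^ 2 = m := by rw [hr, Real.sq_sqrt hm0.le]
  have hr0 : 0 < r := by rw [hr]; exact Real.sqrt_pos.2 hm0
  have hlog : Real.log m ≤ 2 * r := by
    have h3 : Real.log m = 2 * Real.log r := by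
      rw [← hr2, Real.log_pow]; push_cast; ring
    have h4 := Real.log_le_sub_one_of_pos hr0
    linarith
  have hrW : W ^ 5 < r := by
    have h3 : (W ^ 5) ^ 2 < r ^ 2 := by rw [hr2]; calc (W ^ 5) ^ 2 = W ^ 10 := by ring
      _ < m := hm
    exact lt_of_pow_lt_pow_left₀ 2 hr0.le h3
  have h3 : m / W ≤ 324 * W ^ 3 + 4 + 80 * r := by linarith
  rw [div_le_iff₀ hW0, ← hr2] at h3
  have hW4 : 500 ≤ W ^ 4 := by
    calc (500 : ℝ) ≤ 257 ^ 4 := by norm_num
      _ ≤ W ^ 4 := by gcongr
  have hW2 : 1 ≤ W ^ 2 := one_le_pow₀ (by linarith)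
  have hW3 : 1 ≤ W ^ 3 := one_le_pow₀ (by linarith)
  have hW35 : W ^ 3 ≤ W ^ 5 := by
    calc W ^ 3 = W ^ 3 * 1 := by ring
      _ ≤ W ^ 3 * W ^ 2 := by gcongr
      _ = W ^ 5 := by ring
  have h4 : 324 * W ^ 3 + 4 + 80 * r ≤ 500 * r := by nlinarith
  have h5 : (324 * W ^ 3 + 4 + 80 * r) * W ≤ 500 * r * W := mul_le_mul_of_nonneg_right h4 hW0.le
  have h6 : 500 * r * W ≤ W ^ 4 * r * W := by
    apply mul_le_mul_of_nonneg_right _ hW0.le
    exact mul_le_mul_of_nonneg_right hW4 hr0.le
  have h7 : W ^ 4 * r * W < r ^ 2 := by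
    calc W ^ 4 * r * W = W ^ 5 * r := by ring
      _ < r * r := mul_lt_mul_of_pos_right hrW hr0
      _ = r ^ 2 := by ring
  linarith

end NNoRoot

theorem pr_NoRoot (hRootBB : S_RootBB) (hPWLow : S_PWLow) (hPWhom : CD.S_PWhom)
    (hBiHom : CD.S_BiHom) (hTransTop : CD.S_TransTop) (hRg : CDG.S_RgBound) : S_NoRoot := by
  intro K _ _ m n z0 s D e r E F d i0 hn hcirc hd hF hdeg heval
  obtain ⟨G, hG⟩ : ∃ G : ℝ, G = Real.log (s + 1) + e + r + 1 + Real.log (E + 1) := ⟨_, rfl⟩
  rw [← hG]
  by_contra hcon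
  push Not at hcon
  have hs0 : (0 : ℝ) ≤ s := Nat.cast_nonneg s
  have he0 : (0 : ℝ) ≤ e := Nat.cast_nonneg e
  have hr0 : (0 : ℝ) ≤ r := Nat.cast_nonneg r
  have hE0 : (0 : ℝ) ≤ E := Nat.cast_nonneg E
  have hlog1 : 0 ≤ Real.log ((s : ℝ) + 1) := Real.log_nonneg (by linarith)
  have hlog2 : 0 ≤ Real.log ((E : ℝ) + 1) := Real.log_nonneg (by linarith)
  have hG1 : 1 ≤ G := by linarith
  obtain ⟨W, hW⟩ : ∃ W : ℝ, W = (257 * G) ^ (10 ^ (2 * D + 2)) := ⟨_, rfl⟩
  have hW257 : 257 ≤ W := by
    have h1 : (257 : ℝ) ≤ 257 * G := by linarith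
    rw [hW]
    exact h1.trans (le_self_pow₀ (by linarith) (by positivity))
  have hWm : W ^ 10 < m := by
    have h1 : W ^ 10 = (257 * G) ^ (10 ^ (2 * D + 3)) := by
      rw [hW, ← pow_mul, ← pow_succ]
    rw [h1]
    exact hcon
  have hW10 : (257 : ℝ) ≤ W ^ 10 := hW257.trans (le_self_pow₀ (by linarith) (by norm_num))
  have hm257 : (257 : ℝ) < m := lt_of_le_of_lt hW10 hWm
  have hm0 : (0 : ℝ) < m := by linarith
  have hm13 : 13 ≤ m := by
    have : 257 < m := by exact_mod_cast hm257
    omega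
  have hnR : (n : ℝ) = (m : ℝ) ^ 10 := by rw [hn]; push_cast; ring
  have hlogm : 2 ≤ Real.log m := by
    rw [Real.le_log_iff_exp_le hm0]
    have h1 : Real.exp 2 = Real.exp 1 ^ 2 := by rw [← Real.exp_nat_mul]; norm_num
    have h2 := Real.exp_one_lt_d9
    have h3 := Real.exp_pos 1
    rw [h1]
    nlinarith
  have hn0 : (0 : ℝ) < n := by rw [hnR]; positivity
  have hlogn : 10 * Real.log m ≤ Real.log ((n : ℝ) + 1) := by
    calc 10 * Real.log m = Real.log n := by rw [hnR, Real.log_pow]; norm_num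
      _ ≤ Real.log ((n : ℝ) + 1) := Real.log_le_log hn0 (by linarith)
  have hn1 : (1 : ℝ) ≤ n := by
    rw [hnR]
    exact one_le_pow₀ (by linarith)
  have hlogn' : Real.log ((n : ℝ) + 1) ≤ 1 + 10 * Real.log m := by
    calc Real.log ((n : ℝ) + 1) ≤ Real.log (2 * n) :=
          Real.log_le_log (by linarith) (by linarith)
      _ = Real.log 2 + Real.log n := Real.log_mul (by norm_num) hn0.ne'
      _ = Real.log 2 + 10 * Real.log m := by rw [hnR, Real.log_pow]; norm_num
      _ ≤ _ := by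
        have := Real.log_two_lt_d9
        linarith
  have hsq : √2 ≤ 3 / 2 := by
    rw [Real.sqrt_le_left (by norm_num)]
    norm_num
  have hsq0 : 0 < √2 := by positivity
  have hal : 10 ≤ Real.log ((n : ℝ) + 1) / √2 := by
    rw [le_div_iff₀ hsq0]
    nlinarith
  have hal2 : Real.log m ≤ Real.log ((n : ℝ) + 1) / √2 / 2 := by
    rw [le_div_iff₀ (by norm_num), le_div_iff₀ hsq0]
    nlinarith
  have hexp : (m : ℝ) ≤ Real.exp (Real.log ((n : ℝ) + 1) / √2 / 2) := by
    rw [← Real.log_le_iff_le_exp hm0]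
    exact hal2
  have hbig : 2 * W ^ 2 ≤ Real.exp (Real.log ((n : ℝ) + 1) / √2 / 2) := by
    refine le_trans ?_ hexp
    have h1 : (2 : ℝ) ≤ W ^ 8 := le_trans (by linarith) (le_self_pow₀ (n := 8) (by linarith) (by norm_num))
    have h2 : 2 * W ^ 2 ≤ W ^ 8 * W ^ 2 := mul_le_mul_of_nonneg_right h1 (by positivity)
    have h3 : W ^ 8 * W ^ 2 = W ^ 10 := by ring
    linarith
  rw [hW] at hbig
  obtain ⟨x, hx⟩ := hRootBB _ _ K (Real.log ((n : ℝ) + 1) / √2) G s D e r E F d i0
    (PW K m n z0) hal hcirc hd hF hdeg heval hG.ge hbig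
  have hhom : (PW K m n z0).IsHomogeneous (aa m + m) := hBiHom _ _ K _ _ _ (hPWhom K m n z0)
  have htop := hTransTop _ K (PW K m n z0) (aa m + m) x hhom
  have hBB := hx (aa m + m) (by omega)
  have htop' : homogeneousComponent (aa m + m) (trl x (PW K m n z0)) = PW K m n z0 := htop
  rw [htop'] at hBB
  have hlow := hPWLow K m n z0 _ hm13 hn hBB
  obtain ⟨h1, h2, h3, h4, h5⟩ := hRg G (2 * D + 2) hG1
  rw [← hW] at h5
  refine NNoRoot.num W (CDG.rg G (2 * D + 2)).2 m ((aa m + m : ℕ) : ℝ) (Real.log ((n : ℝ) + 1))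
    hW257 h2 h5 hWm ?_ hlogn' ?_
  · push_cast
    have : (0 : ℝ) ≤ aa m := Nat.cast_nonneg _
    linarith
  · have h6 : 0 < ((n : ℝ) + 1) ^ 4 := by positivity
    have h7 : 1 / ((n : ℝ) + 1) ^ 4 = Real.exp (-(4 * Real.log ((n : ℝ) + 1))) := by
      rw [Real.exp_neg, one_div]
      congr 1
      have : 4 * Real.log ((n : ℝ) + 1) = Real.log (((n : ℝ) + 1) ^ 4) := by
        rw [Real.log_pow]; norm_num
      rw [this, Real.exp_log h6]
    rw [h7, Real.exp_le_exp] at hlow
    linarith

end Pool.Agent.Work.MP_3c5c20_lc.PIT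

end

section

/-! Item RSBB: measure of an element of `RS` (helper61, after the item ColBB). -/

namespace Pool.Agent.Work.MP_3c5c20_lc.PIT

open MvPolynomial Pool.Agent.Work.MP_499dc6_lc.CD Pool.Agent.Work.MP_499dc6_lc.CDG

namespace NRSBB

variable {Y Z : Type} [Fintype Y] [Fintype Z] {K : Type} [Field K] {al be : ℝ}

theorem bb_sum {ι : Type} (S : Finset ι) (g : ι → MvPolynomial (Y ⊕ Z) K) (c : ℝ)
    (h : ∀ i ∈ S, BB al be (g i) c) : BB al be (∑ i ∈ S, g i) (S.card * c) := by
  classical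
  induction S using Finset.induction_on with
  | empty => simpa using (BB.zero : BB al be (0 : MvPolynomial (Y ⊕ Z) K) 0)
  | insert a s ha ih =>
    rw [Finset.sum_insert ha, Finset.card_insert_of_notMem ha]
    have h1 := BB.add (h a (Finset.mem_insert_self _ _))
      (ih fun i hi => h i (Finset.mem_insert_of_mem hi))
    have h2 : ((s.card + 1 : ℕ) : ℝ) * c = c + s.card * c := by push_cast; ring
    rw [h2]
    exact h1

theorem bb_prod (h2 : S_BBmul) (h3 : S_BBone) (q : ℕ → MvPolynomial (Y ⊕ Z) K) (lam : ℝ)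
    (hv : ∀ t, ∀ i, 1 ≤ i → BB al be (homogeneousComponent i (q t)) (Real.exp (-(lam * i))))
    (M : Multiset (ℕ × ℕ)) :
    (∀ p ∈ M, 1 ≤ p.2) →
    BB al be (M.map fun p => homogeneousComponent p.2 (q p.1)).prod
      (Real.exp (-(lam * ((M.map Prod.snd).sum : ℕ)))) := by
  induction M using Multiset.induction_on with
  | empty =>
    intro _
    simpa using h3 Y Z K al be
  | cons p M ih =>
    intro hM
    rw [Multiset.map_cons, Multiset.prod_cons, Multiset.map_cons, Multiset.sum_cons]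
    have h4 := hv p.1 p.2 (hM p (Multiset.mem_cons_self _ _))
    have h5 := h2 Y Z K al be _ _ _ _ h4 (ih fun q hq => hM q (Multiset.mem_cons_of_mem hq))
    rw [← Real.exp_add] at h5
    have h6 : -(lam * ((p.2 + (M.map Prod.snd).sum : ℕ) : ℝ)) =
        -(lam * p.2) + -(lam * ((M.map Prod.snd).sum : ℕ)) := by push_cast; ring
    rw [h6]
    exact h5

end NRSBB

theorem pr_RSBB (h1 : S_BBsmul) (h2 : S_BBmul) (h3 : S_BBone) (h4 : S_RSCount) :
    S_RSBB := by
  classical
  intro Y Z _ _ K _ al be q f lam k hlam hv hf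
  obtain ⟨T, hT, hcard⟩ := h4 k (lam / 6) (by positivity)
  obtain ⟨Pr, hPr⟩ : ∃ Pr : Multiset (ℕ × ℕ) → Prop, ∀ M, Pr M ↔ ((∀ p ∈ M, 1 ≤ p.2) ∧
    (M.map Prod.snd).sum = k ∧ (M.map Prod.fst).sum ≤ 2 * k) := ⟨_, fun _ => Iff.rfl⟩
  obtain ⟨T', hT'⟩ : ∃ T', T' = T.filter Pr := ⟨_, rfl⟩
  obtain ⟨W, hW⟩ : ∃ W : Finset (MvPolynomial (Y ⊕ Z) K),
    W = T'.image (fun M => (M.map fun p => homogeneousComponent p.2 (q p.1)).prod) := ⟨_, rfl⟩
  have hset : {a | ∃ M : Multiset (ℕ × ℕ), (∀ p ∈ M, 1 ≤ p.2) ∧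
      (M.map Prod.snd).sum = k ∧ (M.map Prod.fst).sum ≤ 2 * k ∧
      a = (M.map fun p => homogeneousComponent p.2 (q p.1)).prod} =
      (W : Set (MvPolynomial (Y ⊕ Z) K)) := by
    ext a
    rw [hW, hT']
    simp only [Finset.coe_image, Finset.coe_filter, Set.mem_image, Set.mem_ofPred_eq, hPr]
    constructor
    · rintro ⟨M, hM1, hM2, hM3, rfl⟩
      exact ⟨M, ⟨hT M hM1 hM2 hM3, hM1, hM2, hM3⟩, rfl⟩
    · rintro ⟨M, ⟨_, hM1, hM2, hM3⟩, rfl⟩
      exact ⟨M, hM1, hM2, hM3, rfl⟩
  unfold RS at hf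
  rw [hset, Submodule.mem_span_finset] at hf
  obtain ⟨g, -, hg⟩ := hf
  have hWbb : ∀ a ∈ W, BB al be a (Real.exp (-(lam * k))) := by
    intro a ha
    rw [hW, Finset.mem_image] at ha
    obtain ⟨M, hM, rfl⟩ := ha
    rw [hT', Finset.mem_filter, hPr] at hM
    have h5 := NRSBB.bb_prod h2 h3 q lam hv M hM.2.1
    rw [hM.2.2.1] at h5
    exact h5
  have hsum := NRSBB.bb_sum (al := al) (be := be) W (fun a => g a • a) (Real.exp (-(lam * k)))
    (fun a ha => by
      show BB al be (g a • a) _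
      rw [MvPolynomial.smul_eq_C_mul]
      exact h1 Y Z K al be _ _ _ (hWbb a ha))
  rw [hg] at hsum
  refine BB.mono hsum ?_
  have hc1 : (W.card : ℝ) ≤ T.card := by
    have : W.card ≤ T.card := by
      rw [hW]
      refine Finset.card_image_le.trans ?_
      rw [hT']
      exact Finset.card_filter_le _ _
    exact_mod_cast this
  have hc2 : (W.card : ℝ) ≤ Real.exp (lam / 2 * k + 2592 / lam ^ 3) := by
    refine (hc1.trans hcard).trans (Real.exp_le_exp.2 (le_of_eq ?_))
    have h6 : (12 : ℝ) / (lam / 6) ^ 3 = 2592 / lam ^ 3 := by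
      field_simp
      norm_num
    rw [h6]
    ring
  calc (W.card : ℝ) * Real.exp (-(lam * k))
      ≤ Real.exp (lam / 2 * k + 2592 / lam ^ 3) * Real.exp (-(lam * k)) :=
        mul_le_mul_of_nonneg_right hc2 (Real.exp_pos _).le
    _ = Real.exp (2592 / lam ^ 3 - lam / 2 * k) := by
        rw [← Real.exp_add]
        congr 1
        ring

end Pool.Agent.Work.MP_3c5c20_lc.PIT

end

section

/-!
# The number of multisets of pairs of bounded weight
-/

namespace Pool.Agent.Work.MP_3c5c20_lc.PIT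

namespace NRSCount

theorem sq_bound (k : ℕ) :
    ∑ i ∈ Finset.range (k + 1), (1 : ℝ) / ((i : ℝ) + 1) ^ 2 ≤ 2 - 1 / ((k : ℝ) + 1) := by
  induction k with
  | zero => norm_num
  | succ k ih =>
    rw [Finset.sum_range_succ]
    have hk : (0 : ℝ) ≤ k := Nat.cast_nonneg k
    have h1 : (1 : ℝ) / (((k + 1 : ℕ) : ℝ) + 1) ^ 2 ≤
        1 / ((k : ℝ) + 1) - 1 / (((k + 1 : ℕ) : ℝ) + 1) := by
      push_cast
      rw [div_sub_div _ _ (by positivity) (by positivity), div_le_div_iff₀ (by positivity)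
        (by positivity)]
      nlinarith
    linarith

/-- geometric series -/
theorem geom (t : ℝ) (ht : 0 < t) (k : ℕ) :
    ∑ c ∈ Finset.range (k + 1), (Real.exp (-t)) ^ c ≤ Real.exp (6 / t ^ 3) := by
  have hx0 : 0 < Real.exp (-t) := Real.exp_pos _
  have hx1 : Real.exp (-t) < 1 := by
    rw [Real.exp_lt_one_iff]
    linarith
  have h1 : ∑ c ∈ Finset.range (k + 1), (Real.exp (-t)) ^ c ≤ (1 - Real.exp (-t))⁻¹ := by
    rw [← tsum_geometric_of_lt_one hx0.le hx1]
    exact (summable_geometric_of_lt_one hx0.le hx1).sum_le_tsum _ (fun i _ => by positivity)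
  have h3 : 1 + t ^ 3 / 6 ≤ Real.exp t := by
    have h4 := Real.sum_le_exp_of_nonneg ht.le 4
    simp only [Finset.sum_range_succ, Finset.sum_range_zero, Nat.factorial] at h4
    have h5 : 0 ≤ t ^ 2 := by positivity
    norm_num at h4
    linarith
  have hpos : 0 < t ^ 3 / 6 := by positivity
  have h2 : (1 - Real.exp (-t))⁻¹ = 1 + (Real.exp t - 1)⁻¹ := by
    have e1 : Real.exp t ≠ 0 := (Real.exp_pos _).ne'
    have e2 : Real.exp t - 1 ≠ 0 := by
      have : 0 < Real.exp t - 1 := by linarith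
      exact this.ne'
    rw [Real.exp_neg]
    have e3 : 1 - (Real.exp t)⁻¹ = (Real.exp t - 1) / Real.exp t := by
      field_simp
    rw [e3, inv_div]
    field_simp
    ring
  refine h1.trans ?_
  rw [h2]
  have h6 : (Real.exp t - 1)⁻¹ ≤ 6 / t ^ 3 := by
    have e1 : (6 : ℝ) / t ^ 3 = (t ^ 3 / 6)⁻¹ := by rw [inv_div]
    rw [e1]
    exact inv_anti₀ hpos (by linarith)
  have h7 := Real.add_one_le_exp (6 / t ^ 3)
  linarith

theorem count_mul_le (M : Multiset (ℕ × ℕ)) (p : ℕ × ℕ) (f : ℕ × ℕ → ℕ) :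
    M.count p * f p ≤ (M.map f).sum := by
  rw [Finset.sum_multiset_map_count]
  by_cases hp : p ∈ M
  · have h1 := Finset.single_le_sum (f := fun m : ℕ × ℕ => Multiset.count m M • f m)
      (fun _ _ => Nat.zero_le _) (Multiset.mem_toFinset.2 hp)
    simpa using h1
  · rw [Multiset.count_eq_zero_of_notMem hp, zero_mul]
    exact Nat.zero_le _

/-- the set of types -/
def idx (k : ℕ) : Finset (ℕ × ℕ) := Finset.range (3 * k + 1) ×ˢ Finset.Icc 1 (3 * k)

theorem mem_index (k : ℕ) (M : Multiset (ℕ × ℕ)) (h0 : ∀ p ∈ M, 1 ≤ p.2)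
    (h1 : (M.map Prod.snd).sum = k) (h2 : (M.map Prod.fst).sum ≤ 2 * k) :
    M.toFinset ⊆ idx k := by
  intro p hp
  rw [Multiset.mem_toFinset] at hp
  rw [idx, Finset.mem_product, Finset.mem_Icc, Finset.mem_range]
  have h3 : p.2 ≤ k := by
    rw [← h1]
    exact Multiset.single_le_sum (fun _ _ => Nat.zero_le _) _ (Multiset.mem_map_of_mem _ hp)
  have h4 : p.1 ≤ 2 * k := by
    refine le_trans ?_ h2
    exact Multiset.single_le_sum (fun _ _ => Nat.zero_le _) _ (Multiset.mem_map_of_mem _ hp)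
  have := h0 p hp
  refine ⟨by omega, by omega, by omega⟩

theorem sum_count (k : ℕ) (M : Multiset (ℕ × ℕ)) (h0 : ∀ p ∈ M, 1 ≤ p.2)
    (h1 : (M.map Prod.snd).sum = k) (h2 : (M.map Prod.fst).sum ≤ 2 * k) :
    ∑ p : ↥(idx k), M.count (p : ℕ × ℕ) * ((p : ℕ × ℕ).1 + (p : ℕ × ℕ).2) ≤ 3 * k := by
  rw [Finset.sum_coe_sort (idx k) (fun p : ℕ × ℕ => M.count p * (p.1 + p.2))]
  rw [← Finset.sum_subset (mem_index k M h0 h1 h2) (fun p _ hp => by
    rw [Multiset.mem_toFinset] at hp
    rw [Multiset.count_eq_zero_of_notMem hp, zero_mul])]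
  rw [Finset.sum_multiset_map_count] at h1 h2
  have h3 : ∑ p ∈ M.toFinset, M.count p * (p.1 + p.2) =
      ∑ p ∈ M.toFinset, M.count p • p.1 + ∑ p ∈ M.toFinset, M.count p • p.2 := by
    rw [← Finset.sum_add_distrib]
    refine Finset.sum_congr rfl fun p _ => ?_
    rw [smul_eq_mul, smul_eq_mul, mul_add]
  rw [h3]
  omega

theorem eq_sum (k : ℕ) (M : Multiset (ℕ × ℕ)) (h0 : ∀ p ∈ M, 1 ≤ p.2)
    (h1 : (M.map Prod.snd).sum = k) (h2 : (M.map Prod.fst).sum ≤ 2 * k) :
    ∑ p : ↥(idx k), M.count (p : ℕ × ℕ) • ({(p : ℕ × ℕ)} : Multiset (ℕ × ℕ)) = M := by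
  rw [Finset.sum_coe_sort (idx k)
    (fun p : ℕ × ℕ => M.count p • ({p} : Multiset (ℕ × ℕ)))]
  rw [← Finset.sum_subset (mem_index k M h0 h1 h2) (fun p _ hp => by
    rw [Multiset.mem_toFinset] at hp
    rw [Multiset.count_eq_zero_of_notMem hp, zero_nsmul])]
  exact Multiset.toFinset_sum_count_nsmul_eq M

theorem sum_bound (k : ℕ) (e : ℝ) (he : 0 < e) :
    ∑ p ∈ idx k, 6 / (e * ((p.1 + p.2 : ℕ) : ℝ)) ^ 3 ≤ 12 / e ^ 3 := by
  have hmaps : ∀ p ∈ idx k, p.1 + p.2 - 1 ∈ Finset.range (6 * k + 1) := by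
    intro p hp
    rw [idx, Finset.mem_product, Finset.mem_Icc, Finset.mem_range] at hp
    rw [Finset.mem_range]
    omega
  rw [← Finset.sum_fiberwise_of_maps_to hmaps]
  have h1 : ∀ w ∈ Finset.range (6 * k + 1),
      ∑ p ∈ (idx k).filter (fun p => p.1 + p.2 - 1 = w), 6 / (e * ((p.1 + p.2 : ℕ) : ℝ)) ^ 3 ≤
        6 / e ^ 3 * (1 / ((w : ℝ) + 1) ^ 2) := by
    intro w _
    have hw0 : (0 : ℝ) < (w : ℝ) + 1 := by positivity
    have e1 : ∀ p ∈ (idx k).filter (fun p => p.1 + p.2 - 1 = w),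
        6 / (e * ((p.1 + p.2 : ℕ) : ℝ)) ^ 3 = 6 / (e * ((w : ℝ) + 1)) ^ 3 := by
      intro p hp
      rw [Finset.mem_filter, idx, Finset.mem_product, Finset.mem_Icc, Finset.mem_range] at hp
      have e2 : p.1 + p.2 = w + 1 := by omega
      rw [e2]
      push_cast
      rfl
    rw [Finset.sum_congr rfl e1, Finset.sum_const, nsmul_eq_mul]
    have e3 : ((idx k).filter (fun p => p.1 + p.2 - 1 = w)).card ≤ w + 1 := by
      have e4 : ((idx k).filter (fun p => p.1 + p.2 - 1 = w)).card ≤
          (Finset.Icc 1 (w + 1)).card := by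
        apply Finset.card_le_card_of_injOn (fun p => p.2)
        · intro p hp
          simp only [Finset.coe_filter, Set.mem_ofPred_eq, idx, Finset.mem_product,
            Finset.mem_Icc, Finset.mem_range] at hp
          simp only [Finset.coe_Icc, Set.mem_Icc]
          omega
        · intro p hp p' hp' hpp
          simp only [Finset.coe_filter, Set.mem_ofPred_eq, idx, Finset.mem_product,
            Finset.mem_Icc, Finset.mem_range] at hp hp'
          simp only at hpp
          apply Prod.ext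
          · omega
          · exact hpp
      rw [Nat.card_Icc] at e4
      omega
    have e5 : (((idx k).filter (fun p => p.1 + p.2 - 1 = w)).card : ℝ) ≤ (w : ℝ) + 1 := by
      exact_mod_cast e3
    calc (((idx k).filter (fun p => p.1 + p.2 - 1 = w)).card : ℝ) * (6 / (e * ((w : ℝ) + 1)) ^ 3)
        ≤ ((w : ℝ) + 1) * (6 / (e * ((w : ℝ) + 1)) ^ 3) :=
          mul_le_mul_of_nonneg_right e5 (by positivity)
      _ = 6 / e ^ 3 * (1 / ((w : ℝ) + 1) ^ 2) := by
          field_simp
  refine (Finset.sum_le_sum h1).trans ?_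
  rw [← Finset.mul_sum]
  have h2 := sq_bound (6 * k)
  have h3 : (0 : ℝ) ≤ 1 / (((6 * k : ℕ) : ℝ) + 1) := by positivity
  have h4 : ∑ i ∈ Finset.range (6 * k + 1), (1 : ℝ) / ((i : ℝ) + 1) ^ 2 ≤ 2 := by linarith
  calc 6 / e ^ 3 * ∑ i ∈ Finset.range (6 * k + 1), (1 : ℝ) / ((i : ℝ) + 1) ^ 2
      ≤ 6 / e ^ 3 * 2 := mul_le_mul_of_nonneg_left h4 (by positivity)
    _ = 12 / e ^ 3 := by ring

end NRSCount

open NRSCount in
theorem pr_RSCount : S_RSCount := by
  intro k e he
  classical
  set I : Finset (ℕ × ℕ) := idx k with hI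
  set F : Finset (↥I → ℕ) := (Fintype.piFinset (fun _ : ↥I => Finset.range (3 * k + 1))).filter
    (fun c => ∑ p : ↥I, c p * ((p : ℕ × ℕ).1 + (p : ℕ × ℕ).2) ≤ 3 * k) with hF
  refine ⟨F.image (fun c => ∑ p : ↥I, c p • ({(p : ℕ × ℕ)} : Multiset (ℕ × ℕ))), ?_, ?_⟩
  · intro M h0 h1 h2
    rw [Finset.mem_image]
    refine ⟨fun p => M.count (p : ℕ × ℕ), ?_, eq_sum k M h0 h1 h2⟩
    rw [hF, Finset.mem_filter, Fintype.mem_piFinset]
    refine ⟨fun p => ?_, sum_count k M h0 h1 h2⟩
    rw [Finset.mem_range]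
    have h3 := count_mul_le M (p : ℕ × ℕ) Prod.snd
    rw [h1] at h3
    have h4 : (p : ℕ × ℕ).1 ∈ Finset.range (3 * k + 1) ∧ (p : ℕ × ℕ).2 ∈ Finset.Icc 1 (3 * k) :=
      Finset.mem_product.1 p.2
    rw [Finset.mem_Icc] at h4
    have h5 : M.count (p : ℕ × ℕ) * 1 ≤ M.count (p : ℕ × ℕ) * (p : ℕ × ℕ).2 :=
      Nat.mul_le_mul_left _ h4.2.1
    omega
  · have h0 : ((F.image (fun c => ∑ p : ↥I, c p • ({(p : ℕ × ℕ)} : Multiset (ℕ × ℕ)))).card : ℝ)
        ≤ F.card := by
      exact_mod_cast Finset.card_image_le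
    refine h0.trans ?_
    set x : ↥I → ℝ := fun p => Real.exp (-(e * (((p : ℕ × ℕ).1 + (p : ℕ × ℕ).2 : ℕ) : ℝ)))
      with hx
    have h1 : ∀ c ∈ F, (1 : ℝ) ≤ Real.exp (3 * e * k) * ∏ p : ↥I, x p ^ (c p) := by
      intro c hc
      rw [hF, Finset.mem_filter] at hc
      have e1 : ∏ p : ↥I, x p ^ (c p) =
          Real.exp (-(e * ((∑ p : ↥I, c p * ((p : ℕ × ℕ).1 + (p : ℕ × ℕ).2) : ℕ) : ℝ))) := by
        have e2 : ∀ p : ↥I, x p ^ (c p) =
            Real.exp (-(e * ((c p * ((p : ℕ × ℕ).1 + (p : ℕ × ℕ).2) : ℕ) : ℝ))) := by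
          intro p
          rw [hx, ← Real.exp_nat_mul]
          congr 1
          push_cast
          ring
        rw [Finset.prod_congr rfl fun p _ => e2 p, ← Real.exp_sum]
        congr 1
        rw [Finset.sum_neg_distrib, ← Finset.mul_sum, ← Nat.cast_sum]
      rw [e1, ← Real.exp_add]
      apply Real.one_le_exp
      have e3 : ((∑ p : ↥I, c p * ((p : ℕ × ℕ).1 + (p : ℕ × ℕ).2) : ℕ) : ℝ) ≤
          ((3 * k : ℕ) : ℝ) := by
        exact_mod_cast hc.2
      have e4 := mul_le_mul_of_nonneg_left e3 he.le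
      push_cast at e4 ⊢
      linarith
    have h2 : (F.card : ℝ) ≤ Real.exp (3 * e * k) * ∑ c ∈ F, ∏ p : ↥I, x p ^ (c p) := by
      rw [Finset.mul_sum]
      calc (F.card : ℝ) = ∑ _c ∈ F, (1 : ℝ) := by
            rw [Finset.sum_const, nsmul_eq_mul, mul_one]
        _ ≤ _ := Finset.sum_le_sum h1
    have h3 : ∑ c ∈ F, ∏ p : ↥I, x p ^ (c p) ≤
        ∑ c ∈ Fintype.piFinset (fun _ : ↥I => Finset.range (3 * k + 1)),
          ∏ p : ↥I, x p ^ (c p) := by
      refine Finset.sum_le_sum_of_subset_of_nonneg (Finset.filter_subset _ _)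
        (fun _ _ _ => Finset.prod_nonneg fun _ _ => by positivity)
    rw [← Finset.prod_univ_sum (fun _ : ↥I => Finset.range (3 * k + 1)) (fun p c => x p ^ c)] at h3
    have h4 : ∏ p : ↥I, ∑ c ∈ Finset.range (3 * k + 1), x p ^ c ≤
        ∏ p : ↥I, Real.exp (6 / (e * (((p : ℕ × ℕ).1 + (p : ℕ × ℕ).2 : ℕ) : ℝ)) ^ 3) := by
      refine Finset.prod_le_prod (fun _ _ => Finset.sum_nonneg fun _ _ => by positivity)
        (fun p _ => geom _ ?_ (3 * k))
      have h5 : (p : ℕ × ℕ).1 ∈ Finset.range (3 * k + 1) ∧ (p : ℕ × ℕ).2 ∈ Finset.Icc 1 (3 * k) :=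
        Finset.mem_product.1 p.2
      rw [Finset.mem_Icc] at h5
      have h6 : (0 : ℝ) < (((p : ℕ × ℕ).1 + (p : ℕ × ℕ).2 : ℕ) : ℝ) := by
        exact_mod_cast (by omega : 0 < (p : ℕ × ℕ).1 + (p : ℕ × ℕ).2)
      positivity
    have h5 : ∏ p : ↥I, Real.exp (6 / (e * (((p : ℕ × ℕ).1 + (p : ℕ × ℕ).2 : ℕ) : ℝ)) ^ 3) ≤
        Real.exp (12 / e ^ 3) := by
      rw [← Real.exp_sum, Real.exp_le_exp,
        Finset.sum_coe_sort I (fun p : ℕ × ℕ => 6 / (e * ((p.1 + p.2 : ℕ) : ℝ)) ^ 3)]
      exact sum_bound k e he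
    rw [Real.exp_add]
    exact h2.trans (mul_le_mul_of_nonneg_left (h3.trans (h4.trans h5)) (Real.exp_pos _).le)

end Pool.Agent.Work.MP_3c5c20_lc.PIT

end

section

/-!
# Item RootBB: measure of a root of a circuit
-/

namespace Pool.Agent.Work.MP_3c5c20_lc.PIT

open MvPolynomial Pool.Agent.Work.MP_499dc6_lc.CD Pool.Agent.Work.MP_499dc6_lc.CDG

namespace NRootBB

variable {K σ : Type} [Field K]

theorem cc_trl (x : σ → K) (h : MvPolynomial σ K) : constantCoeff (trl x h) = eval x h := by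
  have : ((constantCoeff : MvPolynomial σ K →+* K).comp (trl x)) = (eval x : MvPolynomial σ K →+* K) := by
    apply MvPolynomial.ringHom_ext <;> intro a <;> simp [trl]
  exact DFunLike.congr_fun this h

theorem hasse_map {A B : Type} [CommRing A] [CommRing B] (t : A →+* B) (j : ℕ)
    (R : Polynomial A) :
    Polynomial.hasseDeriv j (R.map t) = (Polynomial.hasseDeriv j R).map t := by
  ext n
  simp [Polynomial.hasseDeriv_coeff, Polynomial.coeff_map]

theorem hc_C (a : K) (k : ℕ) (hk : 1 ≤ k) :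
    homogeneousComponent k (C a : MvPolynomial σ K) = 0 := by
  have h := homogeneousComponent_of_mem (m := k) (n := 0) (p := (C a : MvPolynomial σ K))
    ((mem_homogeneousSubmodule _ _).2 (isHomogeneous_C σ a))
  rw [h, if_neg (by omega)]

theorem rg_succ_fst (G : ℝ) (j : ℕ) :
    (rg G (j + 1)).1 = G + 16 * G / ((rg G j).2 ^ 2 / (4 * (rg G j).1 ^ 2)) ^ 2 := rfl

theorem rg_succ_snd (G : ℝ) (j : ℕ) :
    (rg G (j + 1)).2 = ((rg G j).2 ^ 2 / (4 * (rg G j).1 ^ 2)) / 2 := rfl

/-- `sg + G ≤ sg'`. -/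
theorem sg_le (G s l : ℝ) (hG : 1 ≤ G) (hs : G ≤ s) (hl : 0 < l) (hl1 : l ≤ 1) :
    s + G ≤ G + 16 * G / (l ^ 2 / (4 * s ^ 2)) ^ 2 := by
  have hs1 : 1 ≤ s := hG.trans hs
  have h1 : 0 < l ^ 2 / (4 * s ^ 2) := by positivity
  have h2 : (l ^ 2 / (4 * s ^ 2)) ^ 2 ≤ 1 / (16 * s ^ 4) := by
    rw [div_pow, div_le_div_iff₀ (by positivity) (by positivity)]
    have : (l ^ 2) ^ 2 ≤ 1 := by
      have : l ^ 2 ≤ 1 := by nlinarith
      nlinarith [sq_nonneg (l ^ 2), sq_nonneg l]
    nlinarith [mul_le_mul_of_nonneg_right this (by positivity : (0 : ℝ) ≤ 16 * s ^ 4)]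
  have h3 : 16 * G * (16 * s ^ 4) ≤ 16 * G / (l ^ 2 / (4 * s ^ 2)) ^ 2 := by
    rw [le_div_iff₀ (by positivity)]
    calc 16 * G * (16 * s ^ 4) * (l ^ 2 / (4 * s ^ 2)) ^ 2
        ≤ 16 * G * (16 * s ^ 4) * (1 / (16 * s ^ 4)) := by gcongr
      _ = 16 * G := by field_simp
  have h4 : s ≤ s ^ 4 := by
    calc s = s ^ 1 := (pow_one s).symm
      _ ≤ s ^ 4 := pow_le_pow_right₀ hs1 (by norm_num)
  nlinarith [mul_le_mul hG h4 (by linarith) (by linarith)]

end NRootBB

open NRootBB in
/-- Item RootBB. -/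
theorem pr_RootBB
    (h1 : Pool.Agent.Work.MP_499dc6_lc.CD.S_BBphi) (h2 : Pool.Agent.Work.MP_499dc6_lc.CD.S_Step)
    (h3 : Pool.Agent.Work.MP_499dc6_lc.CDG.S_RgBound)
    (h3' : Pool.Agent.Work.MP_499dc6_lc.CDG.S_RgMono)
    (h4 : S_Mult) (h5 : S_TayHasse) (h6 : S_RootSpan) (h7 : S_RSBB) (h8 : S_GenPt)
    (h9 : S_CoefBB) (h0 : Pool.Agent.Work.MP_499dc6_lc.CD.S_BBsmul) : S_RootBB := by
  intro Y Z _ _ K _ _ al G s D e r E F d i0 g hal hF hd hF0 hE hg hG hexp
  have hG1 : 1 ≤ G := by
    have ha : 0 ≤ Real.log (s + 1) := Real.log_nonneg (by linarith [Nat.cast_nonneg (α := ℝ) s])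
    have hb : 0 ≤ Real.log (E + 1) := Real.log_nonneg (by linarith [Nat.cast_nonneg (α := ℝ) E])
    have hc : (0 : ℝ) ≤ e := Nat.cast_nonneg _
    have hd' : (0 : ℝ) ≤ r := Nat.cast_nonneg _
    linarith
  have hB : (1 : ℝ) ≤ 257 * G := by linarith
  -- exponent bounds
  have hpow : ∀ a, a ≤ 2 * D + 2 →
      2 * ((257 * G) ^ (10 ^ a)) ^ 2 ≤ Real.exp (al / 2) := by
    intro a ha
    refine le_trans ?_ hexp
    have : (257 * G) ^ (10 ^ a) ≤ (257 * G) ^ (10 ^ (2 * D + 2)) :=
      pow_le_pow_right₀ hB (Nat.pow_le_pow_right (by norm_num) ha)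
    have h0 : 0 ≤ (257 * G) ^ (10 ^ a) := by positivity
    nlinarith [mul_self_le_mul_self h0 this]
  set R : Polynomial (MvPolynomial (Y ⊕ Z) K) := optionEquivLeft K (Y ⊕ Z) (F i0) with hR
  have hR0 : R ≠ 0 := by
    rw [hR]
    simpa using hF0
  obtain ⟨j, hj1, hj2⟩ := h4 (MvPolynomial (Y ⊕ Z) K) R g hR0 hg
  set h : MvPolynomial (Y ⊕ Z) K :=
    (Polynomial.derivative (Polynomial.hasseDeriv j R)).eval g with hh
  obtain ⟨x, w, hw, hx, hxw⟩ := h8 (Y ⊕ Z) K s E F h hj2
  refine ⟨x, ?_⟩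
  set g' : MvPolynomial (Y ⊕ Z) K := trl x g with hg'
  set γ : K := constantCoeff g' with hγ
  set v : MvPolynomial (Y ⊕ Z) K := g' - C γ with hv
  set R'' : Polynomial (MvPolynomial (Y ⊕ Z) K) := R.map (trl x) with hR''
  set Q : Polynomial (MvPolynomial (Y ⊕ Z) K) := Polynomial.hasseDeriv j R'' with hQ
  have hQm : Q = (Polynomial.hasseDeriv j R).map (trl x) := by rw [hQ, hR'', hasse_map]
  have hQ0 : Q.eval g' = 0 := by
    rw [hQm, hg', Polynomial.eval_map, Polynomial.eval₂_hom, hj1, map_zero]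
  have hQ1 : constantCoeff ((Polynomial.derivative Q).eval g') = eval x h := by
    rw [hQm, Polynomial.derivative_map, hg', Polynomial.eval_map, Polynomial.eval₂_hom,
      cc_trl]
  set Q' : Polynomial (MvPolynomial (Y ⊕ Z) K) := Polynomial.taylor (C γ) Q with hQ'
  have hcv : constantCoeff v = 0 := by
    rw [hv, map_sub, constantCoeff_C, hγ, sub_self]
  have hsum : ∑ i ∈ Finset.range (Q'.natDegree + 2), Q'.coeff i * v ^ i = 0 := by
    rw [← Polynomial.eval_eq_sum_range' (by omega : Q'.natDegree < Q'.natDegree + 2), hQ',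
      Polynomial.taylor_eval, hv, sub_add_cancel, hQ0]
  have hq1 : constantCoeff (Q'.coeff 1) ≠ 0 := by
    rw [hQ', Polynomial.taylor_coeff_one]
    have e1 : constantCoeff (Polynomial.eval (C γ) (Polynomial.derivative Q)) =
        constantCoeff (Polynomial.eval g' (Polynomial.derivative Q)) := by
      rw [← Polynomial.eval₂_hom, ← Polynomial.eval₂_hom, constantCoeff_C, ← hγ]
    rw [e1, hQ1]
    exact hx
  -- the bound for the coefficients
  obtain ⟨ha1, ha2, ha3, ha4, ha5⟩ := h3 G (2 * D) hG1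
  obtain ⟨hb1, hb2, hb3, hb4, hb5⟩ := h3 G (2 * D + 1) hG1
  obtain ⟨hc1, hc2, hc3, hc4, hc5⟩ := h3 G (2 * D + 2) hG1
  have hmono := (h3' G (2 * D) (2 * D + 1) hG1 (by omega)).2
  have hsg : (rg G (2 * D)).1 + G ≤ (rg G (2 * D + 1)).1 := by
    rw [rg_succ_fst]
    exact sg_le G _ _ hG1 ha1 ha2 ha3
  have hcoef : ∀ i k, 1 ≤ k → BB al (√2 * al) (homogeneousComponent k (Q'.coeff i))
      (Real.exp ((rg G (2 * D + 1)).1 - (rg G (2 * D + 1)).2 * k)) := by
    intro i k hk
    have e1 : Q'.coeff i = C ((((i + j).choose i : ℕ) : K)) *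
        (Polynomial.taylor (C γ) R'').coeff (i + j) := by
      rw [hQ', hQ, h5]
      simp
    rw [e1, homogeneousComponent_C_mul]
    refine BB.mono (h0 Y Z K al (√2 * al) _ _ _
      (h9 Y Z K al G s D e r E F d x w γ i0 hal hF hd hw hxw hE hG
        (hpow _ (by omega)) (i + j) k hk)) ?_
    apply Real.exp_le_exp.mpr
    have : (rg G (2 * D + 1)).2 * k ≤ (rg G (2 * D)).2 * k :=
      mul_le_mul_of_nonneg_right hmono (Nat.cast_nonneg _)
    linarith
  have hstep : 2 * (rg G (2 * D + 1)).1 / (rg G (2 * D + 1)).2 ≤ Real.exp (al / 2) := by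
    refine le_trans ?_ (hpow (2 * D + 1) (by omega))
    have : 2 * (rg G (2 * D + 1)).1 / (rg G (2 * D + 1)).2 =
        2 * ((rg G (2 * D + 1)).1 * (1 / (rg G (2 * D + 1)).2)) := by ring
    rw [this]
    have h0 : 0 ≤ (rg G (2 * D + 1)).1 := by linarith
    have h1' : 0 ≤ 1 / (rg G (2 * D + 1)).2 := by positivity
    have := mul_le_mul hb4 hb5 h1' (by positivity)
    calc 2 * ((rg G (2 * D + 1)).1 * (1 / (rg G (2 * D + 1)).2))
        ≤ 2 * ((257 * G) ^ (10 ^ (2 * D + 1)) * (257 * G) ^ (10 ^ (2 * D + 1))) := by linarith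
      _ = 2 * ((257 * G) ^ (10 ^ (2 * D + 1))) ^ 2 := by ring
  set lam : ℝ := (rg G (2 * D + 1)).2 ^ 2 / (4 * (rg G (2 * D + 1)).1 ^ 2) with hlam
  have hmu : (rg G (2 * D + 2)).2 = lam / 2 := rg_succ_snd G (2 * D + 1)
  have hlam0 : 0 < lam := by
    rw [hlam]
    have : 0 < (rg G (2 * D + 1)).1 := by linarith
    positivity
  have hcoef2 : ∀ i k, 1 ≤ k → BB al (√2 * al) (homogeneousComponent k (Q'.coeff i))
      (Real.exp (-(lam * k))) := by
    intro i k hk
    rcases h2 al (rg G (2 * D + 1)).1 (rg G (2 * D + 1)).2 k hal (by linarith) hb2 hb3 hk hstep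
      with hs | hs
    · exact BB.mono (h1 Y Z K al (√2 * al) _ k (homogeneousComponent_isHomogeneous _ _)) hs
    · exact BB.mono (hcoef i k hk) hs
  intro k hk
  have hspan := h6 (Y ⊕ Z) K Q'.natDegree (fun i => Q'.coeff i) v hcv hq1 hsum k hk
  have hbb := h7 Y Z K al (√2 * al) (fun i => Q'.coeff i) (homogeneousComponent k v) lam k hlam0
    hcoef2 hspan
  have hvk : homogeneousComponent k v = homogeneousComponent k g' := by
    rw [hv, map_sub, hc_C γ k hk, sub_zero]
  rw [hvk] at hbb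
  have e2 : 324 / (rg G (2 * D + 2)).2 ^ 3 - (rg G (2 * D + 2)).2 * k =
      2592 / lam ^ 3 - lam / 2 * k := by
    rw [hmu]
    field_simp
    ring
  rw [e2]
  exact hbb

end Pool.Agent.Work.MP_3c5c20_lc.PIT

end

section

/-! Item RootSpan: a power series root is a combination of few products (helper61). -/

namespace Pool.Agent.Work.MP_3c5c20_lc.PIT

open MvPolynomial Pool.Agent.Work.MP_499dc6_lc.CD Pool.Agent.Work.MP_499dc6_lc.CDG

namespace NRootSpan

variable {K σ : Type} [Field K]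

/-- As `RS`, the bound `n` for the sum of the `p.1` is a parameter. -/
noncomputable def RT (q : ℕ → MvPolynomial σ K) (k n : ℕ) :
    Submodule K (MvPolynomial σ K) :=
  Submodule.span K {a | ∃ M : Multiset (ℕ × ℕ), (∀ p ∈ M, 1 ≤ p.2) ∧
    (M.map Prod.snd).sum = k ∧ (M.map Prod.fst).sum ≤ n ∧
    a = (M.map fun p => homogeneousComponent p.2 (q p.1)).prod}

theorem RT_mono (q : ℕ → MvPolynomial σ K) {k n n' : ℕ} (h : n ≤ n') {a : MvPolynomial σ K}
    (ha : a ∈ RT q k n) : a ∈ RT q k n' := by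
  refine Submodule.span_mono ?_ ha
  rintro _ ⟨M, h1, h2, h3, rfl⟩
  exact ⟨M, h1, h2, h3.trans h, rfl⟩

theorem RT_RS (q : ℕ → MvPolynomial σ K) {k n : ℕ} (h : n ≤ 2 * k) {a : MvPolynomial σ K}
    (ha : a ∈ RT q k n) : a ∈ RS K q k := RT_mono q h ha

theorem RT_one (q : ℕ → MvPolynomial σ K) (n : ℕ) : (1 : MvPolynomial σ K) ∈ RT q 0 n := by
  refine Submodule.subset_span ⟨0, ?_, ?_, ?_, ?_⟩
  · intro p hp
    simp at hp
  · simp
  · simp
  · simp

theorem RT_gen (q : ℕ → MvPolynomial σ K) {i j n : ℕ} (hi : 1 ≤ i) (hn : j ≤ n) :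
    homogeneousComponent i (q j) ∈ RT q i n := by
  refine Submodule.subset_span ⟨{(j, i)}, ?_, ?_, ?_, ?_⟩
  · intro p hp
    rw [Multiset.mem_singleton] at hp
    rw [hp]
    exact hi
  · simp
  · simpa using hn
  · simp

theorem RT_mul (q : ℕ → MvPolynomial σ K) {k n k' n' : ℕ} {a b : MvPolynomial σ K}
    (ha : a ∈ RT q k n) (hb : b ∈ RT q k' n') : a * b ∈ RT q (k + k') (n + n') := by
  have h := Submodule.mul_mem_mul ha hb
  unfold RT at h
  rw [Submodule.span_mul_span] at h
  refine Submodule.span_mono ?_ h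
  rw [Set.mul_subset_iff]
  rintro _ ⟨M, h1, h2, h3, rfl⟩ _ ⟨M', h1', h2', h3', rfl⟩
  refine ⟨M + M', ?_, ?_, ?_, ?_⟩
  · intro p hp
    rcases Multiset.mem_add.1 hp with hp | hp
    · exact h1 p hp
    · exact h1' p hp
  · rw [Multiset.map_add, Multiset.sum_add, h2, h2']
  · rw [Multiset.map_add, Multiset.sum_add]
    exact add_le_add h3 h3'
  · rw [Multiset.map_add, Multiset.prod_add]

theorem RT_C (q : ℕ → MvPolynomial σ K) {k n : ℕ} {a : MvPolynomial σ K} (c : K)
    (ha : a ∈ RT q k n) : C c * a ∈ RT q k n := by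
  rw [← MvPolynomial.smul_eq_C_mul]
  exact Submodule.smul_mem _ _ ha

theorem hc_zero (f : MvPolynomial σ K) : homogeneousComponent 0 f = C (constantCoeff f) := by
  rw [homogeneousComponent_zero]
  rfl

theorem hc_one {k : ℕ} (hk : k ≠ 0) : homogeneousComponent k (1 : MvPolynomial σ K) = 0 := by
  have h : (1 : MvPolynomial σ K).IsHomogeneous 0 := isHomogeneous_one σ K
  rw [homogeneousComponent_of_mem h]
  simp [hk]

theorem hc_pow_zero (h1 : S_HcMul) (w : MvPolynomial σ K) (hw : constantCoeff w = 0) (j : ℕ) :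
    ∀ k, k < j → homogeneousComponent k (w ^ j) = 0 := by
  induction j with
  | zero => intro k hk; omega
  | succ j ih =>
    intro k hk
    rw [pow_succ, h1]
    refine Finset.sum_eq_zero fun p hp => ?_
    rw [Finset.HasAntidiagonal.mem_antidiagonal] at hp
    by_cases hb : p.2 = 0
    · rw [hb, hc_zero w, hw, C_0, mul_zero]
    · rw [ih p.1 (by omega), zero_mul]

theorem hc_pow (h1 : S_HcMul) (q : ℕ → MvPolynomial σ K) (w : MvPolynomial σ K)
    (hw : constantCoeff w = 0) (N : ℕ)
    (hA : ∀ i, 1 ≤ i → i < N → homogeneousComponent i w ∈ RT q i (2 * i - 1)) (j : ℕ) :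
    ∀ k, (k < N ∨ (k = N ∧ 2 ≤ j)) → j ≤ k →
      homogeneousComponent k (w ^ j) ∈ RT q k (2 * k - j) := by
  induction j with
  | zero =>
    intro k _ _
    rw [pow_zero]
    by_cases hk : k = 0
    · rw [hk, hc_zero, map_one, C_1]
      exact RT_one q _
    · rw [hc_one hk]
      exact Submodule.zero_mem _
  | succ j ih =>
    intro k hk hjk
    rw [pow_succ, h1]
    refine Submodule.sum_mem _ fun p hp => ?_
    rw [Finset.HasAntidiagonal.mem_antidiagonal] at hp
    by_cases hb : p.2 = 0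
    · rw [hb, hc_zero w, hw, C_0, mul_zero]
      exact Submodule.zero_mem _
    by_cases ha : p.1 < j
    · rw [hc_pow_zero h1 w hw j p.1 ha, zero_mul]
      exact Submodule.zero_mem _
    have h2 := ih p.1 (Or.inl (by omega)) (by omega)
    have h3 := hA p.2 (by omega) (by omega)
    have h4 := RT_mul q h2 h3
    rw [hp] at h4
    exact RT_mono q (by omega) h4

end NRootSpan

open NRootSpan in
theorem pr_RootSpan (h1 : S_HcMul) : S_RootSpan := by
  intro σ K _ D q w hw hq hsum
  have main : ∀ N, ∀ k, 1 ≤ k → k < N → homogeneousComponent k w ∈ RT q k (2 * k - 1) := by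
    intro N
    induction N with
    | zero => intro k _ hk; omega
    | succ N hA =>
      intro k hk1 hkN
      by_cases hkN' : k < N
      · exact hA k hk1 hkN'
      obtain rfl : k = N := by omega
      -- all terms except the one with `i = 1`
      have hT : ∀ i, i ≠ 1 → homogeneousComponent k (q i * w ^ i) ∈ RT q k (2 * k - 1) := by
        intro i hi
        rw [h1]
        refine Submodule.sum_mem _ fun p hp => ?_
        rw [Finset.HasAntidiagonal.mem_antidiagonal] at hp
        by_cases hi0 : i = 0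
        · rw [hi0, pow_zero]
          by_cases hb : p.2 = 0
          · have hp1 : p.1 = k := by omega
            rw [hb, hc_zero (1 : MvPolynomial σ K), map_one, C_1, mul_one, hp1]
            exact RT_gen q hk1 (by omega)
          · rw [hc_one hb, mul_zero]
            exact Submodule.zero_mem _
        · by_cases hb : p.2 < i
          · rw [hc_pow_zero h1 w hw i p.2 hb, mul_zero]
            exact Submodule.zero_mem _
          · have h2 := hc_pow h1 q w hw k hA i p.2 (by omega) (by omega)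
            by_cases ha : p.1 = 0
            · rw [ha, hc_zero (q i)]
              have hp2 : p.2 = k := by omega
              rw [hp2] at h2 ⊢
              exact RT_C q _ (RT_mono q (by omega) h2)
            · have h3 := RT_mul q (RT_gen q (i := p.1) (j := i) (by omega) le_rfl) h2
              rw [hp] at h3
              exact RT_mono q (by omega) h3
      have hT1 : homogeneousComponent k (q 1 * w ^ 1) ∈ RT q k (2 * k - 1) := by
        have h0 : ∑ i ∈ Finset.range (D + 2), homogeneousComponent k (q i * w ^ i) = 0 := by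
          rw [← map_sum, hsum, map_zero]
        have hmem : 1 ∈ Finset.range (D + 2) := by
          rw [Finset.mem_range]
          omega
        rw [← Finset.add_sum_erase _ _ hmem] at h0
        rw [eq_neg_of_add_eq_zero_left h0]
        refine Submodule.neg_mem _ (Submodule.sum_mem _ fun i hi => ?_)
        exact hT i (Finset.ne_of_mem_erase hi)
      rw [pow_one, h1] at hT1
      have hmem : ((0, k) : ℕ × ℕ) ∈ Finset.HasAntidiagonal.antidiagonal k := by
        rw [Finset.HasAntidiagonal.mem_antidiagonal]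
        omega
      rw [← Finset.add_sum_erase _ _ hmem] at hT1
      have hrest : ∑ p ∈ (Finset.HasAntidiagonal.antidiagonal k).erase (0, k),
          homogeneousComponent p.1 (q 1) * homogeneousComponent p.2 w ∈ RT q k (2 * k - 1) := by
        refine Submodule.sum_mem _ fun p hp => ?_
        rw [Finset.mem_erase, Finset.HasAntidiagonal.mem_antidiagonal] at hp
        have hp1 : p.1 ≠ 0 := by
          intro h
          apply hp.1
          ext
          · exact h
          · change p.2 = k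
            omega
        by_cases hb : p.2 = 0
        · rw [hb, hc_zero w, hw, C_0, mul_zero]
          exact Submodule.zero_mem _
        · have h3 := RT_mul q (RT_gen q (i := p.1) (j := 1) (by omega) le_rfl)
            (hA p.2 (by omega) (by omega))
          rw [hp.2] at h3
          exact RT_mono q (by omega) h3
      have h5 := (Submodule.add_mem_iff_left _ hrest).1 hT1
      change homogeneousComponent 0 (q 1) * homogeneousComponent k w ∈ _ at h5
      rw [hc_zero (q 1)] at h5
      have h6 := RT_C q (constantCoeff (q 1))⁻¹ h5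
      rw [← mul_assoc, ← C_mul, inv_mul_cancel₀ hq, C_1, one_mul] at h6
      exact h6
  intro k hk
  exact RT_RS q (by omega) (main (k + 1) k hk (Nat.lt_succ_self k))

end Pool.Agent.Work.MP_3c5c20_lc.PIT

end

section

/-!
# Specialisation of some of the variables
-/

namespace Pool.Agent.Work.MP_3c5c20_lc.PIT

open MvPolynomial Pool.Agent.Work.MP_499dc6_lc.CD Pool.Agent.Work.MP_499dc6_lc.CDG

theorem pr_Special : S_Special := by
  intro α β K _ _ P π hP hπ
  classical
  obtain ⟨z, hz⟩ : ∃ z : α → K, eval z P ≠ 0 := by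
    by_contra h
    push Not at h
    exact hP (MvPolynomial.funext (fun x => by rw [h x, map_zero]))
  refine ⟨z, fun h0 => ?_⟩
  let y : β → K := fun b => if h : ∃ a, π a = some b then z h.choose else 0
  have hy : ∀ a b, π a = some b → y b = z a := by
    intro a b hab
    have h : ∃ a, π a = some b := ⟨a, hab⟩
    have h1 : h.choose = a := hπ _ _ b h.choose_spec hab
    simp only [y, dif_pos h, h1]
  have key : (eval y).comp
      (aeval (fun a => ((π a).elim (C (z a)) X : MvPolynomial β K)) :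
        MvPolynomial α K →ₐ[K] MvPolynomial β K).toRingHom = eval z := by
    apply MvPolynomial.ringHom_ext
    · intro r
      simp
    · intro a
      simp only [RingHom.comp_apply, AlgHom.toRingHom_eq_coe, RingHom.coe_coe, aeval_X, eval_X]
      rcases hab : π a with _ | b
      · simp
      · simp [hy a b hab]
  have h1 := congrArg (fun f => f P) key
  simp only [RingHom.comp_apply, AlgHom.toRingHom_eq_coe, RingHom.coe_coe] at h1
  rw [h0, map_zero] at h1
  exact hz h1.symm

end Pool.Agent.Work.MP_3c5c20_lc.PIT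

end

section

/-! # Coefficients of a Hasse derivative at a point -/

namespace Pool.Agent.Work.MP_3c5c20_lc.PIT

theorem pr_TayHasse : S_TayHasse := by
  intro A _ R c i j
  rw [Polynomial.taylor_coeff, Polynomial.taylor_coeff]
  have h := congrArg (fun f => f R) (Polynomial.hasseDeriv_comp (R := A) i j)
  simp only [LinearMap.comp_apply, LinearMap.smul_apply] at h
  rw [h, Polynomial.eval_smul, nsmul_eq_mul]

end Pool.Agent.Work.MP_3c5c20_lc.PIT

end

section

/-!
# The hybrid argument for a general design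
-/

namespace Pool.Agent.Work.MP_3c5c20_lc.PIT

open MvPolynomial Pool.Agent.Work.MP_499dc6_lc.CD Pool.Agent.Work.MP_499dc6_lc.CDG

/-- The hitting property of the generator of any design `ι` with intersections at most `κ`. -/
def S_HitG : Prop :=
  ∀ (K : Type) [Field K] [CharZero K] (m n N κ s D e r E : ℕ) (z0 : Fin n) (T : Type)
    [DecidableEq T] (ι : Fin N → VV m n → T) (F : Fin s → MvPolynomial (Fin N) K)
    (d : Fin s → ℕ) (i0 : Fin s), n = m ^ 10 → (∀ i, Function.Injective (ι i)) →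
    (∀ i j, i ≠ j →
      (Finset.univ.filter fun v : VV m n => ι i v ∈ Finset.univ.image (ι j)).card ≤ κ) →
    1 ≤ κ → IsCirc e r F d → (∀ i, d i ≤ D) → F i0 ≠ 0 → (F i0).totalDegree ≤ E →
    (257 * (Real.log (s + 1) + ((e * κ : ℕ) : ℝ) + r + 1 + Real.log (E + 1))) ^
      (10 ^ (2 * D + 3)) < (m : ℝ) →
    aeval (fun i : Fin N => rename (ι i) (PW K m n z0)) (F i0) ≠ 0

end Pool.Agent.Work.MP_3c5c20_lc.PIT

end

section

/-!
# Item HitG: the hybrid argument for a general design
-/

namespace Pool.Agent.Work.MP_3c5c20_lc.PIT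

open MvPolynomial Pool.Agent.Work.MP_499dc6_lc.CD Pool.Agent.Work.MP_499dc6_lc.CDG

namespace NHitG

theorem natDegree_aeval_le {σ K A : Type} [Field K] [CommRing A] [Algebra K A]
    (g : σ → Polynomial A) (b : ℕ) (hg : ∀ i, (g i).natDegree ≤ b) (f : MvPolynomial σ K) :
    (aeval g f).natDegree ≤ b * f.totalDegree := by
  rw [aeval_def, eval₂_eq]
  refine Polynomial.natDegree_sum_le_of_forall_le _ _ (fun m hm => ?_)
  have h0 : algebraMap K (Polynomial A) (coeff m f) = Polynomial.C (algebraMap K A (coeff m f)) :=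
    rfl
  rw [h0]
  refine (Polynomial.natDegree_C_mul_le _ _).trans ?_
  refine (Polynomial.natDegree_prod_le _ _).trans ?_
  have h1 : ∀ i ∈ m.support, (g i ^ m i).natDegree ≤ b * m i := by
    intro i _
    refine Polynomial.natDegree_pow_le.trans ?_
    rw [mul_comm]
    exact Nat.mul_le_mul_right _ (hg i)
  refine (Finset.sum_le_sum h1).trans ?_
  rw [← Finset.mul_sum]
  exact Nat.mul_le_mul_left _ (le_totalDegree hm)

/-- Degree of a substitution into the hard polynomial. -/
theorem totalDegree_PW_le {K τ : Type} [Field K] (m n : ℕ) (z0 : Fin n)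
    (g : VV m n → MvPolynomial τ K) (δ : VV m n → ℕ) (hg : ∀ v, (g v).totalDegree ≤ δ v) :
    (aeval g (PW K m n z0)).totalDegree ≤ ∑ v, δ v := by
  classical
  unfold PW
  rw [map_sum]
  refine totalDegree_finsetSum_le fun s _ => ?_
  rw [map_prod]
  refine (totalDegree_finsetProd _ _).trans ?_
  have h1 : ∀ i : Fin m, (aeval g ((X (Sum.inr (i, s.1 i.castSucc, s.1 i.succ)) *
      ∏ t ∈ Finset.univ.filter (fun t : Fin (aa m) => tau m t = i),
        X (Sum.inl (t, s.1 i.castSucc, s.1 i.succ)) : MvPolynomial (VV m n) K))).totalDegree ≤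
      (∑ p : Fin n × Fin n, δ (Sum.inr (i, p))) +
        ∑ t : Fin (aa m), if tau m t = i then ∑ p : Fin n × Fin n, δ (Sum.inl (t, p)) else 0 := by
    intro i
    rw [map_mul, map_prod]
    refine (totalDegree_mul _ _).trans (add_le_add ?_ ?_)
    · rw [aeval_X]
      refine (hg _).trans ?_
      exact Finset.single_le_sum (f := fun p : Fin n × Fin n => δ (Sum.inr (i, p)))
        (fun _ _ => Nat.zero_le _) (Finset.mem_univ (s.1 i.castSucc, s.1 i.succ))
    · refine (totalDegree_finsetProd _ _).trans ?_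
      rw [Finset.sum_filter]
      refine Finset.sum_le_sum fun t _ => ?_
      split_ifs with h
      · rw [aeval_X]
        refine (hg _).trans ?_
        exact Finset.single_le_sum (f := fun p : Fin n × Fin n => δ (Sum.inl (t, p)))
          (fun _ _ => Nat.zero_le _) (Finset.mem_univ (s.1 i.castSucc, s.1 i.succ))
      · exact le_rfl
  refine (Finset.sum_le_sum fun i _ => h1 i).trans ?_
  rw [Finset.sum_add_distrib]
  have hswap : (∑ i : Fin m, ∑ t : Fin (aa m), if tau m t = i then
      ∑ p : Fin n × Fin n, δ (Sum.inl (t, p)) else 0) = ∑ t : Fin (aa m), ∑ i : Fin m,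
      if tau m t = i then ∑ p : Fin n × Fin n, δ (Sum.inl (t, p)) else 0 := Finset.sum_comm
  rw [hswap]
  have h2 : ∀ t : Fin (aa m), (∑ i : Fin m, if tau m t = i then
      ∑ p : Fin n × Fin n, δ (Sum.inl (t, p)) else 0) ≤
      ∑ p : Fin n × Fin n, δ (Sum.inl (t, p)) := by
    intro t
    by_cases ht : tau m t < m
    · rw [Finset.sum_eq_single (⟨tau m t, ht⟩ : Fin m)]
      · simp
      · intro b _ hb
        rw [if_neg]
        intro h
        exact hb (Fin.ext h.symm)
      · intro h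
        exact absurd (Finset.mem_univ _) h
    · rw [Finset.sum_eq_zero]
      · exact Nat.zero_le _
      · intro i _
        rw [if_neg]
        intro h
        exact ht (h ▸ i.2)
  refine (add_le_add le_rfl (Finset.sum_le_sum fun t _ => h2 t)).trans ?_
  rw [Fintype.sum_sum_type, Fintype.sum_prod_type (f := fun x => δ (Sum.inl x)),
    Fintype.sum_prod_type (f := fun x => δ (Sum.inr x)), add_comm]

end NHitG

theorem pr_HitG (hNo : S_NoRoot) (hSp : S_Special) (hCS : S_CircSubstG) : S_HitG := by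
  intro K _ _ m n N κ s D e r E z0 T _ ι F d i0 hn hinj hint hκ hF hd hF0 hdeg hnum hzero
  classical
  -- the hybrid polynomials
  let θ : ℕ → Fin N → MvPolynomial (T ⊕ Fin N) K := fun t i =>
    if (i : ℕ) < t then rename (fun v => Sum.inl (ι i v)) (PW K m n z0) else X (Sum.inr i)
  let f : ℕ → MvPolynomial (T ⊕ Fin N) K := fun t => aeval (θ t) (F i0)
  have hf0 : f 0 ≠ 0 := by
    have h1 : f 0 = rename Sum.inr (F i0) := by
      have h2 : aeval (fun i : Fin N => (X i : MvPolynomial (Fin N) K)) (F i0) = F i0 :=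
        aeval_X_left_apply _
      have h3 : rename (Sum.inr : Fin N → T ⊕ Fin N)
          (aeval (fun i : Fin N => (X i : MvPolynomial (Fin N) K)) (F i0)) =
          ((rename (Sum.inr : Fin N → T ⊕ Fin N) : MvPolynomial (Fin N) K →ₐ[K] _).comp
            (aeval (fun i : Fin N => (X i : MvPolynomial (Fin N) K)))) (F i0) := rfl
      conv_rhs => rw [← h2]
      rw [h3, comp_aeval]
      show aeval (θ 0) (F i0) = _
      congr 2
      funext i
      show (if (i : ℕ) < 0 then _ else _) = _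
      rw [if_neg (Nat.not_lt_zero _), rename_X]
    rw [h1]
    intro h
    exact hF0 (rename_injective (Sum.inr : Fin N → T ⊕ Fin N) Sum.inr_injective
      (by rw [h, map_zero]))
  have hfN : f N = 0 := by
    have h1 : f N = rename Sum.inl
        (aeval (fun i : Fin N => rename (ι i) (PW K m n z0)) (F i0)) := by
      show aeval (θ N) (F i0) = _
      have h2 : (rename (Sum.inl : T → T ⊕ Fin N) : MvPolynomial T K →ₐ[K] _)
          (aeval (fun i : Fin N => rename (ι i) (PW K m n z0)) (F i0)) =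
          ((rename (Sum.inl : T → T ⊕ Fin N) : MvPolynomial T K →ₐ[K] _).comp
            (aeval (fun i : Fin N => rename (ι i) (PW K m n z0)))) (F i0) := rfl
      rw [h2, comp_aeval]
      congr 2
      funext i
      show (if (i : ℕ) < N then _ else _) = _
      rw [if_pos i.2, rename_rename]
      rfl
    rw [h1, hzero, map_zero]
  have hex : ∃ t, f t = 0 := ⟨N, hfN⟩
  obtain ⟨t, htN, hft, hft1⟩ : ∃ t, t < N ∧ f t ≠ 0 ∧ f (t + 1) = 0 := by
    have h1 := Nat.find_spec hex
    have h2 : Nat.find hex ≤ N := Nat.find_min' hex hfN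
    have h3 : Nat.find hex ≠ 0 := by
      intro h
      rw [h] at h1
      exact hf0 h1
    obtain ⟨t, ht⟩ := Nat.exists_eq_succ_of_ne_zero h3
    refine ⟨t, by omega, ?_, ?_⟩
    · intro h
      have := Nat.find_min' hex h
      omega
    · rw [ht] at h1
      exact h1
  let tf : Fin N := ⟨t, htN⟩
  -- the specialisation
  let π : T ⊕ Fin N → Option (Option (VV m n)) := fun a =>
    match a with
    | Sum.inl b => if h : ∃ v, ι tf v = b then some (some h.choose) else none
    | Sum.inr i => if i = tf then some none else none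
  have hπl : ∀ v, π (Sum.inl (ι tf v)) = some (some v) := by
    intro v
    show (if h : ∃ v', ι tf v' = ι tf v then some (some h.choose) else none) = _
    have h : ∃ v', ι tf v' = ι tf v := ⟨v, rfl⟩
    rw [dif_pos h]
    rw [hinj tf h.choose_spec]
  have hπl' : ∀ b, (¬ ∃ v, ι tf v = b) → π (Sum.inl b) = none := by
    intro b h
    show (if h : ∃ v', ι tf v' = b then some (some h.choose) else none) = _
    rw [dif_neg h]
  have hπr : π (Sum.inr tf) = some none := by
    show (if tf = tf then some none else none) = _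
    rw [if_pos rfl]
  have hπr' : ∀ i, i ≠ tf → π (Sum.inr i) = none := by
    intro i hi
    show (if i = tf then some none else none) = _
    rw [if_neg hi]
  have hπinj : ∀ a a' b, π a = some b → π a' = some b → a = a' := by
    have key : ∀ a b, π a = some b → a = b.elim (Sum.inr tf) (fun v => Sum.inl (ι tf v)) := by
      intro a b hab
      rcases a with b' | i
      · by_cases h : ∃ v, ι tf v = b'
        · obtain ⟨v, rfl⟩ := h
          rw [hπl] at hab
          rw [← Option.some.inj hab]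
          rfl
        · rw [hπl' b' h] at hab
          exact absurd hab (by simp)
      · by_cases h : i = tf
        · subst h
          rw [hπr] at hab
          rw [← Option.some.inj hab]
          rfl
        · rw [hπr' i h] at hab
          exact absurd hab (by simp)
    intro a a' b h h'
    rw [key a b h, key a' b h']
  obtain ⟨c, hc⟩ := hSp (T ⊕ Fin N) (Option (VV m n)) K (f t) π hft hπinj
  let σ : T ⊕ Fin N → MvPolynomial (Option (VV m n)) K := fun a => (π a).elim (C (c a)) X
  have hσ : ∀ a, σ a = (π a).elim (C (c a)) X := fun _ => rfl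
  have hσl : ∀ v, σ (Sum.inl (ι tf v)) = X (some v) := by
    intro v
    have h1 := hσ (Sum.inl (ι tf v))
    rw [hπl] at h1
    exact h1
  have hσl' : ∀ b, (¬ ∃ v, ι tf v = b) → σ (Sum.inl b) = C (c (Sum.inl b)) := by
    intro b h
    have h1 := hσ (Sum.inl b)
    rw [hπl' b h] at h1
    exact h1
  have hσr : σ (Sum.inr tf) = X none := by
    have h1 := hσ (Sum.inr tf)
    rw [hπr] at h1
    exact h1
  have hσr' : ∀ i, i ≠ tf → σ (Sum.inr i) = C (c (Sum.inr i)) := by
    intro i hi
    have h1 := hσ (Sum.inr i)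
    rw [hπr' i hi] at h1
    exact h1
  let h : Fin N → MvPolynomial (Option (VV m n)) K := fun i => aeval σ (θ t i)
  have hR : aeval σ (f t) = aeval h (F i0) := by
    have h1 : aeval σ (f t) = ((aeval σ).comp (aeval (θ t))) (F i0) := rfl
    rw [h1, comp_aeval]
  -- the three kinds of `h i`
  have hlt : ∀ i : Fin N, (i : ℕ) < t → h i = aeval (fun v => σ (Sum.inl (ι i v))) (PW K m n z0) := by
    intro i hi
    show aeval σ (if (i : ℕ) < t then _ else _) = _
    rw [if_pos hi, aeval_rename]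
    rfl
  have hge : ∀ i : Fin N, ¬ (i : ℕ) < t → h i = σ (Sum.inr i) := by
    intro i hi
    show aeval σ (if (i : ℕ) < t then _ else _) = _
    rw [if_neg hi, aeval_X]
  have hdegh : ∀ i, (h i).totalDegree ≤ κ := by
    intro i
    by_cases hi : (i : ℕ) < t
    · rw [hlt i hi]
      have hne : i ≠ tf := fun h => by
        rw [h] at hi
        exact lt_irrefl _ hi
      refine (NHitG.totalDegree_PW_le m n z0 _
        (fun v => if ι i v ∈ Finset.univ.image (ι tf) then 1 else 0) ?_).trans ?_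
      · intro v
        by_cases hv : ι i v ∈ Finset.univ.image (ι tf)
        · rw [if_pos hv]
          obtain ⟨v', _, hv'⟩ := Finset.mem_image.1 hv
          rw [← hv', hσl]
          exact (totalDegree_X _).le
        · rw [if_neg hv, hσl' _ (fun ⟨v', hv'⟩ =>
            hv (Finset.mem_image.2 ⟨v', Finset.mem_univ _, hv'⟩))]
          exact (totalDegree_C _).le
      · have h1 := hint i tf hne
        rw [Finset.card_filter] at h1
        exact h1
    · rw [hge i hi]
      by_cases hne : i = tf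
      · rw [hne, hσr]
        exact (totalDegree_X _).le.trans hκ
      · rw [hσr' i hne]
        exact (totalDegree_C _).le.trans (Nat.zero_le _)
  have hcirc := hCS (Fin N) (Option (VV m n)) K s e κ r F d h hF hdegh
  -- the degree in the first variable
  have hnat : (optionEquivLeft K (VV m n) (aeval h (F i0))).natDegree ≤ E := by
    have h1 : optionEquivLeft K (VV m n) (aeval h (F i0)) =
        aeval (fun i => optionEquivLeft K (VV m n) (h i)) (F i0) := by
      have h2 : optionEquivLeft K (VV m n) (aeval h (F i0)) =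
          (((optionEquivLeft K (VV m n)) : MvPolynomial (Option (VV m n)) K →ₐ[K] _).comp
            (aeval h)) (F i0) := rfl
      rw [h2, comp_aeval]
      rfl
    rw [h1]
    have h3 : ∀ i, (optionEquivLeft K (VV m n) (h i)).natDegree ≤ 1 := by
      intro i
      by_cases hi : (i : ℕ) < t
      · rw [hlt i hi]
        have h4 : optionEquivLeft K (VV m n)
            (aeval (fun v => σ (Sum.inl (ι i v))) (PW K m n z0)) =
            aeval (fun v => optionEquivLeft K (VV m n) (σ (Sum.inl (ι i v)))) (PW K m n z0) := by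
          have h5 : optionEquivLeft K (VV m n)
              (aeval (fun v => σ (Sum.inl (ι i v))) (PW K m n z0)) =
              (((optionEquivLeft K (VV m n)) : MvPolynomial (Option (VV m n)) K →ₐ[K] _).comp
                (aeval (fun v => σ (Sum.inl (ι i v))))) (PW K m n z0) := rfl
          rw [h5, comp_aeval]
          rfl
        rw [h4]
        have h6 := NHitG.natDegree_aeval_le
          (fun v => optionEquivLeft K (VV m n) (σ (Sum.inl (ι i v)))) 0 ?_ (PW K m n z0)
        · rw [zero_mul] at h6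
          exact h6.trans (Nat.zero_le _)
        · intro v
          by_cases hv : ∃ v', ι tf v' = ι i v
          · obtain ⟨v', hv'⟩ := hv
            rw [← hv', hσl, optionEquivLeft_X_some, Polynomial.natDegree_C]
          · rw [hσl' _ hv, optionEquivLeft_C, Polynomial.natDegree_C]
      · rw [hge i hi]
        by_cases hne : i = tf
        · rw [hne, hσr, optionEquivLeft_X_none]
          exact Polynomial.natDegree_X_le
        · rw [hσr' i hne, optionEquivLeft_C, Polynomial.natDegree_C]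
          exact Nat.zero_le _
    have h7 := NHitG.natDegree_aeval_le (fun i => optionEquivLeft K (VV m n) (h i)) 1 h3 (F i0)
    rw [one_mul] at h7
    exact h7.trans hdeg
  -- the root
  let ev : MvPolynomial (Option (VV m n)) K →ₐ[K] MvPolynomial (VV m n) K :=
    aeval (fun o : Option (VV m n) => o.elim (PW K m n z0) X)
  have hevX : ∀ o, ev (X o) = o.elim (PW K m n z0) X := fun o => aeval_X _ o
  have hev : ∀ R, (optionEquivLeft K (VV m n) R).eval (PW K m n z0) = ev R := by
    intro R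
    induction R using MvPolynomial.induction_on with
    | C a =>
      rw [optionEquivLeft_C, Polynomial.eval_C]
      exact (aeval_C _ a).symm
    | add p q hp hq => rw [map_add, Polynomial.eval_add, hp, hq, map_add]
    | mul_X p o hp =>
      rw [map_mul, Polynomial.eval_mul, hp, map_mul]
      congr 1
      rcases o with _ | v
      · rw [optionEquivLeft_X_none, Polynomial.eval_X, hevX]
        rfl
      · rw [optionEquivLeft_X_some, Polynomial.eval_C, hevX]
        rfl
  have hroot : (optionEquivLeft K (VV m n) (aeval h (F i0))).eval (PW K m n z0) = 0 := by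
    rw [hev]
    let Ψ : MvPolynomial (T ⊕ Fin N) K →ₐ[K] MvPolynomial (VV m n) K := ev.comp (aeval σ)
    have h1 : ev (aeval h (F i0)) = aeval (fun i => Ψ (θ t i)) (F i0) := by
      have h2 : ev (aeval h (F i0)) = (ev.comp (aeval h)) (F i0) := rfl
      rw [h2, comp_aeval]
      rfl
    have h3 : Ψ (f (t + 1)) = aeval (fun i => Ψ (θ (t + 1) i)) (F i0) := by
      have h4 : Ψ (f (t + 1)) = (Ψ.comp (aeval (θ (t + 1)))) (F i0) := rfl
      rw [h4, comp_aeval]
    have h5 : (fun i => Ψ (θ t i)) = fun i => Ψ (θ (t + 1) i) := by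
      funext i
      by_cases hi : (i : ℕ) < t
      · have h6 : θ t i = θ (t + 1) i := by
          show (if (i : ℕ) < t then _ else _) = (if (i : ℕ) < t + 1 then _ else _)
          rw [if_pos hi, if_pos (by omega)]
        rw [h6]
      · by_cases hne : i = tf
        · have h7 : θ t i = X (Sum.inr i) := by
            show (if (i : ℕ) < t then _ else _) = _
            rw [if_neg hi]
          have h8 : θ (t + 1) i = rename (fun v => Sum.inl (ι i v)) (PW K m n z0) := by
            show (if (i : ℕ) < t + 1 then _ else _) = _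
            rw [if_pos]
            rw [hne]
            exact Nat.lt_succ_self t
          rw [h7, h8, hne]
          show ev (aeval σ (X (Sum.inr tf))) = ev (aeval σ (rename _ _))
          rw [aeval_X, hσr, aeval_rename]
          have h9 : (σ ∘ fun v => (Sum.inl (ι tf v) : T ⊕ Fin N)) = fun v => X (some v) := by
            funext v
            exact hσl v
          rw [h9]
          have h10 : ev (X none) = PW K m n z0 := hevX none
          rw [h10]
          have h11 : ev (aeval (fun v => (X (some v) : MvPolynomial (Option (VV m n)) K))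
              (PW K m n z0)) = (ev.comp (aeval (fun v => (X (some v) :
                MvPolynomial (Option (VV m n)) K)))) (PW K m n z0) := rfl
          rw [h11, comp_aeval]
          have h12 : (fun v => ev (X (some v))) = (X : VV m n → MvPolynomial (VV m n) K) := by
            funext v
            exact hevX (some v)
          rw [h12, aeval_X_left]
          rfl
        · have h6 : θ t i = θ (t + 1) i := by
            show (if (i : ℕ) < t then _ else _) = (if (i : ℕ) < t + 1 then _ else _)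
            rw [if_neg hi, if_neg]
            intro h
            exact hne (Fin.ext (by show (i : ℕ) = t; omega))
          rw [h6]
    rw [h1, h5, ← h3, hft1, map_zero]
  have hfin := hNo K m n z0 s D (e * κ) r E (fun i => aeval h (F i)) d i0 hn hcirc hd
    (by
      show aeval h (F i0) ≠ 0
      rw [← hR]
      exact hc) hnat hroot
  exact absurd hfin (not_le.2 hnum)

end Pool.Agent.Work.MP_3c5c20_lc.PIT

end
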