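import Pool.Agent.Work.MP_3c5c20_lc.QP.TMDefs
import Pool.Agent.Work.MP_3c5c20_lc.Bd.B01
import Pool.Agent.Work.MP_499dc6_lc.Bd.B05
import Pool.Agent.Work.MP_499dc6_lc.Bd.B02
import Pool.Agent.Work.MP_499dc6_lc.Bd.B03

/-! Bundle of small proof modules (one section per former module). -/

section

/-!
# Quasi-polynomial identity testing: the machine, statements of the items
-/

set_option autoImplicit false

namespace Pool.Agent.Work.MP_3c5c20_lc.QP

open MvPolynomial Pool.Agent.PT Pool.Agent.PIT Pool.Agent.Work.MP_499dc6_lc.CD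
  Pool.Agent.Work.MP_499dc6_lc.CDG Pool.Agent.Work.MP_3c5c20_lc.PIT

/-! ### The generator -/

/-- Digits exist. -/
def S_DigEx : Prop :=
  ∀ (B n : ℕ) (w : ℕ → ℕ), (∀ k, k < n → w k < B) → ∃ c, c < B ^ n ∧ ∀ k, k < n → dgt B k c = w k

/-- Digits and values of polynomials. -/
def S_Polm : Prop :=
  (∀ b k c : ℕ, dgt b k c = c / b ^ k % b) ∧
  (∀ (p : ℕ) [NeZero p] (ka i x : ℕ), polm p ka i x = (dig p ka i x : ℕ))

/-- The dynamic programming for closed walks. -/
def wdp {R : Type} [CommSemiring R] {n : ℕ} (z0 : Fin n) (M : ℕ → Fin n → Fin n → R) :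
    ℕ → Fin n → R
  | 0, y => if y = z0 then 1 else 0
  | l + 1, y => ∑ x, wdp z0 M l x * M l x y

/-- The dynamic programming computes the sum over the closed walks. -/
def S_WalkDP : Prop :=
  ∀ (R : Type) [CommSemiring R] (m n : ℕ) (z0 : Fin n) (M : ℕ → Fin n → Fin n → R),
    ∑ s : Walk m n z0, ∏ i : Fin m, M i (s.1 i.castSucc) (s.1 i.succ) = wdp z0 M m z0

/-- The positions. -/
def S_TauN : Prop :=
  (∀ (m : ℕ) (t : Fin (aa m)), tau m t = tauN t) ∧ (∀ m : ℕ, aa m ≤ 2 * m)

/-- The list program for the dynamic programming. -/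
def S_Gval : Prop :=
  ∀ (m n p ka B c i q : ℕ) [NeZero p] (hn : 0 < n), 0 < q → (aa m + m) * n * n ≤ p →
    gval q m (aa m) n p ka B c i = eval (seed m n p B c) (Gen ℕ m n p ka ⟨0, hn⟩ i) % q

/-- Size of the values. -/
def S_GNle : Prop :=
  ∀ (m n p ka i B : ℕ) [NeZero p] (z0 : Fin n) (w : VV m n × Fin p → ℕ), 1 ≤ B →
    (∀ v, w v ≤ B) → eval w (Gen ℕ m n p ka z0 i) ≤ n ^ (m + 1) * B ^ (m + aa m)

/-! ### Expressions -/

/-- Expressions as circuits. -/
def S_ExCirc : Prop :=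
  ∀ E : Ex, ∃ (s : ℕ) (F : Fin s → MvPolynomial Name ℚ) (d : Fin s → ℕ) (i : Fin s),
    s ≤ E.size ∧ IsCirc 1 0 F d ∧ (∀ j, d j ≤ E.dep false) ∧ F i = E.poly

/-! ### Programs -/

/-- The program for the generator runs in polynomial time. -/
def S_GvalPT : Prop :=
  ∀ (α : Type) [Enc α] (q m a n p ka B c i : α → ℕ), PTF q → PTF m → PTF a → PTF n → PTF p →
    PTF ka → PTF B → PTF c → PTF i →
    PTF (fun x => gval (q x + 1) (m x) (a x) (n x) (p x) (ka x) (B x) (c x) (i x))

/-- The algorithm runs in time polynomial in `N` and the number of tokens. -/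
def S_AlgPT : Prop := PTF (fun x : ℕ × List Tok => galg x.1 x.2)

/-! ### Correctness -/

/-- Soundness. -/
def S_Sound : Prop := ∀ (N : ℕ) (E : Ex), E.ok → galg N E.toks = true → E.poly ≠ 0

/-- The choice of the parameters. -/
def S_Num : Prop :=
  ∃ k0 : ℕ, ∀ D n : ℕ, ∃ m p ka B : ℕ, 0 < m ∧ 1 ≤ ka ∧ p.Prime ∧ n ≤ p ^ ka ∧
    (257 * (Real.log (n + 1) + ((1 * ka : ℕ) : ℝ) + (0 : ℕ) + 1 + Real.log (n + 1))) ^
      (10 ^ (2 * D + 3)) < (m : ℝ) ∧
    (aa m + m) * m ^ 10 * m ^ 10 ≤ p ∧ n * (aa m + m) < B ∧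
    m < 2 ^ lg n ^ (k0 * 100 ^ D) ∧ aa m < 2 ^ lg n ^ (k0 * 100 ^ D) ∧
    m ^ 10 < 2 ^ lg n ^ (k0 * 100 ^ D) ∧ p < 2 ^ lg n ^ (k0 * 100 ^ D) ∧
    ka < 2 ^ lg n ^ (k0 * 100 ^ D) ∧ B < 2 ^ lg n ^ (k0 * 100 ^ D) ∧
    B ^ (p * p) ≤ 2 ^ lg n ^ (k0 * 100 ^ D) ∧
    ((m ^ 10) ^ (m + 1) * B ^ (m + aa m) + n + 5) ^ 4 < 2 ^ lg n ^ (k0 * 100 ^ D)

/-- Completeness. -/
def S_Compl : Prop :=
  ∃ k0 : ℕ, ∀ (D : ℕ) (E : Ex), E.ok → E.dep false ≤ D → E.poly ≠ 0 →
    galg (2 ^ lg E.size ^ (k0 * 100 ^ D)) E.toks = true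

/-! ### The machine -/

/-- The machine. -/
def S_Machine : Prop :=
  ∀ solve : ℕ → List Tok → Bool,
    GTF (fun x : ℕ × List Tok => 2 ^ lg (tsize x.2) ^ x.1) (fun x => solve x.1 x.2) →
    ∃ k0 : ℕ, ∀ k : ℕ, 1 ≤ k → ∃ (f : List Sy → Bool)
      (T : Turing.TM2ComputableInTime scode (fun b : Bool => [b]) f),
      (∀ s, f s = true ↔ ∃ E, Der 0 s E ∧ solve k E.toks = true) ∧
      ∀ n, T.time n ≤ 2 ^ (Nat.log 2 n + 2) ^ (k0 * k)

/-- **Quasi-polynomial identity testing for expressions of bounded product depth.** -/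
def S_Final : Prop :=
  ∃ k0 : ℕ, ∀ D : ℕ, ∃ (f : List Sy → Bool)
    (T : Turing.TM2ComputableInTime scode (fun b : Bool => [b]) f),
    (∀ s, f s = true → s ∈ Nonzero) ∧
    (∀ s E, Der 0 s E → E.dep false ≤ D → (f s = true ↔ s ∈ Nonzero)) ∧
    ∀ n, T.time n ≤ 2 ^ (Nat.log 2 n + 2) ^ (k0 * 100 ^ D)

end Pool.Agent.Work.MP_3c5c20_lc.QP

end

section

/-!
# Completeness of the algorithm
-/

set_option autoImplicit false

namespace Pool.Agent.Work.MP_3c5c20_lc.QP

open MvPolynomial Pool.Agent.PT Pool.Agent.PIT Pool.Agent.Work.MP_499dc6_lc.CD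
  Pool.Agent.Work.MP_499dc6_lc.CDG Pool.Agent.Work.MP_3c5c20_lc.PIT

/-! ### Names as numbers -/

/-- The variables as numbers. -/
noncomputable def nsub (l : List Name) (v : Name) : MvPolynomial (Fin l.length) ℚ :=
  if h : v ∈ l then X ⟨l.idxOf v, List.idxOf_lt_length_of_mem h⟩ else 0

theorem nsub_deg (l : List Name) (v : Name) : (nsub l v).totalDegree ≤ 1 := by
  unfold nsub
  split_ifs
  · rw [totalDegree_X]
  · rw [totalDegree_zero]
    omega

theorem rename_nsub {l : List Name} {E : Ex} (h : ∀ v ∈ E.names, v ∈ l) :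
    rename (fun j : Fin l.length => l.get j) (aeval (nsub l) E.poly) = E.poly := by
  induction E with
  | var v =>
    have hv := h v (by simp [Ex.names])
    simp only [Ex.poly, aeval_X, nsub, dif_pos hv, rename_X]
    congr 1
    exact List.getElem_idxOf _
  | const neg num den => simp [Ex.poly]
  | add a b iha ihb =>
    simp only [Ex.poly, map_add]
    rw [iha (fun v hv => h v (List.mem_append_left _ hv)),
      ihb (fun v hv => h v (List.mem_append_right _ hv))]
  | sub a b iha ihb =>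
    simp only [Ex.poly, map_sub]
    rw [iha (fun v hv => h v (List.mem_append_left _ hv)),
      ihb (fun v hv => h v (List.mem_append_right _ hv))]
  | mul a b iha ihb =>
    simp only [Ex.poly, map_mul]
    rw [iha (fun v hv => h v (List.mem_append_left _ hv)),
      ihb (fun v hv => h v (List.mem_append_right _ hv))]

/-- Values of variables given by numbers. -/
def nval (l : List Name) (G : ℕ → ℕ) (v : Name) : ℕ := if v ∈ l then G (l.idxOf v) else 0

theorem eval_nsub (l : List Name) (G : ℕ → ℕ) (P : MvPolynomial Name ℚ) :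
    eval (fun i : Fin l.length => (G i : ℚ)) (aeval (nsub l) P) =
      eval (fun v => (nval l G v : ℚ)) P := by
  have h : (eval (fun i : Fin l.length => (G i : ℚ))).comp
      ((aeval (nsub l) : MvPolynomial Name ℚ →ₐ[ℚ] MvPolynomial (Fin l.length) ℚ) :
        MvPolynomial Name ℚ →+* MvPolynomial (Fin l.length) ℚ) =
      eval (fun v => (nval l G v : ℚ)) := by
    apply MvPolynomial.ringHom_ext
    · intro r
      simp
    · intro v
      simp only [RingHom.comp_apply, RingHom.coe_coe, aeval_X, eval_X, nsub, nval]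
      split_ifs with h
      · rw [eval_X]
      · simp
  exact congrArg (fun f : MvPolynomial Name ℚ →+* ℚ => f P) h

theorem names_length (E : Ex) : E.names.length ≤ E.size := by
  induction E with
  | var v => simp [Ex.names, Ex.size]
  | const neg num den => simp [Ex.names]
  | add a b iha ihb =>
    simp only [Ex.names, Ex.size, List.length_append]
    omega
  | sub a b iha ihb =>
    simp only [Ex.names, Ex.size, List.length_append]
    omega
  | mul a b iha ihb =>
    simp only [Ex.names, Ex.size, List.length_append]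
    omega

theorem dedupN_length (l : List Name) : (dedupN l).length ≤ l.length := by
  classical
  obtain ⟨h1, h2⟩ := dedupN_spec l
  have h3 : (dedupN l).toFinset = l.toFinset := by
    ext v
    simp [h2 v]
  have h4 := List.toFinset_card_of_nodup h1
  rw [← h4, h3]
  exact List.toFinset_card_le l

/-- Lookup in the environment. -/
theorem look_genv {q m a n p ka B c : ℕ} {l : List Name} (hl : l.Nodup) {v : Name} (hv : v ∈ l) :
    look (genv q m a n p ka B c l) v = gval q m a n p ka B c (l.idxOf v) := by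
  have key : ∀ (r : List ℕ) (i : ℕ), i ∈ r → (∀ j ∈ r, j < l.length) → l.getD i [] = v →
      look (r.map fun i => (l.getD i [], gval q m a n p ka B c i)) v = gval q m a n p ka B c i := by
    intro r
    induction r with
    | nil => intro i hi; exact absurd hi List.not_mem_nil
    | cons j r ih =>
      intro i hi hr hiv
      rw [List.map_cons, look_cons]
      by_cases hj : l.getD j [] = v
      · rw [hj, Function.update_self]
        have hjl := hr j List.mem_cons_self
        have hil := hr i hi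
        rw [List.getD_eq_getElem _ _ hjl] at hj
        rw [List.getD_eq_getElem _ _ hil] at hiv
        rw [(List.Nodup.getElem_inj_iff hl).1 (hj.trans hiv.symm)]
      · rw [Function.update_of_ne (fun h => hj h.symm)]
        rcases List.mem_cons.1 hi with rfl | hi
        · exact absurd hiv hj
        · exact ih i hi (fun j hj => hr j (List.mem_cons_of_mem _ hj)) hiv
  have h1 := List.idxOf_lt_length_of_mem hv
  refine key (List.range l.length) (l.idxOf v) (List.mem_range.2 h1)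
    (fun j hj => List.mem_range.1 hj) ?_
  rw [List.getD_eq_getElem _ _ h1]
  exact List.getElem_idxOf _

end Pool.Agent.Work.MP_3c5c20_lc.QP

end

section

/-!
# Completeness of the algorithm: conclusion
-/

set_option autoImplicit false

namespace Pool.Agent.Work.MP_3c5c20_lc.QP

open MvPolynomial Pool.Agent.PT Pool.Agent.PIT Pool.Agent.Work.MP_499dc6_lc.CD
  Pool.Agent.Work.MP_499dc6_lc.CDG Pool.Agent.Work.MP_3c5c20_lc.PIT

/-- A seed as digits. -/
theorem exists_seed (hDE : S_DigEx) (hPos : S_Pos) {m n p B : ℕ} [NeZero p]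
    (hp : (aa m + m) * n * n ≤ p) (hB : 0 < B) (y : VV m n × Fin p → ℕ) (hy : ∀ v, y v < B) :
    ∃ c, c < B ^ (p * p) ∧ seed m n p B c = y := by
  classical
  obtain ⟨hinj, hlt⟩ := hPos m n
  have hpos : ∀ v : VV m n, pos m n v < p := fun v => (hlt v).trans_le hp
  obtain ⟨c, hc, hd⟩ := hDE B (p * p) (fun k =>
    if h : ∃ v : VV m n × Fin p, pos m n v.1 * p + v.2 = k then y h.choose else 0) (fun k _ => by
      split_ifs with h
      · exact hy _
      · exact hB)
  refine ⟨c, hc, ?_⟩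
  funext v
  have h1 : pos m n v.1 * p + v.2 < p * p := by
    have h2 := hpos v.1
    have h3 := v.2.isLt
    calc pos m n v.1 * p + v.2 < pos m n v.1 * p + p := by omega
      _ = (pos m n v.1 + 1) * p := by ring
      _ ≤ p * p := Nat.mul_le_mul_right _ h2
  unfold seed
  rw [hd _ h1]
  have h : ∃ v' : VV m n × Fin p, pos m n v'.1 * p + v'.2 = pos m n v.1 * p + v.2 := ⟨v, rfl⟩
  rw [dif_pos h]
  congr 1
  have h4 := h.choose_spec
  have hp0 : 0 < p := Nat.pos_of_ne_zero (NeZero.ne p)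
  have key : ∀ a b x z : ℕ, x < p → z < p → a * p + x = b * p + z → a = b ∧ x = z := by
    intro a b x z hx hz he
    have e1 : (a * p + x) % p = x := by
      rw [Nat.add_comm, Nat.add_mul_mod_self_right, Nat.mod_eq_of_lt hx]
    have e2 : (b * p + z) % p = z := by
      rw [Nat.add_comm, Nat.add_mul_mod_self_right, Nat.mod_eq_of_lt hz]
    have e3 : x = z := by rw [← e1, ← e2, he]
    subst e3
    have e4 : a * p = b * p := by omega
    exact ⟨Nat.eq_of_mul_eq_mul_right hp0 e4, rfl⟩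
  obtain ⟨h5, h6⟩ := key _ _ _ _ h.choose.2.isLt v.2.isLt h4
  exact Prod.ext (hinj h5) (Fin.ext h6)

/-- The design has small intersections. -/
theorem design_card (hDig : S_Dig) {m n p ka i j : ℕ} [NeZero p]
    [DecidableEq (VV m n × Fin p)] (hp : p.Prime)
    (hpW : (aa m + m) * n * n ≤ p) (hi : i < p ^ ka) (hj : j < p ^ ka) (hij : i ≠ j) :
    (Finset.univ.filter fun v : VV m n => ((v, dig p ka i (pos m n v)) : VV m n × Fin p) ∈
      Finset.univ.image (fun v' : VV m n => ((v', dig p ka j (pos m n v')) :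
        VV m n × Fin p))).card ≤ ka := by
  refine (Finset.card_le_card fun v hv => ?_).trans (hDig m n p ka i j hp hpW hi hj hij)
  rw [Finset.mem_filter] at hv ⊢
  refine ⟨hv.1, ?_⟩
  obtain ⟨v', _, hv'⟩ := Finset.mem_image.1 hv.2
  have h2 := (Prod.ext_iff.1 hv').1
  have h3 := (Prod.ext_iff.1 hv').2
  dsimp only at h2 h3
  rw [h2] at h3
  exact h3.symm

theorem gen_eq (R : Type) [CommSemiring R] (m n p ka : ℕ) [NeZero p] (z0 : Fin n) (i : ℕ) :
    Gen R m n p ka z0 i = rename (fun v : VV m n => ((v, dig p ka i (pos m n v)) : VV m n × Fin p))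
      (PW R m n z0) := by
  unfold Gen
  have h : (aeval (fun v : VV m n => (X (v, dig p ka i (pos m n v)) :
      MvPolynomial (VV m n × Fin p) R)) : MvPolynomial (VV m n) R →ₐ[R] _) =
      rename (fun v : VV m n => ((v, dig p ka i (pos m n v)) : VV m n × Fin p)) := by
    apply MvPolynomial.algHom_ext
    intro v
    rw [aeval_X, rename_X]
  rw [h]

theorem hnum_aux {s n ka D m : ℕ} (hs : s ≤ n)
    (hbig : (257 * (Real.log (n + 1) + ((1 * ka : ℕ) : ℝ) + (0 : ℕ) + 1 +
      Real.log (n + 1))) ^ (10 ^ (2 * D + 3)) < (m : ℝ)) :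
    (257 * (Real.log (s + 1) + ((1 * ka : ℕ) : ℝ) + (0 : ℕ) + 1 +
      Real.log (n + 1))) ^ (10 ^ (2 * D + 3)) < (m : ℝ) := by
  refine lt_of_le_of_lt ?_ hbig
  have h0 : (s : ℝ) ≤ n := by exact_mod_cast hs
  have h00 : (0 : ℝ) ≤ s := Nat.cast_nonneg s
  have h1 : Real.log (s + 1) ≤ Real.log (n + 1) :=
    Real.log_le_log (by linarith) (by linarith)
  have h2 : 0 ≤ Real.log ((s : ℝ) + 1) := Real.log_nonneg (by linarith)
  have h3 : 0 ≤ Real.log ((n : ℝ) + 1) := Real.log_nonneg (by linarith)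
  refine pow_le_pow_left₀ (by positivity) ?_ _
  linarith

/-- The nonzero polynomial of an expression has a nonzero value at a point of the generator. -/
theorem hit_point (hHit : S_HitG) (hSub : S_CircSubstG) (hDig : S_Dig) (hGrid : S_Grid)
    (hEx : S_ExCirc) {D : ℕ} {E : Ex} (hdep : E.dep false ≤ D) (hne : E.poly ≠ 0)
    {l : List Name} (hl : ∀ v ∈ E.names, v ∈ l) (hlen : l.length ≤ E.size)
    {m n p ka : ℕ} [NeZero p] (z0 : Fin n) (hn : n = m ^ 10) (hka : 1 ≤ ka) (hp : p.Prime)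
    (hnp : E.size ≤ p ^ ka)
    (hbig : (257 * (Real.log (E.size + 1) + ((1 * ka : ℕ) : ℝ) + (0 : ℕ) + 1 +
      Real.log (E.size + 1))) ^ (10 ^ (2 * D + 3)) < (m : ℝ))
    (hpW : (aa m + m) * n * n ≤ p) :
    ∃ y : VV m n × Fin p → ℕ, (∀ v, y v ≤ E.size * (aa m + m)) ∧
      eval (fun v => (nval l (fun i => eval y (Gen ℕ m n p ka z0 i)) v : ℚ)) E.poly ≠ 0 := by
  classical
  obtain ⟨s, F, d, i0, hs, hF, hd, hFi⟩ := hEx E
  have hF' : IsCirc 1 0 (fun i => aeval (nsub l) (F i)) d :=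
    hSub Name (Fin l.length) ℚ s 1 1 0 F d (nsub l) hF (nsub_deg l)
  have hf0 : aeval (nsub l) (F i0) ≠ 0 := by
    intro h0
    apply hne
    rw [← rename_nsub (l := l) (E := E) hl, ← hFi, h0, map_zero]
  have hfdeg : (aeval (nsub l) (F i0)).totalDegree ≤ E.size := by
    rw [hFi]
    have h1 := NSubstG.totalDegree_aeval E.poly (nsub l) 1 (nsub_deg l)
    rw [mul_one] at h1
    exact h1.trans E.totalDegree_poly_le
  have hnum := hnum_aux hs hbig
  have hhit := hHit ℚ m n l.length ka s D 1 0 E.size z0 (VV m n × Fin p)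
    (fun i v => (v, dig p ka i (pos m n v))) (fun i => aeval (nsub l) (F i)) d i0 hn
    (fun i v v' h => (Prod.ext_iff.1 h).1) (fun i j hij =>
      design_card hDig hp hpW (i.isLt.trans_le (hlen.trans hnp))
        (j.isLt.trans_le (hlen.trans hnp)) (fun h => hij (Fin.ext h)))
    hka hF' (fun i => (hd i).trans hdep) hf0 hfdeg hnum
  have hhit' : aeval (fun i : Fin l.length => Gen ℚ m n p ka z0 i) (aeval (nsub l) (F i0)) ≠ 0 := by
    have h1 : (fun i : Fin l.length => Gen ℚ m n p ka z0 i) = fun i : Fin l.length =>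
        rename (fun v : VV m n => ((v, dig p ka i (pos m n v)) : VV m n × Fin p))
          (PW ℚ m n z0) := by
      funext i
      exact gen_eq ℚ m n p ka z0 i
    rw [h1]
    exact hhit
  obtain ⟨y, hy1, hy2⟩ := hGrid ℚ m n p ka l.length E.size z0
    (aeval (nsub l) (F i0)) hfdeg hhit'
  refine ⟨y, hy1, ?_⟩
  rw [← eval_nsub l (fun i => eval y (Gen ℕ m n p ka z0 i)) E.poly, ← hFi]
  exact hy2

/-- A good modulus. -/
theorem good_mod {E : Ex} (hok : E.ok) (g : Name → ℕ) {M : ℕ} (hM : E.size ≤ M)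
    (hg : ∀ v, g v ≤ M) (hne : eval (fun v => (g v : ℚ)) E.poly ≠ 0) :
    ∃ q : ℕ, 0 < q ∧ q < (M + 5) ^ 4 ∧ (E.nd (fun v => (g v : ZMod q))).1 ≠ 0 := by
  have hnd : (E.nd (fun v => (g v : ℤ))).1 ≠ 0 := by
    intro h0
    have h1 := Ex.eval_poly_eq hok (fun v => (g v : ℤ))
    rw [h0] at h1
    have hd : (E.den : ℚ) ≠ 0 := by exact_mod_cast Ex.den_ne_zero hok
    have h2 : eval (fun v => (g v : ℚ)) E.poly * (E.den : ℚ) = 0 := by simpa using h1
    rcases mul_eq_zero.1 h2 with h3 | h3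
    · exact hne h3
    · exact hd h3
  have hndle : (E.nd (fun v => (g v : ℤ))).1.natAbs ≤ (M + 2) ^ M := by
    have h1 := (E.abs_nd_le (m := M) (fun v => (g v : ℤ)) (fun v => by
      rw [abs_of_nonneg (by positivity)]
      exact_mod_cast hg v)).1
    have h2 : (M + 2) ^ E.size ≤ (M + 2) ^ M := Nat.pow_le_pow_right (by omega) hM
    refine le_trans ?_ h2
    zify
    exact h1
  obtain ⟨q, hq, -, hq2, hq3⟩ := exists_good_prime (m := M) (Int.natAbs_ne_zero.2 hnd) hndle
  refine ⟨q, hq.pos, hq2, fun h0 => hq3 ?_⟩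
  have h1 := E.nd_map (Int.castRingHom (ZMod q)) (fun v => (g v : ℤ))
  have h2 : (E.nd (fun v => (g v : ZMod q))) =
      E.nd (fun v => (Int.castRingHom (ZMod q)) ((g v : ℕ) : ℤ)) := by
    congr 1
    funext v; simp
  rw [h2, h1] at h0
  have h3 : (((E.nd (fun v => (g v : ℤ))).1 : ℤ) : ZMod q) = 0 := by simpa using h0
  rw [ZMod.intCast_zmod_eq_zero_iff_dvd] at h3
  exact Int.natCast_dvd.1 h3

/-- Digits for a list of parameters. -/
theorem galg_of_gtest (hDE : S_DigEx) {N q m a n p ka B c : ℕ} {toks : List Tok}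
    (h : gtest (q + 1) m a n p ka B c toks = true) (h0 : q < N) (h1 : m < N) (h2 : a < N)
    (h3 : n < N) (h4 : p < N) (h5 : ka < N) (h6 : B < N) (h7 : c < N) :
    galg N toks = true := by
  obtain ⟨u, hu, hdig⟩ := hDE N 8 (fun k => [q, m, a, n, p, ka, B, c].getD k 0)
    (fun k hk => by
      have hk' : k = 0 ∨ k = 1 ∨ k = 2 ∨ k = 3 ∨ k = 4 ∨ k = 5 ∨ k = 6 ∨ k = 7 := by omega
      rcases hk' with rfl | rfl | rfl | rfl | rfl | rfl | rfl | rfl
      · exact h0
      · exact h1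
      · exact h2
      · exact h3
      · exact h4
      · exact h5
      · exact h6
      · exact h7)
  have e0 : dgt N 0 u = q := hdig 0 (by norm_num)
  have e1 : dgt N 1 u = m := hdig 1 (by norm_num)
  have e2 : dgt N 2 u = a := hdig 2 (by norm_num)
  have e3 : dgt N 3 u = n := hdig 3 (by norm_num)
  have e4 : dgt N 4 u = p := hdig 4 (by norm_num)
  have e5 : dgt N 5 u = ka := hdig 5 (by norm_num)
  have e6 : dgt N 6 u = B := hdig 6 (by norm_num)
  have e7 : dgt N 7 u = c := hdig 7 (by norm_num)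
  unfold galg
  rw [List.any_eq_true]
  refine ⟨u, List.mem_range.2 hu, ?_⟩
  rw [e0, e1, e2, e3, e4, e5, e6, e7]
  exact h

theorem compl_aux (hHit : S_HitG) (hSub : S_CircSubstG) (hDig : S_Dig) (hPos : S_Pos)
    (hGrid : S_Grid) (hDE : S_DigEx) (hGval : S_Gval) (hGN : S_GNle) (hEx : S_ExCirc)
    {D N : ℕ} {E : Ex} (hok : E.ok) (hdep : E.dep false ≤ D) (hne : E.poly ≠ 0)
    {m n p ka B : ℕ} (hn0 : 0 < n) (hn : n = m ^ 10) (hka : 1 ≤ ka) (hp : p.Prime)
    (hnp : E.size ≤ p ^ ka)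
    (hbig : (257 * (Real.log (E.size + 1) + ((1 * ka : ℕ) : ℝ) + (0 : ℕ) + 1 +
      Real.log (E.size + 1))) ^ (10 ^ (2 * D + 3)) < (m : ℝ))
    (hpW : (aa m + m) * n * n ≤ p) (hB : E.size * (aa m + m) < B)
    (l1 : m < N) (l2 : aa m < N) (l3 : n < N) (l4 : p < N) (l5 : ka < N) (l6 : B < N)
    (l7 : B ^ (p * p) ≤ N) (l8 : (n ^ (m + 1) * B ^ (m + aa m) + E.size + 5) ^ 4 < N) :
    galg N E.toks = true := by
  have hpz : NeZero p := ⟨hp.ne_zero⟩
  obtain ⟨l, hl⟩ : ∃ l, l = dedupN (namesT E.toks) := ⟨_, rfl⟩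
  have hlspec : l.Nodup ∧ ∀ v, v ∈ l ↔ v ∈ E.names := by
    rw [hl, namesT_toks]
    exact dedupN_spec E.names
  have hlen : l.length ≤ E.size := by
    rw [hl, namesT_toks]
    exact (dedupN_length _).trans (names_length E)
  obtain ⟨y, hy1, hy2⟩ := hit_point hHit hSub hDig hGrid hEx hdep hne
    (fun v hv => (hlspec.2 v).2 hv) hlen ⟨0, hn0⟩ hn hka hp hnp hbig hpW
  have hB0 : 0 < B := by omega
  obtain ⟨c, hc, hcy⟩ := exists_seed hDE hPos hpW hB0 y (fun v => (hy1 v).trans_lt hB)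
  obtain ⟨G, hG⟩ : ∃ G : ℕ → ℕ, G = fun i => eval y (Gen ℕ m n p ka ⟨0, hn0⟩ i) := ⟨_, rfl⟩
  rw [← hG] at hy2
  have hGle : ∀ i, G i ≤ n ^ (m + 1) * B ^ (m + aa m) := fun i => by
    rw [hG]
    exact hGN m n p ka i B ⟨0, hn0⟩ y hB0 (fun v => ((hy1 v).trans_lt hB).le)
  obtain ⟨M, hM⟩ : ∃ M, M = n ^ (m + 1) * B ^ (m + aa m) + E.size := ⟨_, rfl⟩
  rw [← hM] at l8
  obtain ⟨q, hq, hq2, hq3⟩ := good_mod hok (nval l G) (M := M) (by omega) (fun v => by
      unfold nval
      split_ifs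
      · exact (hGle _).trans (by omega)
      · exact Nat.zero_le _) hy2
  have hqz : NeZero q := ⟨hq.ne'⟩
  have hevalT : evalT q (genv q m (aa m) n p ka B c l) E.toks ≠ 0 := by
    rw [evalT_ne_zero]
    have h1 : E.nd (fun v => (look (genv q m (aa m) n p ka B c l) v : ZMod q)) =
        E.nd (fun v => (nval l G v : ZMod q)) := by
      refine Ex.nd_congr fun v hv => ?_
      have hvl : v ∈ l := (hlspec.2 v).2 hv
      rw [look_genv hlspec.1 hvl, hGval m n p ka B c _ q hn0 hq hpW, hcy, nval,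
        if_pos hvl, ZMod.natCast_mod, hG]
    rw [h1]
    exact hq3
  refine galg_of_gtest hDE (q := q - 1) (m := m) (a := aa m) (n := n) (p := p) (ka := ka)
    (B := B) (c := c) ?_ ?_ l1 l2 l3 l4 l5 l6 (hc.trans_le l7)
  · rw [Nat.sub_add_cancel hq]
    unfold gtest
    rw [← hl]
    simpa using hevalT
  · omega

theorem pr_Compl (hHit : S_HitG) (hSub : S_CircSubstG) (hDig : S_Dig) (hPos : S_Pos)
    (hGrid : S_Grid) (hDE : S_DigEx) (hGval : S_Gval) (hGN : S_GNle) (hEx : S_ExCirc)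
    (hNum : S_Num) : S_Compl := by
  obtain ⟨k0, hk0⟩ := hNum
  refine ⟨k0, fun D E hok hdep hne => ?_⟩
  obtain ⟨m, p, ka, B, hm, hka, hp, hnp, hbig, hpW, hB, l1, l2, l3, l4, l5, l6, l7, l8⟩ :=
    hk0 D E.size
  exact compl_aux hHit hSub hDig hPos hGrid hDE hGval hGN hEx hok hdep hne
    (pow_pos hm 10) rfl hka hp hnp hbig hpW hB l1 l2 l3 l4 l5 l6 l7 l8

end Pool.Agent.Work.MP_3c5c20_lc.QP

end

section

/-!
# Nonzero values on a grid
-/

set_option autoImplicit false

namespace Pool.Agent.Work.MP_3c5c20_lc.QP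

open MvPolynomial Pool.Agent.Work.MP_499dc6_lc.CD
  Pool.Agent.Work.MP_499dc6_lc.CDG Pool.Agent.Work.MP_3c5c20_lc.PIT

theorem pw_deg (K : Type) [Field K] (m n : ℕ) (z0 : Fin n) :
    (PW K m n z0).totalDegree ≤ aa m + m := by
  have h := pr_PWhom pr_BiMul pr_TauLt K m n z0
  rw [totalDegree]
  refine Finset.sup_le fun d hd => ?_
  obtain ⟨h1, h2⟩ := h d (mem_support_iff.1 hd)
  unfold dY at h1
  unfold dZ at h2
  rw [Finsupp.sum_fintype _ _ (fun _ => rfl), Fintype.sum_sum_type, h1, h2]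

theorem eval_gen (K : Type) [Field K] (m n p ka : ℕ) [NeZero p] (z0 : Fin n) (i : ℕ)
    (y : VV m n × Fin p → ℕ) :
    eval (fun v => (y v : K)) (Gen K m n p ka z0 i) = ((eval y (Gen ℕ m n p ka z0 i) : ℕ) : K) := by
  simp [Gen, PW, map_sum, map_prod]

theorem pr_GridAlt : S_Grid := by
  intro K _ _ m n p ka N E _ z0 f hf hne
  classical
  have hdeg : (aeval (fun i : Fin N => Gen K m n p ka z0 i) f).totalDegree ≤ E * (aa m + m) := by
    refine (NSubstG.totalDegree_aeval f _ (aa m + m) fun i => ?_).trans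
      (Nat.mul_le_mul_right _ hf)
    rw [gen_eq]
    exact (totalDegree_rename_le _ _).trans (pw_deg K m n z0)
  by_contra hcon
  push Not at hcon
  apply hne
  refine eq_zero_of_eval_zero_at_prod_finset _
    (fun _ => (Finset.range (E * (aa m + m) + 1)).image (fun i : ℕ => (i : K)))
    (fun i => ?_) (fun x hx => ?_)
  · rw [Finset.card_image_of_injective _ Nat.cast_injective, Finset.card_range]
    have h1 := degreeOf_le_totalDegree (aeval (fun i : Fin N => Gen K m n p ka z0 i) f) i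
    omega
  · choose y hy1 hy2 using fun i => Finset.mem_image.1 (hx i)
    have h2 := hcon y (fun v => by
      have := hy1 v
      rw [Finset.mem_range] at this
      omega)
    have h3 : x = fun v => (y v : K) := by
      funext v
      exact (hy2 v).symm
    rw [h3]
    have h4 : ((eval (fun v => (y v : K))).comp
        ((aeval (fun i : Fin N => Gen K m n p ka z0 i) : MvPolynomial (Fin N) K →ₐ[K] _) :
          MvPolynomial (Fin N) K →+* MvPolynomial (VV m n × Fin p) K)) =
        eval (fun i : Fin N => ((eval y (Gen ℕ m n p ka z0 i) : ℕ) : K)) := by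
      apply MvPolynomial.ringHom_ext
      · intro r
        simp
      · intro i
        simp only [RingHom.comp_apply, RingHom.coe_coe, aeval_X, eval_X]
        exact eval_gen K m n p ka z0 i y
    have h5 := congrArg (fun g : MvPolynomial (Fin N) K →+* K => g f) h4
    exact h5.trans h2

end Pool.Agent.Work.MP_3c5c20_lc.QP

end
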