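import Pool.Agent.Work.MP_3c5c20_lc.QP.TMDefs
import Pool.Agent.Work.MP_3c5c20_lc.Bd.B02

/-! Bundle of small proof modules (one section per former module). -/

section

/-!
# Time classes: polynomial in the size of the argument and a growth function
-/

set_option autoImplicit false

namespace Pool.Agent.Work.MP_3c5c20_lc.QP

open Pool.Agent.PT Pool.Agent.PIT Function

section classes

variable {α β γ δ σ : Type} [Enc α] [Enc β] [Enc γ] [Enc δ] [Enc σ] {S : α → ℕ}

theorem GB.mono {B B' : α → ℕ} (h : GB S B') (hB : ∀ a, B a ≤ B' a) : GB S B := by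
  obtain ⟨C, hC⟩ := h
  exact ⟨C, fun a => (hB a).trans (hC a)⟩

theorem GB.of_PB {B : α → ℕ} (h : PB B) : GB S B := by
  obtain ⟨k, hk⟩ := h
  exact ⟨k, fun a => (hk a).trans (Nat.pow_le_pow_left (by omega) _)⟩

theorem GB.mul {B B' : α → ℕ} (h : GB S B) (h' : GB S B') : GB S (fun a => B a * B' a) := by
  obtain ⟨C, hC⟩ := h
  obtain ⟨C', hC'⟩ := h'
  refine ⟨C + C', fun a => ?_⟩
  rw [pow_add]
  exact Nat.mul_le_mul (hC a) (hC' a)

theorem GB.add {B B' : α → ℕ} (h : GB S B) (h' : GB S B') : GB S (fun a => B a + B' a) := by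
  obtain ⟨k, hk⟩ := h
  obtain ⟨k', hk'⟩ := h'
  refine ⟨k + k' + 1, fun a => ?_⟩
  have h1 : (PT.sz a + S a + 2) ^ k ≤ (PT.sz a + S a + 2) ^ (k + k') :=
    Nat.pow_le_pow_right (by omega) (by omega)
  have h2 : (PT.sz a + S a + 2) ^ k' ≤ (PT.sz a + S a + 2) ^ (k + k') :=
    Nat.pow_le_pow_right (by omega) (by omega)
  calc B a + B' a ≤ (PT.sz a + S a + 2) ^ (k + k') + (PT.sz a + S a + 2) ^ (k + k') :=
        add_le_add ((hk a).trans h1) ((hk' a).trans h2)
    _ = (PT.sz a + S a + 2) ^ (k + k') * 2 := by ring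
    _ ≤ (PT.sz a + S a + 2) ^ (k + k') * (PT.sz a + S a + 2) := Nat.mul_le_mul_left _ (by omega)
    _ = (PT.sz a + S a + 2) ^ (k + k' + 1) := (pow_succ _ _).symm

theorem GB.const (c : ℕ) : GB S (fun _ : α => c) := GB.of_PB (PB.const c)

theorem GB.sz : GB S (fun a : α => PT.sz a) := GB.of_PB PB.sz

theorem GB.self : GB S S := ⟨1, fun a => by rw [pow_one]; omega⟩

theorem GB.pow {B : α → ℕ} (h : GB S B) (k : ℕ) : GB S (fun a => B a ^ k) := by
  obtain ⟨C, hC⟩ := h
  refine ⟨C * k, fun a => ?_⟩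
  rw [pow_mul]
  exact Nat.pow_le_pow_left (hC a) _

/-- Composition with polynomially bounded functions. -/
theorem GB.comp_PB {B : β → ℕ} {f : α → β} (h : PB B) (hf : GB S (fun a => PT.sz (f a))) :
    GB S (fun a => B (f a)) := by
  obtain ⟨k, hk⟩ := h
  exact ((hf.add (GB.const 2)).pow k).mono (fun a => hk _)

/-- Precomposition. -/
theorem GB.comp_right {S : β → ℕ} {B : β → ℕ} {f : α → β} (h : GB S B)
    (hf : PB (fun a => PT.sz (f a))) : GB (fun a => S (f a)) (fun a => B (f a)) := by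
  obtain ⟨k, hk⟩ := h
  have h1 : GB (fun a => S (f a)) (fun a => (PT.sz (f a) + S (f a) + 2) ^ k) :=
    (((GB.of_PB hf).add GB.self).add (GB.const 2)).pow k
  exact h1.mono (fun a => hk _)

/-- Change of the growth function. -/
theorem GB.change {S' : α → ℕ} {B : α → ℕ} (h : GB S B) (hS : GB S' S) : GB S' B := by
  obtain ⟨k, hk⟩ := h
  exact (((GB.sz.add hS).add (GB.const 2)).pow k).mono hk

theorem gtf_of_ptf {f : α → β} (h : PTF f) : GTF S f := by
  obtain ⟨B, h1, h2⟩ := h
  exact ⟨B, h1, GB.of_PB h2⟩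

theorem GTF.size {f : α → β} (h : GTF S f) : GB S (fun a => PT.sz (f a)) := by
  obtain ⟨B, h1, h2⟩ := h
  exact (GB.sz.add h2).mono (fun a => h1.size_le a)

theorem GTF.change {S' : α → ℕ} {f : α → β} (h : GTF S f) (hS : GB S' S) : GTF S' f := by
  obtain ⟨B, h1, h2⟩ := h
  exact ⟨B, h1, h2.change hS⟩

/-- A polynomial-time function after a `GTF` function. -/
theorem GTF.comp_left {f : β → γ} {g : α → β} (hf : PTF f) (hg : GTF S g) :
    GTF S (fun a => f (g a)) := by
  have hs := hg.size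
  have hs2 : GB S (fun a => PT.sz (f (g a))) := GB.comp_PB (B := fun b => PT.sz (f b)) hf.size hs
  obtain ⟨Bf, f1, f2⟩ := hf
  obtain ⟨Bg, g1, g2⟩ := hg
  refine ⟨_, f1.comp g1, ?_⟩
  exact ((((g2.add (GB.comp_PB f2 hs)).add ((GB.const 4).mul GB.sz)).add
    ((GB.const 8).mul hs)).add ((GB.const 4).mul hs2)).add (GB.const 8)

/-- A `GTF` function after a polynomial-time function. -/
theorem GTF.comp_right {S : β → ℕ} {f : β → γ} {g : α → β} (hf : GTF S f) (hg : PTF g) :
    GTF (fun a => S (g a)) (fun a => f (g a)) := by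
  have hs2 : GB (fun a => S (g a)) (fun a => PT.sz (f (g a))) := hf.size.comp_right hg.size
  have hgs : GB (fun a => S (g a)) (fun a => PT.sz (g a)) := GB.of_PB hg.size
  have hgp := hg.size
  obtain ⟨Bf, f1, f2⟩ := hf
  obtain ⟨Bg, g1, g2⟩ := hg
  refine ⟨_, f1.comp g1, ?_⟩
  exact (((((GB.of_PB g2).add (f2.comp_right hgp)).add ((GB.const 4).mul GB.sz)).add
    ((GB.const 8).mul hgs)).add ((GB.const 4).mul hs2)).add (GB.const 8)

theorem GTF.pair {f : α → β} {g : α → γ} (hf : GTF S f) (hg : GTF S g) :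
    GTF S (fun a => (f a, g a)) := by
  have hfs := hf.size
  have hgs := hg.size
  obtain ⟨Bf, ⟨f', Tf, f1, f2, f3⟩, f4⟩ := hf
  obtain ⟨Bg, ⟨g', Tg, g1, g2, g3⟩, g4⟩ := hg
  refine ⟨fun a => Bf a + Bg a + 13 * PT.sz a + 8 * PT.sz (f a) + 8 * PT.sz (g a) + 15,
    ⟨_, _, f1.pair g1, fun a => by rw [f2, g2]; rfl, fun a => ?_⟩, ?_⟩
  · have h1 := f3 a
    have h2 := g3 a
    simp only [f2, g2]
    show Tf (enc a) + Tg (enc a) + 13 * PT.sz a + 8 * PT.sz (f a) + 8 * PT.sz (g a) + 15 ≤ _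
    omega
  · exact ((((f4.add g4).add ((GB.const 13).mul GB.sz)).add ((GB.const 8).mul hfs)).add
      ((GB.const 8).mul hgs)).add (GB.const 15)

theorem GTF.congr {f g : α → β} (hf : GTF S f) (h : ∀ a, f a = g a) : GTF S g := by
  have : f = g := funext h
  rwa [← this]

/-- Iteration with `GTF` bounds: the number of iterations and the start are `GTF`. -/
theorem GTF.iterate {c : α → ℕ} {init : α → σ} {step : α × σ → σ}
    (hc : GTF S c) (hi : GTF S init) (hs : PTF step) (R : α → ℕ) (hR : GB S R)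
    (hS : ∀ a i, i ≤ c a → PT.sz ((fun s => step (a, s))^[i] (init a)) ≤ R a) :
    GTF S (fun a => (fun s => step (a, s))^[c a] (init a)) := by
  have e : ∀ a, (enc (c a)).nodes = c a := fun a => encNat_nodes _
  have hcs := hc.size
  obtain ⟨Bc, c1, c2⟩ := hc
  obtain ⟨Bi, i1, i2⟩ := hi
  obtain ⟨Bs, s1, ⟨k, s2⟩⟩ := hs
  obtain ⟨C, h⟩ := TimeF.iterate c1 i1 s1 (fun a => (PT.sz a + R a + 3) ^ k) R
    (fun a i hi => hS a i (by rw [e] at hi; exact hi))
    (fun a i hi => (s2 _).trans (Nat.pow_le_pow_left (by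
      rw [sz_pair]
      have := hS a i (by rw [e] at hi; omega)
      omega) _))
  have h' : GTF S (fun a => (fun s => step (a, s))^[(enc (c a)).nodes] (init a)) := by
    refine ⟨_, h, ?_⟩
    exact (GB.const C).mul (((((((c2).add (i2)).add GB.sz).add
      (hcs)).add hR).add (GB.const 1)).add ((hcs).mul
      ((((((GB.sz.add hR).add (GB.const 3)).pow k).add GB.sz).add hR).add (GB.const 1))))
  exact h'.congr (fun a => by rw [e])

end classes

end Pool.Agent.Work.MP_3c5c20_lc.QP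

end

section

/-!
# The bound `2 ^ (log n) ^ k` is computable in time polynomial in its value
-/

set_option autoImplicit false

namespace Pool.Agent.Work.MP_3c5c20_lc.QP

open Pool.Agent.PT Pool.Agent.PIT Function

/-- The growth function. -/
def GS (x : ℕ × List Tok) : ℕ := 2 ^ lg (tsize x.2) ^ x.1

theorem gs_pow : GTF GS (fun x : ℕ × List Tok => lg (tsize x.2) ^ x.1) := by
  have hL : PTF (fun p : (ℕ × List Tok) × ℕ => p.2 * lg (tsize p.1.2)) :=
    PTF.snd.mul (lg_ptf (tsize_ptf (PTF.snd.comp PTF.fst)))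
  have key : ∀ (L i : ℕ), (fun s : ℕ => s * L)^[i] 1 = L ^ i := by
    intro L i
    induction i with
    | zero => rfl
    | succ i ih => rw [iterate_succ_apply', ih, pow_succ]
  have h := GTF.iterate (S := GS) (c := fun x : ℕ × List Tok => x.1)
    (init := fun _ : ℕ × List Tok => 1)
    (step := fun p : (ℕ × List Tok) × ℕ => p.2 * lg (tsize p.1.2))
    (gtf_of_ptf PTF.fst) (gtf_of_ptf (PTF.const 1)) hL (fun x => 2 * GS x + 1)
    (((GB.const 2).mul GB.self).add (GB.const 1)) (fun x i hi => by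
      show sz ((fun s : ℕ => s * lg (tsize x.2))^[i] 1) ≤ _
      rw [key, sz_nat]
      have h1 : lg (tsize x.2) ^ i ≤ lg (tsize x.2) ^ x.1 :=
        Nat.pow_le_pow_right (by unfold lg; omega) hi
      have h2 : lg (tsize x.2) ^ x.1 ≤ GS x := Nat.lt_two_pow_self.le
      omega)
  exact h.congr (fun x => key (lg (tsize x.2)) x.1)

theorem gs_two_pow : GTF GS GS := by
  have key : ∀ i : ℕ, (fun s : ℕ => s + s)^[i] 1 = 2 ^ i := by
    intro i
    induction i with
    | zero => rfl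
    | succ i ih => rw [iterate_succ_apply', ih, pow_succ]; ring
  have h := GTF.iterate (S := GS) (c := fun x : ℕ × List Tok => lg (tsize x.2) ^ x.1)
    (init := fun _ : ℕ × List Tok => 1) (step := fun p : (ℕ × List Tok) × ℕ => p.2 + p.2)
    gs_pow (gtf_of_ptf (PTF.const 1)) (PTF.snd.add PTF.snd) (fun x => 2 * GS x + 1)
    (((GB.const 2).mul GB.self).add (GB.const 1)) (fun x i hi => by
      show sz ((fun s : ℕ => s + s)^[i] 1) ≤ _
      rw [key, sz_nat]
      have h1 : 2 ^ i ≤ GS x := Nat.pow_le_pow_right (by norm_num) hi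
      omega)
  exact h.congr (fun x => key (lg (tsize x.2) ^ x.1))

theorem gs_galg (hA : S_AlgPT) :
    GTF GS (fun x : ℕ × List Tok => galg (2 ^ lg (tsize x.2) ^ x.1) x.2) := by
  have h1 : GTF GS (fun x : ℕ × List Tok => (GS x, x.2)) :=
    gs_two_pow.pair (gtf_of_ptf PTF.snd)
  exact GTF.comp_left (f := fun x : ℕ × List Tok => galg x.1 x.2) hA h1

end Pool.Agent.Work.MP_3c5c20_lc.QP

end

section

set_option autoImplicit false

namespace Pool.Agent.Work.MP_3c5c20_lc.QP

open Function Pool.Agent.PT Pool.Agent.PIT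

variable {α : Type} [Enc α]

theorem AlgPT_dgt {b k c : α → ℕ} (hb : PTF b) (hk : PTF k) (hc : PTF c) :
    PTF (fun a => dgt (b a) (k a) (c a)) := by
  unfold dgt
  refine PTF.mod (PTF.nat_iterate_add (n := k) (init := c)
    (step := fun p : α × ℕ => p.2 / b p.1) hk hc (PTF.snd.div (hb.comp PTF.fst))
    (fun _ => 0) (PB.const 0) (fun a s => ?_)) hb
  show sz (s / b a) ≤ _
  have := Nat.div_le_self s (b a)
  rw [sz_nat, sz_nat]
  omega

theorem AlgPT_genv (H : S_GvalPT) {q m a n p ka B c : α → ℕ} {l : α → List Name} (hq : PTF q)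
    (hm : PTF m) (ha : PTF a) (hn : PTF n) (hp : PTF p) (hka : PTF ka) (hB : PTF B) (hc : PTF c)
    (hl : PTF l) :
    PTF (fun x => genv (q x + 1) (m x) (a x) (n x) (p x) (ka x) (B x) (c x) (l x)) := by
  unfold genv
  refine PTF.map (l := fun x => List.range (l x).length)
    (g := fun r : α × ℕ => ((l r.1).getD r.2 [], gval (q r.1 + 1) (m r.1) (a r.1) (n r.1) (p r.1)
      (ka r.1) (B r.1) (c r.1) r.2)) hl.length.range ?_
  refine ((hl.comp PTF.fst).getD PTF.snd (PTF.const [])).pair ?_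
  exact H (α × ℕ) (fun r => q r.1) (fun r => m r.1) (fun r => a r.1) (fun r => n r.1)
    (fun r => p r.1) (fun r => ka r.1) (fun r => B r.1) (fun r => c r.1) (fun r => r.2)
    (hq.comp PTF.fst) (hm.comp PTF.fst) (ha.comp PTF.fst) (hn.comp PTF.fst) (hp.comp PTF.fst)
    (hka.comp PTF.fst) (hB.comp PTF.fst) (hc.comp PTF.fst) PTF.snd

theorem AlgPT_gtest (H : S_GvalPT) {q m a n p ka B c : α → ℕ} {toks : α → List Tok} (hq : PTF q)
    (hm : PTF m) (ha : PTF a) (hn : PTF n) (hp : PTF p) (hka : PTF ka) (hB : PTF B) (hc : PTF c)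
    (ht : PTF toks) :
    PTF (fun x => gtest (q x + 1) (m x) (a x) (n x) (p x) (ka x) (B x) (c x) (toks x)) := by
  unfold gtest
  exact ((evalT_ptf hq (AlgPT_genv H hq hm ha hn hp hka hB hc (dedupN_ptf (namesT_ptf ht)))
    ht).eq (PTF.const 0)).not

/-- The algorithm runs in time polynomial in `N` and the number of tokens. -/
theorem pr_AlgPT : S_GvalPT → S_AlgPT := by
  intro H
  show PTF (fun x : ℕ × List Tok => galg x.1 x.2)
  unfold galg
  have hd : ∀ k : ℕ, PTF (fun r : (ℕ × List Tok) × ℕ => dgt r.1.1 k r.2) := fun k =>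
    AlgPT_dgt (PTF.fst.comp PTF.fst) (PTF.const k) PTF.snd
  exact PTF.any (l := fun x : ℕ × List Tok => List.range (x.1 ^ 8))
    (p := fun r : (ℕ × List Tok) × ℕ => gtest (dgt r.1.1 0 r.2 + 1) (dgt r.1.1 1 r.2)
      (dgt r.1.1 2 r.2) (dgt r.1.1 3 r.2) (dgt r.1.1 4 r.2) (dgt r.1.1 5 r.2) (dgt r.1.1 6 r.2)
      (dgt r.1.1 7 r.2) r.1.2) (PTF.fst.pow_const 8).range
    (AlgPT_gtest H (hd 0) (hd 1) (hd 2) (hd 3) (hd 4) (hd 5) (hd 6) (hd 7)
      (PTF.snd.comp PTF.fst))

end Pool.Agent.Work.MP_3c5c20_lc.QP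

end

section

/-!
# DigEx: digits exist (helper27)
-/

set_option autoImplicit false

namespace Pool.Agent.Work.MP_3c5c20_lc.QP

theorem pr_DigEx : S_DigEx := by
  intro B n
  induction n with
  | zero =>
    intro w _
    exact ⟨0, by simp, fun k hk => absurd hk (Nat.not_lt_zero k)⟩
  | succ n ih =>
    intro w hw
    obtain ⟨c, hc, hd⟩ := ih (fun k => w (k + 1)) (fun k hk => hw (k + 1) (by omega))
    have h0 : w 0 < B := hw 0 (by omega)
    have hB : 0 < B := by omega
    have hdiv : (w 0 + B * c) / B = c := by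
      rw [Nat.add_mul_div_left _ _ hB, Nat.div_eq_of_lt h0, zero_add]
    refine ⟨w 0 + B * c, ?_, ?_⟩
    · have h1 : c + 1 ≤ B ^ n := hc
      calc w 0 + B * c < B + B * c := by omega
        _ = B * (c + 1) := by ring
        _ ≤ B * B ^ n := Nat.mul_le_mul_left B h1
        _ = B ^ (n + 1) := by ring
    · intro k hk
      cases k with
      | zero =>
        show (w 0 + B * c) % B = w 0
        rw [Nat.add_mul_mod_self_left, Nat.mod_eq_of_lt h0]
      | succ k =>
        have h2 := hd k (by omega)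
        unfold dgt at h2 ⊢
        rw [Function.iterate_succ_apply]
        show (fun x => x / B)^[k] ((w 0 + B * c) / B) % B = w (k + 1)
        rw [hdiv]
        exact h2

end Pool.Agent.Work.MP_3c5c20_lc.QP

end

section

/-!
# Expressions of bounded product depth are circuits (item ExCirc)
-/

set_option autoImplicit false

namespace Pool.Agent.Work.MP_3c5c20_lc.QP

open MvPolynomial Pool.Agent.PT Pool.Agent.PIT Pool.Agent.Work.MP_499dc6_lc.CD
  Pool.Agent.Work.MP_499dc6_lc.CDG Pool.Agent.Work.MP_3c5c20_lc.PIT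

/-- Circuits with linear combinations and products only. -/
def ExCirc_C {s : ℕ} (F : Fin s → MvPolynomial Name ℚ) (d : Fin s → ℕ) : Prop :=
  ∀ i, (∃ (l : MvPolynomial Name ℚ) (c : Fin s → ℚ), l.totalDegree ≤ 1 ∧
      (∀ j, c j ≠ 0 → j < i ∧ d j ≤ d i) ∧ F i = l + ∑ j, C (c j) * F j) ∨
    (∃ k : Fin s → ℕ, (∀ j, k j ≠ 0 → j < i ∧ d j < d i) ∧ F i = ∏ j, F j ^ k j)

theorem ExCirc_C.isCirc {s : ℕ} {F : Fin s → MvPolynomial Name ℚ} {d : Fin s → ℕ}
    (h : ExCirc_C F d) : IsCirc 1 0 F d := fun i => by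
  rcases h i with h | h
  · exact Or.inl h
  · exact Or.inr (Or.inl h)

theorem ExCirc_append {s t : ℕ} {F : Fin s → MvPolynomial Name ℚ} {d : Fin s → ℕ}
    {G : Fin t → MvPolynomial Name ℚ} {e : Fin t → ℕ} (hF : ExCirc_C F d) (hG : ExCirc_C G e) :
    ExCirc_C (Fin.append F G) (Fin.append d e) := by
  intro i
  refine Fin.addCases (fun a => ?_) (fun a => ?_) i
  · rcases hF a with ⟨l, c, hl, hc, hs⟩ | ⟨k, hk, hs⟩
    · refine Or.inl ⟨l, Fin.append c (fun _ => 0), hl, ?_, ?_⟩
      · intro j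
        refine Fin.addCases (fun b => ?_) (fun b => ?_) j
        · intro hb
          rw [Fin.append_left] at hb
          obtain ⟨h1, h2⟩ := hc b hb
          refine ⟨?_, ?_⟩
          · rw [Fin.lt_def] at h1 ⊢
            simpa using h1
          · rw [Fin.append_left, Fin.append_left]; exact h2
        · intro hb
          rw [Fin.append_right] at hb
          exact absurd rfl hb
      · rw [Fin.append_left, Fin.sum_univ_add]
        simp only [Fin.append_left, Fin.append_right, C_0, zero_mul, Finset.sum_const_zero,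
          add_zero]
        exact hs
    · refine Or.inr ⟨Fin.append k (fun _ => 0), ?_, ?_⟩
      · intro j
        refine Fin.addCases (fun b => ?_) (fun b => ?_) j
        · intro hb
          rw [Fin.append_left] at hb
          obtain ⟨h1, h2⟩ := hk b hb
          refine ⟨?_, ?_⟩
          · rw [Fin.lt_def] at h1 ⊢
            simpa using h1
          · rw [Fin.append_left, Fin.append_left]; exact h2
        · intro hb
          rw [Fin.append_right] at hb
          exact absurd rfl hb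
      · rw [Fin.append_left, Fin.prod_univ_add]
        simp only [Fin.append_left, Fin.append_right, pow_zero, Finset.prod_const_one, mul_one]
        exact hs
  · rcases hG a with ⟨l, c, hl, hc, hs⟩ | ⟨k, hk, hs⟩
    · refine Or.inl ⟨l, Fin.append (fun _ => 0) c, hl, ?_, ?_⟩
      · intro j
        refine Fin.addCases (fun b => ?_) (fun b => ?_) j
        · intro hb
          rw [Fin.append_left] at hb
          exact absurd rfl hb
        · intro hb
          rw [Fin.append_right] at hb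
          obtain ⟨h1, h2⟩ := hc b hb
          refine ⟨?_, ?_⟩
          · rw [Fin.lt_def] at h1 ⊢
            simpa using h1
          · rw [Fin.append_right, Fin.append_right]; exact h2
      · rw [Fin.append_right, Fin.sum_univ_add]
        simp only [Fin.append_left, Fin.append_right, C_0, zero_mul, Finset.sum_const_zero,
          zero_add]
        exact hs
    · refine Or.inr ⟨Fin.append (fun _ => 0) k, ?_, ?_⟩
      · intro j
        refine Fin.addCases (fun b => ?_) (fun b => ?_) j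
        · intro hb
          rw [Fin.append_left] at hb
          exact absurd rfl hb
        · intro hb
          rw [Fin.append_right] at hb
          obtain ⟨h1, h2⟩ := hk b hb
          refine ⟨?_, ?_⟩
          · rw [Fin.lt_def] at h1 ⊢
            simpa using h1
          · rw [Fin.append_right, Fin.append_right]; exact h2
      · rw [Fin.append_right, Fin.prod_univ_add]
        simp only [Fin.append_left, Fin.append_right, pow_zero, Finset.prod_const_one, one_mul]
        exact hs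

theorem ExCirc_snoc {s : ℕ} {F : Fin s → MvPolynomial Name ℚ} {d : Fin s → ℕ}
    (hF : ExCirc_C F d) (G : MvPolynomial Name ℚ) (e : ℕ)
    (h : (∃ c : Fin s → ℚ, (∀ j, c j ≠ 0 → d j ≤ e) ∧ G = ∑ j, C (c j) * F j) ∨
      (∃ k : Fin s → ℕ, (∀ j, k j ≠ 0 → d j < e) ∧ G = ∏ j, F j ^ k j)) :
    ExCirc_C (Fin.snoc (α := fun _ => MvPolynomial Name ℚ) F G)
      (Fin.snoc (α := fun _ => ℕ) d e) := by
  intro i
  refine Fin.lastCases ?_ (fun a => ?_) i
  · rcases h with ⟨c, hc, hs⟩ | ⟨k, hk, hs⟩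
    · refine Or.inl ⟨0, Fin.snoc (α := fun _ => ℚ) c 0, by simp, ?_, ?_⟩
      · intro j
        refine Fin.lastCases ?_ (fun b => ?_) j
        · intro hb
          rw [Fin.snoc_last] at hb
          exact absurd rfl hb
        · intro hb
          rw [Fin.snoc_castSucc] at hb
          refine ⟨Fin.castSucc_lt_last b, ?_⟩
          rw [Fin.snoc_castSucc, Fin.snoc_last]
          exact hc b hb
      · rw [Fin.snoc_last, Fin.sum_univ_castSucc]
        simp only [Fin.snoc_castSucc, Fin.snoc_last, C_0, zero_mul, add_zero, zero_add]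
        exact hs
    · refine Or.inr ⟨Fin.snoc (α := fun _ => ℕ) k 0, ?_, ?_⟩
      · intro j
        refine Fin.lastCases ?_ (fun b => ?_) j
        · intro hb
          rw [Fin.snoc_last] at hb
          exact absurd rfl hb
        · intro hb
          rw [Fin.snoc_castSucc] at hb
          refine ⟨Fin.castSucc_lt_last b, ?_⟩
          rw [Fin.snoc_castSucc, Fin.snoc_last]
          exact hk b hb
      · rw [Fin.snoc_last, Fin.prod_univ_castSucc]
        simp only [Fin.snoc_castSucc, Fin.snoc_last, pow_zero, mul_one]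
        exact hs
  · rcases hF a with ⟨l, c, hl, hc, hs⟩ | ⟨k, hk, hs⟩
    · refine Or.inl ⟨l, Fin.snoc (α := fun _ => ℚ) c 0, hl, ?_, ?_⟩
      · intro j
        refine Fin.lastCases ?_ (fun b => ?_) j
        · intro hb
          rw [Fin.snoc_last] at hb
          exact absurd rfl hb
        · intro hb
          rw [Fin.snoc_castSucc] at hb
          obtain ⟨h1, h2⟩ := hc b hb
          refine ⟨?_, ?_⟩
          · exact Fin.castSucc_lt_castSucc_iff.2 h1
          · rw [Fin.snoc_castSucc, Fin.snoc_castSucc]; exact h2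
      · rw [Fin.snoc_castSucc, Fin.sum_univ_castSucc]
        simp only [Fin.snoc_castSucc, Fin.snoc_last, C_0, zero_mul, add_zero]
        exact hs
    · refine Or.inr ⟨Fin.snoc (α := fun _ => ℕ) k 0, ?_, ?_⟩
      · intro j
        refine Fin.lastCases ?_ (fun b => ?_) j
        · intro hb
          rw [Fin.snoc_last] at hb
          exact absurd rfl hb
        · intro hb
          rw [Fin.snoc_castSucc] at hb
          obtain ⟨h1, h2⟩ := hk b hb
          refine ⟨?_, ?_⟩
          · exact Fin.castSucc_lt_castSucc_iff.2 h1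
          · rw [Fin.snoc_castSucc, Fin.snoc_castSucc]; exact h2
      · rw [Fin.snoc_castSucc, Fin.prod_univ_castSucc]
        simp only [Fin.snoc_castSucc, Fin.snoc_last, pow_zero, mul_one]
        exact hs

/-- One gate. -/
theorem ExCirc_one (l : MvPolynomial Name ℚ) (hl : l.totalDegree ≤ 1) :
    ExCirc_C (fun _ : Fin 1 => l) (fun _ => 0) := fun _ =>
  Or.inl ⟨l, fun _ => 0, hl, fun _ h => absurd rfl h, by simp⟩

def ExCirc_Q (E : Ex) : Prop :=
  ∃ (s : ℕ) (F : Fin s → MvPolynomial Name ℚ) (d : Fin s → ℕ) (i : Fin s),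
    s ≤ E.size ∧ ExCirc_C F d ∧ (∀ j, d j ≤ E.dep false) ∧ F i = E.poly

def ExCirc_P (E : Ex) : Prop :=
  ∃ (s : ℕ) (F : Fin s → MvPolynomial Name ℚ) (d : Fin s → ℕ) (k : Fin s → ℕ),
    s ≤ E.size ∧ ExCirc_C F d ∧ (∀ j, d j ≤ E.dep true) ∧ ∏ j, F j ^ k j = E.poly

theorem ExCirc_P_of_Q {E : Ex} (h : ExCirc_Q E) (hd : E.dep true = E.dep false) :
    ExCirc_P E := by
  obtain ⟨s, F, d, i, hs, hC, hdj, hF⟩ := h
  refine ⟨s, F, d, Pi.single i 1, hs, hC, fun j => by rw [hd]; exact hdj j, ?_⟩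
  rw [Finset.prod_eq_single i]
  · simpa using hF
  · intro j _ hj
    simp [Pi.single_eq_of_ne hj]
  · intro hi
    exact absurd (Finset.mem_univ i) hi

/-- Sums and differences. -/
theorem ExCirc_comb {a b E : Ex} (x y : ℚ) (ha : ExCirc_Q a) (hb : ExCirc_Q b)
    (hsz : a.size + b.size + 1 ≤ E.size) (hd : max (a.dep false) (b.dep false) = E.dep false)
    (hp : C x * a.poly + C y * b.poly = E.poly) : ExCirc_Q E := by
  obtain ⟨s, F, d, i, hs, hC, hdj, hF⟩ := ha
  obtain ⟨s', F', d', i', hs', hC', hdj', hF'⟩ := hb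
  refine ⟨s + s' + 1, Fin.snoc (α := fun _ => MvPolynomial Name ℚ) (Fin.append F F') E.poly,
    Fin.snoc (α := fun _ => ℕ) (Fin.append d d') (E.dep false), Fin.last _, by omega, ?_, ?_, ?_⟩
  · apply ExCirc_snoc (ExCirc_append hC hC')
    refine Or.inl ⟨Fin.append (Pi.single i x) (Pi.single i' y), ?_, ?_⟩
    · intro j
      refine Fin.addCases (fun b => ?_) (fun b => ?_) j
      · intro _
        rw [Fin.append_left]
        exact (hdj b).trans (by rw [← hd]; exact le_max_left _ _)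
      · intro _
        rw [Fin.append_right]
        exact (hdj' b).trans (by rw [← hd]; exact le_max_right _ _)
    · rw [Fin.sum_univ_add]
      simp only [Fin.append_left, Fin.append_right]
      rw [Finset.sum_eq_single i, Finset.sum_eq_single i', Pi.single_eq_same, Pi.single_eq_same,
        hF, hF', hp]
      · intro j _ hj
        rw [Pi.single_eq_of_ne hj, C_0, zero_mul]
      · intro hi
        exact absurd (Finset.mem_univ _) hi
      · intro j _ hj
        rw [Pi.single_eq_of_ne hj, C_0, zero_mul]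
      · intro hi
        exact absurd (Finset.mem_univ _) hi
  · intro j
    refine Fin.lastCases ?_ (fun b => ?_) j
    · rw [Fin.snoc_last]
    · rw [Fin.snoc_castSucc]
      refine Fin.addCases (fun b => ?_) (fun b => ?_) b
      · rw [Fin.append_left]
        exact (hdj b).trans (by rw [← hd]; exact le_max_left _ _)
      · rw [Fin.append_right]
        exact (hdj' b).trans (by rw [← hd]; exact le_max_right _ _)
  · rw [Fin.snoc_last]

theorem ExCirc_mulP {a b : Ex} (ha : ExCirc_P a) (hb : ExCirc_P b) :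
    ∃ (s : ℕ) (F : Fin s → MvPolynomial Name ℚ) (d : Fin s → ℕ) (k : Fin s → ℕ),
    s ≤ a.size + b.size ∧ ExCirc_C F d ∧ (∀ j, d j ≤ max (a.dep true) (b.dep true)) ∧
    ∏ j, F j ^ k j = (Ex.mul a b).poly := by
  obtain ⟨s, F, d, k, hs, hC, hdj, hF⟩ := ha
  obtain ⟨s', F', d', k', hs', hC', hdj', hF'⟩ := hb
  refine ⟨s + s', Fin.append F F', Fin.append d d', Fin.append k k', by omega,
    ExCirc_append hC hC', ?_, ?_⟩
  · intro j
    refine Fin.addCases (fun b => ?_) (fun b => ?_) j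
    · rw [Fin.append_left]
      exact (hdj b).trans (le_max_left _ _)
    · rw [Fin.append_right]
      exact (hdj' b).trans (le_max_right _ _)
  · rw [Fin.prod_univ_add]
    simp only [Fin.append_left, Fin.append_right]
    rw [hF, hF']
    rfl

theorem ExCirc_main (E : Ex) : ExCirc_Q E ∧ ExCirc_P E := by
  induction E with
  | var v =>
    have h : ExCirc_Q (Ex.var v) := ⟨1, fun _ => X v, fun _ => 0, 0, by simp [Ex.size],
      ExCirc_one _ (by rw [totalDegree_X]), fun _ => Nat.zero_le _, rfl⟩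
    exact ⟨h, ExCirc_P_of_Q h rfl⟩
  | const neg num den =>
    have h : ExCirc_Q (Ex.const neg num den) := ⟨1, fun _ => (Ex.const neg num den).poly,
      fun _ => 0, 0, by simp [Ex.size], ExCirc_one _ (by simp [Ex.poly]),
      fun _ => Nat.zero_le _, rfl⟩
    exact ⟨h, ExCirc_P_of_Q h rfl⟩
  | add a b iha ihb =>
    have h : ExCirc_Q (Ex.add a b) := ExCirc_comb 1 1 iha.1 ihb.1 le_rfl rfl (by
      simp [Ex.poly])
    exact ⟨h, ExCirc_P_of_Q h rfl⟩
  | sub a b iha ihb =>
    have h : ExCirc_Q (Ex.sub a b) := ExCirc_comb 1 (-1) iha.1 ihb.1 le_rfl rfl (by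
      simp [Ex.poly, sub_eq_add_neg])
    exact ⟨h, ExCirc_P_of_Q h rfl⟩
  | mul a b iha ihb =>
    obtain ⟨s, F, d, k, hs, hC, hdj, hF⟩ := ExCirc_mulP iha.2 ihb.2
    have e1 : (Ex.mul a b).dep false = 1 + max (a.dep true) (b.dep true) := rfl
    have e2 : (Ex.mul a b).dep true = 0 + max (a.dep true) (b.dep true) := rfl
    have e3 : (Ex.mul a b).size = a.size + b.size + 1 := rfl
    refine ⟨⟨s + 1, Fin.snoc (α := fun _ => MvPolynomial Name ℚ) F (Ex.mul a b).poly,
      Fin.snoc (α := fun _ => ℕ) d ((Ex.mul a b).dep false), Fin.last _, by omega, ?_, ?_, ?_⟩,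
      ⟨s, F, d, k, by omega, hC, fun j => by rw [e2, zero_add]; exact hdj j, hF⟩⟩
    · apply ExCirc_snoc hC
      refine Or.inr ⟨k, fun j _ => ?_, hF.symm⟩
      have := hdj j
      omega
    · intro j
      refine Fin.lastCases ?_ (fun b => ?_) j
      · rw [Fin.snoc_last]
      · rw [Fin.snoc_castSucc]
        have := hdj b
        omega
    · rw [Fin.snoc_last]

theorem pr_ExCirc : S_ExCirc := fun E => by
  obtain ⟨s, F, d, i, hs, hC, hdj, hF⟩ := (ExCirc_main E).1
  exact ⟨s, F, d, i, hs, hC.isCirc, hdj, hF⟩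

end Pool.Agent.Work.MP_3c5c20_lc.QP

end

section

/-!
# Item GNle: size of the values of the generator
-/

set_option autoImplicit false

namespace Pool.Agent.Work.MP_3c5c20_lc.QP

open MvPolynomial Pool.Agent.PT Pool.Agent.PIT Pool.Agent.Work.MP_499dc6_lc.CD
  Pool.Agent.Work.MP_499dc6_lc.CDG Pool.Agent.Work.MP_3c5c20_lc.PIT

theorem GNle_fibres (m : ℕ) :
    ∑ l : Fin m, (Finset.univ.filter (fun t : Fin (aa m) => tau m t = l)).card ≤ aa m := by
  classical
  have h1 : ∀ l : Fin m, (Finset.univ.filter (fun t : Fin (aa m) => tau m t = l)).card =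
      ∑ t : Fin (aa m), if tau m t = l then 1 else 0 := fun l => Finset.card_filter _ _
  rw [Finset.sum_congr rfl fun l _ => h1 l]
  have hswap : (∑ l : Fin m, ∑ t : Fin (aa m), if tau m t = (l : ℕ) then 1 else 0) =
      ∑ t : Fin (aa m), ∑ l : Fin m, if tau m t = (l : ℕ) then 1 else 0 := Finset.sum_comm
  rw [hswap]
  have h2 : ∀ t : Fin (aa m), (∑ l : Fin m, if tau m t = (l : ℕ) then 1 else 0) ≤ 1 := by
    intro t
    by_cases ht : tau m t < m
    · rw [Finset.sum_eq_single (⟨tau m t, ht⟩ : Fin m)]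
      · simp
      · intro b _ hb
        rw [if_neg]
        intro h
        exact hb (Fin.ext h.symm)
      · intro h
        exact absurd (Finset.mem_univ _) h
    · rw [Finset.sum_eq_zero]
      · exact Nat.zero_le _
      · intro i _
        rw [if_neg]
        intro h
        exact ht (h ▸ i.2)
  calc ∑ t : Fin (aa m), ∑ l : Fin m, (if tau m t = (l : ℕ) then 1 else 0)
      ≤ ∑ _t : Fin (aa m), 1 := Finset.sum_le_sum fun t _ => h2 t
    _ = aa m := by simp

theorem pr_GNle : S_GNle := by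
  intro m n p ka i B _ z0 w hB hw
  classical
  unfold Gen PW
  rw [map_sum, map_sum]
  have hterm : ∀ s : Walk m n z0, eval w (aeval (fun v : VV m n =>
      (X (v, dig p ka i (pos m n v)) : MvPolynomial (VV m n × Fin p) ℕ))
        (∏ l : Fin m, (X (Sum.inr (l, s.1 l.castSucc, s.1 l.succ)) *
          ∏ t ∈ Finset.univ.filter (fun t : Fin (aa m) => tau m t = l),
            X (Sum.inl (t, s.1 l.castSucc, s.1 l.succ)) : MvPolynomial (VV m n) ℕ))) ≤
      B ^ (m + aa m) := by
    intro s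
    rw [map_prod, map_prod]
    have h1 : ∀ l : Fin m, eval w (aeval (fun v : VV m n =>
        (X (v, dig p ka i (pos m n v)) : MvPolynomial (VV m n × Fin p) ℕ))
          ((X (Sum.inr (l, s.1 l.castSucc, s.1 l.succ)) *
            ∏ t ∈ Finset.univ.filter (fun t : Fin (aa m) => tau m t = l),
              X (Sum.inl (t, s.1 l.castSucc, s.1 l.succ)) : MvPolynomial (VV m n) ℕ))) ≤
        B * B ^ (Finset.univ.filter (fun t : Fin (aa m) => tau m t = l)).card := by
      intro l
      rw [map_mul, map_mul, map_prod, map_prod, aeval_X, eval_X]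
      refine Nat.mul_le_mul (hw _) ?_
      rw [← Finset.prod_const]
      refine Finset.prod_le_prod' fun t _ => ?_
      rw [aeval_X, eval_X]
      exact hw _
    refine (Finset.prod_le_prod' fun l _ => h1 l).trans ?_
    rw [Finset.prod_mul_distrib, Finset.prod_const, Finset.card_univ, Fintype.card_fin,
      Finset.prod_pow_eq_pow_sum, ← pow_add]
    exact Nat.pow_le_pow_right hB (Nat.add_le_add_left (GNle_fibres m) m)
  refine (Finset.sum_le_sum fun s _ => hterm s).trans ?_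
  rw [Finset.sum_const, smul_eq_mul, Finset.card_univ]
  refine Nat.mul_le_mul_right _ ?_
  refine (Fintype.card_subtype_le _).trans ?_
  rw [Fintype.card_fun, Fintype.card_fin, Fintype.card_fin]

end Pool.Agent.Work.MP_3c5c20_lc.QP

end

section

/-!
# The list program computes the generator
-/

set_option autoImplicit false

namespace Pool.Agent.Work.MP_3c5c20_lc.QP

open MvPolynomial Pool.Agent.PT Pool.Agent.PIT Pool.Agent.Work.MP_499dc6_lc.CD
  Pool.Agent.Work.MP_499dc6_lc.CDG Pool.Agent.Work.MP_3c5c20_lc.PIT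

theorem Gval_sum (n : ℕ) (f : ℕ → ℕ) : ((List.range n).map f).sum = ∑ x ∈ Finset.range n, f x := by
  induction n with
  | zero => simp
  | succ n ih => rw [List.range_succ, List.map_append, List.sum_append, ih, Finset.sum_range_succ]; simp

theorem Gval_getD (n : ℕ) (f : ℕ → ℕ) (x : ℕ) (hx : x < n) :
    ((List.range n).map f).getD x 0 = f x := by
  rw [List.getD_eq_getElem?_getD, List.getElem?_map, List.getElem?_range hx]
  rfl

/-- The matrix as a function of natural numbers. -/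
def Gval_M (a n p ka B c i l x y : ℕ) : ℕ :=
  sval p ka B c i (((a + l) * n + x) * n + y) *
    ∏ t ∈ Finset.range a, if tauN t = l then sval p ka B c i ((t * n + x) * n + y) else 1

theorem Gval_gmat (q a n p ka B c i l x y : ℕ) :
    gmat q a n p ka B c i l x y = Gval_M a n p ka B c i l x y % q := by
  unfold gmat Gval_M
  have key : ∀ k s0 : ℕ, (List.range k).foldl
      (fun z t => if tauN t = l then z * sval p ka B c i ((t * n + x) * n + y) % q else z)
      (s0 % q) = (s0 * ∏ t ∈ Finset.range k,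
        if tauN t = l then sval p ka B c i ((t * n + x) * n + y) else 1) % q := by
    intro k s0
    induction k with
    | zero => simp
    | succ k ih =>
      rw [List.range_succ, List.foldl_append, ih, Finset.prod_range_succ]
      simp only [List.foldl_cons, List.foldl_nil]
      split_ifs with h
      · rw [← mul_assoc, Nat.mod_mul_mod]
      · rw [mul_one]
  exact key a _

theorem pr_Gval : S_WalkDP → S_TauN → S_Polm → S_Gval := by
  intro hW hT hP m n p ka B c i q _ hn hq _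
  have hpolm : ∀ x, polm p ka i x = (dig p ka i x : ℕ) := fun x => hP.2 p ka i x
  have hseed : ∀ v : VV m n, seed m n p B c (v, dig p ka i (pos m n v)) =
      sval p ka B c i (pos m n v) := by
    intro v
    unfold seed sval
    rw [hpolm]
  -- step 1
  have h1 : eval (seed m n p B c) (Gen ℕ m n p ka ⟨0, hn⟩ i) =
      ∑ s : Walk m n ⟨0, hn⟩, ∏ l : Fin m,
        Gval_M (aa m) n p ka B c i l (s.1 l.castSucc) (s.1 l.succ) := by
    unfold Gen PW
    rw [map_sum, map_sum]
    refine Finset.sum_congr rfl fun s _ => ?_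
    rw [map_prod, map_prod]
    refine Finset.prod_congr rfl fun l _ => ?_
    rw [map_mul, map_mul, map_prod, map_prod, aeval_X, eval_X, hseed]
    unfold Gval_M
    congr 1
    rw [Finset.prod_range (fun t => if tauN t = (l : ℕ) then
      sval p ka B c i ((t * n + (s.1 l.castSucc : ℕ)) * n + (s.1 l.succ : ℕ)) else 1),
      Finset.prod_filter]
    refine Finset.prod_congr rfl fun t _ => ?_
    rw [aeval_X, eval_X, hseed, hT.1 m t]
    rfl
  have h2 := hW ℕ m n ⟨0, hn⟩ (fun l x y => Gval_M (aa m) n p ka B c i l x y)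
  rw [h1, h2]
  -- the invariant
  let W : ℕ → ℕ → ℕ := fun l y => if h : y < n then
    wdp ⟨0, hn⟩ (fun l (x y : Fin n) => Gval_M (aa m) n p ka B c i l x y) l ⟨y, h⟩ else 0
  have hWd : ∀ l y (h : y < n), W l y =
    wdp ⟨0, hn⟩ (fun l (x y : Fin n) => Gval_M (aa m) n p ka B c i l x y) l ⟨y, h⟩ := by
    intro l y h
    simp only [W, dif_pos h]
  have inv : ∀ l, (List.range l).foldl (gstep q (aa m) n p ka B c i)
      ((List.range n).map fun x => if x = 0 then 1 % q else 0) =
      (List.range n).map fun y => W l y % q := by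
    intro l
    induction l with
    | zero =>
      rw [List.range_zero, List.foldl_nil]
      apply List.map_congr_left
      intro y hy
      rw [List.mem_range] at hy
      rw [hWd 0 y hy]
      unfold wdp
      by_cases hy0 : y = 0
      · subst hy0; simp
      · rw [if_neg hy0, if_neg (by intro h; exact hy0 (congrArg Fin.val h)), Nat.zero_mod]
    | succ l ih =>
      rw [List.range_succ, List.foldl_append, ih]
      simp only [List.foldl_cons, List.foldl_nil]
      unfold gstep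
      apply List.map_congr_left
      intro y hy
      rw [List.mem_range] at hy
      rw [hWd (l + 1) y hy, Gval_sum]
      unfold wdp
      rw [← Fin.sum_univ_eq_sum_range, Finset.sum_nat_mod]
      conv_rhs => rw [Finset.sum_nat_mod]
      congr 1
      refine Finset.sum_congr rfl fun x _ => ?_
      rw [Gval_getD n _ x x.2, Gval_gmat, hWd l x x.2, ← Nat.mul_mod]
  unfold gval
  rw [inv m, Gval_getD n _ 0 hn, hWd m 0 hn]

end Pool.Agent.Work.MP_3c5c20_lc.QP

end

section

set_option autoImplicit false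

namespace Pool.Agent.Work.MP_3c5c20_lc.QP

open Function Pool.Agent.PT Pool.Agent.PIT

variable {α : Type} [Enc α]

theorem GvalPT_dgt {b k c : α → ℕ} (hb : PTF b) (hk : PTF k) (hc : PTF c) :
    PTF (fun a => dgt (b a) (k a) (c a)) := by
  unfold dgt
  refine PTF.mod (PTF.nat_iterate_add (n := k) (init := c)
    (step := fun p : α × ℕ => p.2 / b p.1) hk hc (PTF.snd.div (hb.comp PTF.fst))
    (fun _ => 0) (PB.const 0) (fun a s => ?_)) hb
  show sz (s / b a) ≤ _
  have := Nat.div_le_self s (b a)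
  rw [sz_nat, sz_nat]
  omega

theorem GvalPT_pwm {p x j : α → ℕ} (hp : PTF p) (hx : PTF x) (hj : PTF j) :
    PTF (fun a => pwm (p a + 1) (x a) (j a)) := by
  unfold pwm
  refine PTF.nat_iterate (n := j) (init := fun _ : α => 1)
    (step := fun r : α × ℕ => r.2 * x r.1 % (p r.1 + 1)) hj (PTF.const 1)
    ((PTF.snd.mul (hx.comp PTF.fst)).mod (hp.comp PTF.fst).succ)
    (fun a => sz (p a) + 2) (hp.size.add (PB.const 2)) (fun a i _ => ?_)
  cases i with
  | zero =>
    show sz 1 ≤ _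
    rw [sz_nat, sz_nat]; omega
  | succ i =>
    rw [iterate_succ_apply']
    show sz (_ % (p a + 1)) ≤ _
    rw [sz_nat, sz_nat]
    have := Nat.mod_lt ((fun s : ℕ => s * x a % (p a + 1))^[i] 1 * x a) (Nat.succ_pos (p a))
    change ((fun s : ℕ => s * x a % (p a + 1))^[i] 1 * x a) % (p a + 1) < p a + 1 at this
    change 2 * (((fun s : ℕ => s * x a % (p a + 1))^[i] 1 * x a) % (p a + 1)) + 1 ≤ _
    omega

theorem GvalPT_polm1 {p ka i x : α → ℕ} (hp : PTF p) (hka : PTF ka) (hi : PTF i) (hx : PTF x) :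
    PTF (fun a => polm (p a + 1) (ka a) (i a) (x a)) := by
  unfold polm
  refine PTF.mod (PTF.sum (PTF.map (l := fun a => List.range (ka a))
    (g := fun r : α × ℕ => dgt (p r.1 + 1) r.2 (i r.1) * pwm (p r.1 + 1) (x r.1) r.2)
    hka.range ?_)) hp.succ
  exact (GvalPT_dgt (hp.comp PTF.fst).succ PTF.snd (hi.comp PTF.fst)).mul
    (GvalPT_pwm (hp.comp PTF.fst) (hx.comp PTF.fst) PTF.snd)

theorem GvalPT_dgt0 (j i : ℕ) : dgt 0 (j + 1) i = 0 := by
  unfold dgt
  rw [iterate_succ_apply']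
  simp

theorem GvalPT_polm0 (ka i x : ℕ) : polm 0 ka i x = if ka = 0 then 0 else i := by
  unfold polm
  rw [Nat.mod_zero]
  cases ka with
  | zero => simp
  | succ ka =>
    rw [if_neg (Nat.succ_ne_zero ka), List.range_succ_eq_map, List.map_cons, List.sum_cons,
      List.map_map]
    have h1 : dgt 0 0 i * pwm 0 x 0 = i := by
      unfold dgt pwm
      simp
    have h2 : (List.map ((fun j => dgt 0 j i * pwm 0 x j) ∘ Nat.succ) (List.range ka)).sum = 0 := by
      apply List.sum_eq_zero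
      intro y hy
      obtain ⟨j, _, rfl⟩ := List.mem_map.1 hy
      show dgt 0 (j + 1) i * _ = 0
      rw [GvalPT_dgt0, Nat.zero_mul]
    rw [h1, h2]
    rfl

theorem GvalPT_polm {p ka i x : α → ℕ} (hp : PTF p) (hka : PTF ka) (hi : PTF i) (hx : PTF x) :
    PTF (fun a => polm (p a) (ka a) (i a) (x a)) := by
  have h : PTF (fun a => if p a = 0 then (if ka a = 0 then 0 else i a) else
      polm (p a - 1 + 1) (ka a) (i a) (x a)) :=
    PTF.ite (hp.eq (PTF.const 0)) (PTF.ite (hka.eq (PTF.const 0)) (PTF.const 0) hi)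
      (GvalPT_polm1 hp.pred hka hi hx)
  refine h.congr (fun a => ?_)
  by_cases h0 : p a = 0
  · rw [if_pos h0, h0, GvalPT_polm0]
  · rw [if_neg h0, Nat.sub_add_cancel (Nat.one_le_iff_ne_zero.2 h0)]

theorem GvalPT_sval {p ka B c i v : α → ℕ} (hp : PTF p) (hka : PTF ka) (hB : PTF B) (hc : PTF c)
    (hi : PTF i) (hv : PTF v) :
    PTF (fun a => sval (p a) (ka a) (B a) (c a) (i a) (v a)) := by
  unfold sval
  exact GvalPT_dgt hB ((hv.mul hp).add (GvalPT_polm hp hka hi hv)) hc

theorem GvalPT_tau {t : α → ℕ} (ht : PTF t) : PTF (fun a => tauN (t a)) := by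
  unfold tauN
  exact sqrt_ptf ((ht.mul ht).div (PTF.const 2))

theorem GvalPT_gmat {q a n p ka B c i l x y : α → ℕ} (hq : PTF q) (ha : PTF a) (hn : PTF n)
    (hp : PTF p) (hka : PTF ka) (hB : PTF B) (hc : PTF c) (hi : PTF i) (hl : PTF l) (hx : PTF x)
    (hy : PTF y) :
    PTF (fun r => gmat (q r + 1) (a r) (n r) (p r) (ka r) (B r) (c r) (i r) (l r) (x r) (y r)) := by
  unfold gmat
  refine PTF.foldl_add (l := fun r => List.range (a r))
    (init := fun r => sval (p r) (ka r) (B r) (c r) (i r)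
      (((a r + l r) * n r + x r) * n r + y r) % (q r + 1))
    (step := fun s : α × (ℕ × ℕ) => if tauN s.2.2 = l s.1 then
      s.2.1 * sval (p s.1) (ka s.1) (B s.1) (c s.1) (i s.1)
        ((s.2.2 * n s.1 + x s.1) * n s.1 + y s.1) % (q s.1 + 1) else s.2.1)
    ha.range ?_ ?_ (fun r => 2 * q r + 4)
    (((hq.size.add (PB.const 4)).mono (fun r => by rw [sz_nat]; omega))) (fun r s b _ => ?_)
  · exact (GvalPT_sval hp hka hB hc hi (((((ha.add hl).mul hn).add hx).mul hn).add hy)).mod hq.succ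
  · have ht : PTF (fun s : α × (ℕ × ℕ) => s.2.2) := PTF.snd.comp PTF.snd
    have hz : PTF (fun s : α × (ℕ × ℕ) => s.2.1) := PTF.fst.comp PTF.snd
    refine PTF.ite ((GvalPT_tau ht).eq (hl.comp PTF.fst)) ?_ hz
    refine (hz.mul ?_).mod (hq.comp PTF.fst).succ
    exact GvalPT_sval (hp.comp PTF.fst) (hka.comp PTF.fst) (hB.comp PTF.fst) (hc.comp PTF.fst)
      (hi.comp PTF.fst) ((((ht.mul (hn.comp PTF.fst)).add (hx.comp PTF.fst)).mul
      (hn.comp PTF.fst)).add (hy.comp PTF.fst))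
  · show sz (if tauN b = l r then s * sval (p r) (ka r) (B r) (c r) (i r)
        ((b * n r + x r) * n r + y r) % (q r + 1) else s) ≤ _
    have hm : ∀ k : ℕ, sz (k % (q r + 1)) ≤ 2 * q r + 1 := by
      intro k
      rw [sz_nat]
      have : k % (q r + 1) < q r + 1 := Nat.mod_lt k (Nat.succ_pos _)
      omega
    split_ifs
    · exact (hm _).trans (by omega)
    · omega

theorem GvalPT_gstep {q a n p ka B c i l : α → ℕ} {vec : α → List ℕ} (hq : PTF q) (ha : PTF a)
    (hn : PTF n) (hp : PTF p) (hka : PTF ka) (hB : PTF B) (hc : PTF c) (hi : PTF i)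
    (hv : PTF vec) (hl : PTF l) :
    PTF (fun r => gstep (q r + 1) (a r) (n r) (p r) (ka r) (B r) (c r) (i r) (vec r) (l r)) := by
  unfold gstep
  refine PTF.map (l := fun r => List.range (n r))
    (g := fun s : α × ℕ => ((List.range (n s.1)).map fun x => (vec s.1).getD x 0 *
      gmat (q s.1 + 1) (a s.1) (n s.1) (p s.1) (ka s.1) (B s.1) (c s.1) (i s.1) (l s.1) x s.2).sum %
      (q s.1 + 1)) hn.range ?_
  refine PTF.mod (PTF.sum (PTF.map (l := fun s : α × ℕ => List.range (n s.1))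
    (g := fun u : (α × ℕ) × ℕ => (vec u.1.1).getD u.2 0 *
      gmat (q u.1.1 + 1) (a u.1.1) (n u.1.1) (p u.1.1) (ka u.1.1) (B u.1.1) (c u.1.1) (i u.1.1)
        (l u.1.1) u.2 u.1.2) (hn.comp PTF.fst).range ?_)) (hq.comp PTF.fst).succ
  have e : PTF (fun u : (α × ℕ) × ℕ => u.1.1) := PTF.fst.comp PTF.fst
  exact ((hv.comp e).getD PTF.snd (PTF.const 0)).mul
    (GvalPT_gmat (hq.comp e) (ha.comp e) (hn.comp e) (hp.comp e) (hka.comp e) (hB.comp e)
      (hc.comp e) (hi.comp e) (hl.comp e) PTF.snd (PTF.snd.comp PTF.fst))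

theorem GvalPT_bd (q a n p ka B c i : ℕ) (L : List ℕ) :
    (L.foldl (gstep (q + 1) a n p ka B c i)
      ((List.range n).map fun x => if x = 0 then 1 % (q + 1) else 0)).length = n ∧
    ∀ b ∈ (L.foldl (gstep (q + 1) a n p ka B c i)
      ((List.range n).map fun x => if x = 0 then 1 % (q + 1) else 0)), sz b ≤ 2 * q + 1 := by
  have hm : ∀ k : ℕ, sz (k % (q + 1)) ≤ 2 * q + 1 := by
    intro k
    rw [sz_nat]
    have : k % (q + 1) < q + 1 := Nat.mod_lt k (Nat.succ_pos _)
    omega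
  induction L using List.reverseRecOn with
  | nil =>
    rw [List.foldl_nil]
    refine ⟨by simp, fun b hb => ?_⟩
    obtain ⟨x, _, rfl⟩ := List.mem_map.1 hb
    split_ifs
    · exact hm _
    · rw [sz_nat]; omega
  | append_singleton L l _ =>
    rw [List.foldl_append, List.foldl_cons, List.foldl_nil]
    unfold gstep
    refine ⟨by simp, fun b hb => ?_⟩
    obtain ⟨x, _, rfl⟩ := List.mem_map.1 hb
    exact hm _

/-- The program for the generator runs in polynomial time. -/
theorem pr_GvalPT : S_GvalPT := by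
  intro α _ q m a n p ka B c i hq hm ha hn hp hka hB hc hi
  unfold gval
  refine PTF.getD ?_ (PTF.const 0) (PTF.const 0)
  have e : PTF (fun u : α × (List ℕ × ℕ) => u.1) := PTF.fst
  refine PTF.foldl (l := fun x => List.range (m x))
    (init := fun x => (List.range (n x)).map fun y => if y = 0 then 1 % (q x + 1) else 0)
    (step := fun u : α × (List ℕ × ℕ) => gstep (q u.1 + 1) (a u.1) (n u.1) (p u.1) (ka u.1)
      (B u.1) (c u.1) (i u.1) u.2.1 u.2.2) hm.range ?_
    (GvalPT_gstep (hq.comp e) (ha.comp e) (hn.comp e) (hp.comp e) (hka.comp e) (hB.comp e)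
      (hc.comp e) (hi.comp e) (PTF.fst.comp PTF.snd) (PTF.snd.comp PTF.snd))
    (fun x => sz (n x) * (sz (q x) + 1) + 1)
    ((hn.size.mul (hq.size.add (PB.const 1))).add (PB.const 1)) (fun x l1 l2 _ => ?_)
  · exact PTF.map (l := fun x => List.range (n x))
      (g := fun s : α × ℕ => if s.2 = 0 then 1 % (q s.1 + 1) else 0) hn.range
      (PTF.ite (PTF.snd.eq (PTF.const 0)) ((PTF.const 1).mod (hq.comp PTF.fst).succ)
        (PTF.const 0))
  · obtain ⟨h1, h2⟩ := GvalPT_bd (q x) (a x) (n x) (p x) (ka x) (B x) (c x) (i x) l1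
    refine (sz_list_le h2).trans ?_
    rw [h1]
    refine Nat.add_le_add_right (Nat.mul_le_mul ?_ ?_) 1
    · rw [sz_nat]; omega
    · rw [sz_nat]

end Pool.Agent.Work.MP_3c5c20_lc.QP

end

section

/-!
# Choice of the parameters
-/

set_option autoImplicit false

namespace Pool.Agent.Work.MP_3c5c20_lc.QP

open MvPolynomial Pool.Agent.PT Pool.Agent.PIT Pool.Agent.Work.MP_499dc6_lc.CD
  Pool.Agent.Work.MP_499dc6_lc.CDG Pool.Agent.Work.MP_3c5c20_lc.PIT

theorem Num_lg (n : ℕ) : 3 ≤ lg n := by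
  unfold lg
  have : 2 ≤ Nat.log 2 (n + 5) := by
    apply Nat.le_log_of_pow_le (by norm_num)
    omega
  omega

theorem Num_self (L : ℕ) (_hL : 3 ≤ L) (T : ℕ) (hT : 1 ≤ T) : L ≤ L ^ T :=
  Nat.le_self_pow (by omega) L

/-- All bounds, for a number `m ≤ L ^ T`. -/
theorem Num_bounds (L T m n p B a : ℕ) (hL : 3 ≤ L) (hT : 7 ≤ T) (hn : n + 5 < 2 ^ L)
    (hm : m ≤ L ^ T) (hm1 : 1 ≤ m) (ha : a ≤ 2 * m) (hp : p ≤ 2 * ((a + m) * m ^ 10 * m ^ 10))
    (hB : B = n * (a + m) + 1) (K : ℕ) (hK : 46 * T ≤ K) :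
    m < 2 ^ L ^ K ∧ a < 2 ^ L ^ K ∧ m ^ 10 < 2 ^ L ^ K ∧ p < 2 ^ L ^ K ∧ L < 2 ^ L ^ K ∧
    B < 2 ^ L ^ K ∧ B ^ (p * p) ≤ 2 ^ L ^ K ∧
    ((m ^ 10) ^ (m + 1) * B ^ (m + a) + n + 5) ^ 4 < 2 ^ L ^ K := by
  have hL0 : 0 < L := by omega
  have mono : ∀ {i j : ℕ}, i ≤ j → L ^ i ≤ L ^ j := fun h => Nat.pow_le_pow_right hL0 h
  have h3 : ∀ i, 3 * L ^ i ≤ L ^ (i + 1) := fun i => by
    rw [pow_succ, mul_comm]; exact Nat.mul_le_mul_left _ hL
  have fin : ∀ {x i : ℕ}, x ≤ L ^ i → i ≤ K → x < 2 ^ L ^ K := fun {x i} hx hi =>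
    lt_of_le_of_lt (hx.trans (mono hi)) Nat.lt_two_pow_self
  have hLT : L ≤ L ^ T := Nat.le_self_pow (by omega) L
  have hTL : 1 ≤ L ^ T := Nat.one_le_pow _ _ hL0
  have hap : a ≤ L ^ (T + 1) := by
    have := h3 T
    omega
  have hm10 : m ^ 10 ≤ L ^ (10 * T) := by
    calc m ^ 10 ≤ (L ^ T) ^ 10 := Nat.pow_le_pow_left hm 10
      _ = L ^ (10 * T) := by rw [← pow_mul, mul_comm]
  have hpp : p ≤ L ^ (22 * T) := by
    calc p ≤ 2 * ((a + m) * m ^ 10 * m ^ 10) := hp
      _ ≤ 2 * ((3 * L ^ T) * L ^ (10 * T) * L ^ (10 * T)) := by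
          gcongr
          omega
      _ = 6 * L ^ (21 * T) := by
          rw [show 21 * T = T + 10 * T + 10 * T by ring, pow_add, pow_add]; ring
      _ ≤ L ^ 2 * L ^ (21 * T) := by
          gcongr
          calc 6 ≤ 3 ^ 2 := by norm_num
            _ ≤ L ^ 2 := Nat.pow_le_pow_left hL 2
      _ = L ^ (2 + 21 * T) := by rw [pow_add]
      _ ≤ L ^ (22 * T) := mono (by omega)
  have hB2 : B ≤ 2 ^ L ^ (T + 1) := by
    have h1 : B ≤ 2 ^ L * (a + m + 1) := by
      rw [hB]
      calc n * (a + m) + 1 ≤ 2 ^ L * (a + m) + 2 ^ L := by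
            have : n ≤ 2 ^ L := by omega
            have h2 : 1 ≤ 2 ^ L := Nat.one_le_two_pow
            have := Nat.mul_le_mul_right (a + m) this
            omega
        _ = 2 ^ L * (a + m + 1) := by ring
    have h2 : a + m + 1 ≤ 2 ^ (2 * L ^ T) := by
      have h4 : a + m + 1 ≤ 4 * L ^ T := by omega
      have h5 : 4 * L ^ T ≤ 2 ^ 2 * 2 ^ (L ^ T) := by
        have := (Nat.lt_two_pow_self (n := L ^ T)).le
        omega
      calc a + m + 1 ≤ 4 * L ^ T := h4
        _ ≤ 2 ^ 2 * 2 ^ (L ^ T) := h5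
        _ = 2 ^ (2 + L ^ T) := by rw [pow_add]
        _ ≤ 2 ^ (2 * L ^ T) := Nat.pow_le_pow_right (by norm_num) (by omega)
    calc B ≤ 2 ^ L * (a + m + 1) := h1
      _ ≤ 2 ^ L * 2 ^ (2 * L ^ T) := Nat.mul_le_mul_left _ h2
      _ = 2 ^ (L + 2 * L ^ T) := by rw [pow_add]
      _ ≤ 2 ^ L ^ (T + 1) := Nat.pow_le_pow_right (by norm_num) (by have := h3 T; omega)
  have hBpp : B ^ (p * p) ≤ 2 ^ L ^ (45 * T + 1) := by
    calc B ^ (p * p) ≤ (2 ^ L ^ (T + 1)) ^ (p * p) := Nat.pow_le_pow_left hB2 _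
      _ = 2 ^ (L ^ (T + 1) * (p * p)) := by rw [← pow_mul]
      _ ≤ 2 ^ (L ^ (T + 1) * (L ^ (22 * T) * L ^ (22 * T))) :=
          Nat.pow_le_pow_right (by norm_num) (Nat.mul_le_mul_left _ (Nat.mul_le_mul hpp hpp))
      _ = 2 ^ L ^ (45 * T + 1) := by
          rw [← pow_add, ← pow_add]
          congr 2
          ring
  refine ⟨fin hm (by omega), fin hap (by omega), fin hm10 (by omega), fin hpp (by omega),
    fin (Num_self L hL T (by omega)) (by omega), ?_, ?_, ?_⟩
  · calc B ≤ 2 ^ L ^ (T + 1) := hB2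
      _ < 2 ^ L ^ K := Nat.pow_lt_pow_right (by norm_num)
          (Nat.pow_lt_pow_right (by omega) (by omega))
  · exact hBpp.trans (Nat.pow_le_pow_right (by norm_num) (mono (by omega)))
  · have h1 : (m ^ 10) ^ (m + 1) ≤ 2 ^ L ^ (2 * T + 3) := by
      calc (m ^ 10) ^ (m + 1) = m ^ (10 * (m + 1)) := by rw [← pow_mul]
        _ ≤ (2 ^ m) ^ (10 * (m + 1)) := Nat.pow_le_pow_left Nat.lt_two_pow_self.le _
        _ = 2 ^ (m * (10 * (m + 1))) := by rw [← pow_mul]
        _ ≤ 2 ^ L ^ (2 * T + 3) := by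
            apply Nat.pow_le_pow_right (by norm_num)
            calc m * (10 * (m + 1)) ≤ m * (20 * m) := Nat.mul_le_mul_left _ (by omega)
              _ ≤ L ^ T * (L ^ 3 * L ^ T) := by
                  apply Nat.mul_le_mul hm
                  apply Nat.mul_le_mul _ hm
                  calc 20 ≤ 3 ^ 3 := by norm_num
                    _ ≤ L ^ 3 := Nat.pow_le_pow_left hL 3
              _ = L ^ (2 * T + 3) := by rw [← pow_add, ← pow_add]; congr 1; ring
    have h2 : B ^ (m + a) ≤ 2 ^ L ^ (2 * T + 3) := by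
      calc B ^ (m + a) ≤ (2 ^ L ^ (T + 1)) ^ (m + a) := Nat.pow_le_pow_left hB2 _
        _ = 2 ^ (L ^ (T + 1) * (m + a)) := by rw [← pow_mul]
        _ ≤ 2 ^ L ^ (2 * T + 3) := by
            apply Nat.pow_le_pow_right (by norm_num)
            calc L ^ (T + 1) * (m + a) ≤ L ^ (T + 1) * L ^ (T + 1) :=
                  Nat.mul_le_mul_left _ (by have := h3 T; omega)
              _ = L ^ (2 * T + 2) := by rw [← pow_add]; congr 1; ring
              _ ≤ L ^ (2 * T + 3) := mono (by omega)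
    have h4 : n + 5 ≤ 2 ^ (2 * L ^ (2 * T + 3)) := by
      calc n + 5 ≤ 2 ^ L := hn.le
        _ ≤ 2 ^ (2 * L ^ (2 * T + 3)) := by
            apply Nat.pow_le_pow_right (by norm_num)
            have := Nat.le_self_pow (n := 2 * T + 3) (by omega) L
            omega
    have h5 : (m ^ 10) ^ (m + 1) * B ^ (m + a) + n + 5 ≤ 2 ^ (2 * L ^ (2 * T + 3) + 1) := by
      have h6 : (m ^ 10) ^ (m + 1) * B ^ (m + a) ≤ 2 ^ (2 * L ^ (2 * T + 3)) := by
        calc (m ^ 10) ^ (m + 1) * B ^ (m + a) ≤ 2 ^ L ^ (2 * T + 3) * 2 ^ L ^ (2 * T + 3) :=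
              Nat.mul_le_mul h1 h2
          _ = 2 ^ (2 * L ^ (2 * T + 3)) := by rw [← pow_add]; congr 1; ring
      calc (m ^ 10) ^ (m + 1) * B ^ (m + a) + n + 5
          = (m ^ 10) ^ (m + 1) * B ^ (m + a) + (n + 5) := by ring
        _ ≤ 2 ^ (2 * L ^ (2 * T + 3)) + 2 ^ (2 * L ^ (2 * T + 3)) := Nat.add_le_add h6 h4
        _ = 2 ^ (2 * L ^ (2 * T + 3) + 1) := by rw [pow_succ]; ring
    calc ((m ^ 10) ^ (m + 1) * B ^ (m + a) + n + 5) ^ 4 ≤ (2 ^ (2 * L ^ (2 * T + 3) + 1)) ^ 4 :=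
          Nat.pow_le_pow_left h5 4
      _ = 2 ^ ((2 * L ^ (2 * T + 3) + 1) * 4) := by rw [← pow_mul]
      _ < 2 ^ L ^ K := by
          apply Nat.pow_lt_pow_right (by norm_num)
          have h7 : (2 * L ^ (2 * T + 3) + 1) * 4 < L ^ (2 * T + 6) := by
            have h8 : 27 * L ^ (2 * T + 3) ≤ L ^ (2 * T + 6) := by
              calc 27 * L ^ (2 * T + 3) ≤ L ^ 3 * L ^ (2 * T + 3) := by
                    apply Nat.mul_le_mul_right
                    calc 27 = 3 ^ 3 := by norm_num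
                      _ ≤ L ^ 3 := Nat.pow_le_pow_left hL 3
                _ = L ^ (2 * T + 6) := by rw [← pow_add]; congr 1; ring
            have h9 : 1 ≤ L ^ (2 * T + 3) := Nat.one_le_pow _ _ hL0
            omega
          exact lt_of_lt_of_le h7 (mono (by omega))

theorem pr_Num : (∀ m : ℕ, aa m ≤ 2 * m) → S_Num := by
  intro haa
  refine ⟨10 ^ 6, fun D n => ?_⟩
  obtain ⟨L, hLdef⟩ : ∃ L, L = lg n := ⟨_, rfl⟩
  have hL : 3 ≤ L := by rw [hLdef]; exact Num_lg n
  have hn : n + 5 < 2 ^ L := by rw [hLdef]; exact lt_two_pow_lg n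
  obtain ⟨Q, hQdef⟩ : ∃ Q, Q = 10 ^ (2 * D + 3) := ⟨_, rfl⟩
  have hQ : Q = 1000 * 100 ^ D := by
    rw [hQdef, pow_add, pow_mul]; norm_num; ring
  have hQ1 : 1000 ≤ Q := by
    rw [hQ]
    have : 1 ≤ 100 ^ D := Nat.one_le_pow _ _ (by norm_num)
    omega
  obtain ⟨m, hmdef⟩ : ∃ m, m = (1028 * L) ^ Q + 1 := ⟨_, rfl⟩
  have hm1 : 1 ≤ m := by omega
  have hmT : m ≤ L ^ (9 * Q) := by
    have h1 : 1028 * L ≤ L ^ 8 := by
      calc 1028 * L ≤ L ^ 7 * L := by
            apply Nat.mul_le_mul_right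
            calc 1028 ≤ 3 ^ 7 := by norm_num
              _ ≤ L ^ 7 := Nat.pow_le_pow_left hL 7
        _ = L ^ 8 := by ring
    have h2 : (1028 * L) ^ Q ≤ L ^ (8 * Q) := by
      calc (1028 * L) ^ Q ≤ (L ^ 8) ^ Q := Nat.pow_le_pow_left h1 Q
        _ = L ^ (8 * Q) := by rw [← pow_mul]
    have h3 : 1 ≤ L ^ (8 * Q) := Nat.one_le_pow _ _ (by omega)
    calc m ≤ 2 * L ^ (8 * Q) := by omega
      _ ≤ L ^ (8 * Q) * L := by nlinarith
      _ = L ^ (8 * Q + 1) := by rw [pow_succ]
      _ ≤ L ^ (9 * Q) := Nat.pow_le_pow_right (by omega) (by omega)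
  have hW0 : (aa m + m) * m ^ 10 * m ^ 10 ≠ 0 := by positivity
  obtain ⟨p, hp, hWp, hp2⟩ := Nat.exists_prime_lt_and_le_two_mul _ hW0
  have hbd := Num_bounds L (9 * Q) m n p (n * (aa m + m) + 1) (aa m) hL (by omega) hn hmT hm1
    (haa m) hp2 rfl (10 ^ 6 * 100 ^ D) (by rw [hQ]; omega)
  refine ⟨m, p, L, n * (aa m + m) + 1, by omega, by omega, hp, ?_, ?_, hWp.le, by omega, ?_⟩
  · calc n ≤ 2 ^ L := by omega
      _ ≤ p ^ L := Nat.pow_le_pow_left hp.two_le L
  · have hlog : Real.log ((n : ℝ) + 1) ≤ L := by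
      have h1 : ((n : ℝ) + 1) ≤ Real.exp L := by
        have h2 : ((n : ℝ) + 1) ≤ 2 ^ L := by
          have : n + 1 ≤ 2 ^ L := by omega
          exact_mod_cast this
        have h3 : (2 : ℝ) ^ L ≤ Real.exp L := by
          have h4 : (2 : ℝ) ≤ Real.exp 1 := by
            have := Real.add_one_le_exp 1
            linarith
          calc (2 : ℝ) ^ L ≤ (Real.exp 1) ^ L := by gcongr
            _ = Real.exp L := by rw [← Real.exp_nat_mul, mul_one]
        linarith
      calc Real.log ((n : ℝ) + 1) ≤ Real.log (Real.exp L) := Real.log_le_log (by positivity) h1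
        _ = L := Real.log_exp _
    have hlog0 : 0 ≤ Real.log ((n : ℝ) + 1) := Real.log_nonneg (by
      have : (0 : ℝ) ≤ n := Nat.cast_nonneg n
      linarith)
    have hLr : (3 : ℝ) ≤ L := by exact_mod_cast hL
    have hbase : 257 * (Real.log ((n : ℝ) + 1) + ((1 * L : ℕ) : ℝ) + ((0 : ℕ) : ℝ) + 1 +
        Real.log ((n : ℝ) + 1)) ≤ 1028 * (L : ℝ) := by
      push_cast
      linarith
    have hbase0 : 0 ≤ 257 * (Real.log ((n : ℝ) + 1) + ((1 * L : ℕ) : ℝ) + ((0 : ℕ) : ℝ) + 1 +
        Real.log ((n : ℝ) + 1)) := by positivity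
    rw [← hQdef]
    calc (257 * (Real.log ((n : ℝ) + 1) + ((1 * L : ℕ) : ℝ) + ((0 : ℕ) : ℝ) + 1 +
        Real.log ((n : ℝ) + 1))) ^ Q ≤ (1028 * (L : ℝ)) ^ Q := pow_le_pow_left₀ hbase0 hbase Q
      _ < (1028 * (L : ℝ)) ^ Q + 1 := by linarith
      _ = (m : ℝ) := by rw [hmdef]; push_cast; ring
  · rw [← hLdef]
    exact hbd

end Pool.Agent.Work.MP_3c5c20_lc.QP

end

section

set_option autoImplicit false

namespace Pool.Agent.Work.MP_3c5c20_lc.QP

open MvPolynomial Pool.Agent.PT Pool.Agent.PIT Pool.Agent.Work.MP_499dc6_lc.CD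
  Pool.Agent.Work.MP_499dc6_lc.CDG Pool.Agent.Work.MP_3c5c20_lc.PIT

theorem Polm_iter (b : ℕ) : ∀ k c : ℕ, (fun x => x / b)^[k] c = c / b ^ k := by
  intro k
  induction k with
  | zero => intro c; simp
  | succ k ih =>
    intro c
    rw [Function.iterate_succ_apply, ih, Nat.div_div_eq_div_mul, pow_succ, mul_comm]

theorem Polm_dgt (b k c : ℕ) : dgt b k c = c / b ^ k % b := by
  rw [dgt, Polm_iter]

theorem Polm_pwm (p x : ℕ) : ∀ j : ℕ, Nat.ModEq p (pwm p x j) (x ^ j) := by
  intro j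
  induction j with
  | zero => simp [pwm, Nat.ModEq]
  | succ j ih =>
    have h : pwm p x (j + 1) = pwm p x j * x % p := by
      simp only [pwm, Function.iterate_succ_apply']
    rw [h, pow_succ]
    exact (Nat.mod_modEq _ _).trans (ih.mul_right x)

theorem Polm_sum (f : ℕ → ℕ) : ∀ n : ℕ, ((List.range n).map f).sum = ∑ c ∈ Finset.range n, f c := by
  intro n
  induction n with
  | zero => simp
  | succ n ih => rw [List.range_succ, Finset.sum_range_succ]; simp [ih]

theorem Polm_modsum (p : ℕ) (f g : ℕ → ℕ) (h : ∀ c, Nat.ModEq p (f c) (g c)) :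
    ∀ n : ℕ, Nat.ModEq p (∑ c ∈ Finset.range n, f c) (∑ c ∈ Finset.range n, g c) := by
  intro n
  induction n with
  | zero => exact Nat.ModEq.refl _
  | succ n ih => rw [Finset.sum_range_succ, Finset.sum_range_succ]; exact ih.add (h n)

theorem pr_Polm : S_Polm := by
  refine ⟨Polm_dgt, ?_⟩
  intro p _ ka i x
  have h1 : ((dig p ka i x : Fin p) : ℕ) = (∑ c ∈ Finset.range ka, i / p ^ c % p * x ^ c) % p := by
    simp [dig]
  rw [h1, polm, Polm_sum]
  apply Polm_modsum
  intro c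
  rw [Polm_dgt]
  exact (Polm_pwm p x c).mul_left _

end Pool.Agent.Work.MP_3c5c20_lc.QP

end

section

set_option autoImplicit false

namespace Pool.Agent.Work.MP_3c5c20_lc.QP

open MvPolynomial Pool.Agent.PT Pool.Agent.PIT

/-- Soundness. -/
theorem pr_Sound : S_Sound := by
  intro N E hE h
  unfold galg at h
  rw [List.any_eq_true] at h
  obtain ⟨u, _, h⟩ := h
  unfold gtest at h
  have h' : evalT (dgt N 0 u + 1) (genv (dgt N 0 u + 1) (dgt N 1 u) (dgt N 2 u) (dgt N 3 u)
      (dgt N 4 u) (dgt N 5 u) (dgt N 6 u) (dgt N 7 u) (dedupN (namesT E.toks))) E.toks ≠ 0 := by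
    simpa using h
  rw [evalT_ne_zero] at h'
  exact Ex.poly_ne_zero_of_nd hE _ h'

end Pool.Agent.Work.MP_3c5c20_lc.QP

end

section

set_option autoImplicit false

namespace Pool.Agent.Work.MP_3c5c20_lc.QP

open Pool.Agent.Work.MP_499dc6_lc.CD

theorem TauN_fl (t : ℕ) : ⌊(t : ℝ) / √2⌋₊ = tauN t := by
  unfold tauN
  have h1 : Nat.sqrt (t * t / 2) * Nat.sqrt (t * t / 2) ≤ t * t / 2 := Nat.sqrt_le _
  have h2 : t * t / 2 < (Nat.sqrt (t * t / 2) + 1) * (Nat.sqrt (t * t / 2) + 1) :=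
    Nat.lt_succ_sqrt _
  generalize Nat.sqrt (t * t / 2) = k at h1 h2
  have h3 : 2 * (k * k) ≤ t * t := by omega
  have h4 : t * t < 2 * ((k + 1) * (k + 1)) := by omega
  have h3' : (2 : ℝ) * (k * k) ≤ t * t := by exact_mod_cast h3
  have h4' : (t : ℝ) * t < 2 * ((k + 1) * (k + 1)) := by exact_mod_cast h4
  have hs : √2 * √2 = (2 : ℝ) := Real.mul_self_sqrt (by norm_num)
  have hs0 : (0 : ℝ) < √2 := by positivity
  have ht : (0 : ℝ) ≤ t := Nat.cast_nonneg t
  have hk : (0 : ℝ) ≤ k := Nat.cast_nonneg k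
  rw [Nat.floor_eq_iff (by positivity)]
  constructor
  · rw [le_div_iff₀ hs0]
    by_contra h
    push Not at h
    have : (t : ℝ) * t < (k * √2) * (k * √2) := mul_self_lt_mul_self ht h
    nlinarith
  · rw [div_lt_iff₀ hs0]
    by_contra h
    push Not at h
    have : ((k + 1) * √2) * ((k + 1) * √2) ≤ (t : ℝ) * t :=
      mul_self_le_mul_self (by positivity) h
    nlinarith

/-- The positions are integer square roots. -/
theorem pr_TauN : S_TauN := by
  refine ⟨fun m t => ?_, fun m => ?_⟩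
  · unfold tau
    exact TauN_fl t
  · unfold aa
    rw [Nat.ceil_le]
    push_cast
    have h : √2 ≤ (2 : ℝ) := by
      rw [Real.sqrt_le_left (by norm_num)]
      norm_num
    exact mul_le_mul_of_nonneg_right h (Nat.cast_nonneg m)

end Pool.Agent.Work.MP_3c5c20_lc.QP

end

section

/-! Item WalkDP: dynamic programming for walks (helper61). -/

set_option autoImplicit false

namespace Pool.Agent.Work.MP_3c5c20_lc.QP

open MvPolynomial Pool.Agent.PT Pool.Agent.PIT Pool.Agent.Work.MP_499dc6_lc.CD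
  Pool.Agent.Work.MP_499dc6_lc.CDG Pool.Agent.Work.MP_3c5c20_lc.PIT

theorem WalkDP_main {R : Type} [CommSemiring R] {n : ℕ} (z0 : Fin n)
    (M : ℕ → Fin n → Fin n → R) (l : ℕ) : ∀ y : Fin n,
    ∑ s : Fin (l + 1) → Fin n, (if s 0 = z0 ∧ s (Fin.last l) = y then
      ∏ i : Fin l, M i (s i.castSucc) (s i.succ) else 0) = wdp z0 M l y := by
  induction l with
  | zero =>
    intro y
    have h1 : ∑ s : Fin (0 + 1) → Fin n, (if s 0 = z0 ∧ s (Fin.last 0) = y then
        ∏ i : Fin 0, M i (s i.castSucc) (s i.succ) else 0) =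
        ∑ x : Fin n, if x = z0 ∧ x = y then (1 : R) else 0 := by
      refine Fintype.sum_equiv (Equiv.funUnique (Fin 1) (Fin n)) _ _ fun s => ?_
      simp only [Finset.univ_eq_empty, Finset.prod_empty]
      rfl
    rw [h1]
    change _ = if y = z0 then (1 : R) else 0
    have h2 : ∀ x : Fin n, (if x = z0 ∧ x = y then (1 : R) else 0) =
        if x = y then (if y = z0 then (1 : R) else 0) else 0 := by
      intro x
      by_cases hx : x = y
      · subst hx
        simp
      · simp [hx]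
    rw [Finset.sum_congr rfl fun x _ => h2 x]
    simp
  | succ l ih =>
    intro y
    change _ = ∑ x, wdp z0 M l x * M l x y
    have h1 : ∑ s : Fin (l + 1 + 1) → Fin n, (if s 0 = z0 ∧ s (Fin.last (l + 1)) = y then
        ∏ i : Fin (l + 1), M i (s i.castSucc) (s i.succ) else 0) =
        ∑ p : Fin n × (Fin (l + 1) → Fin n), (if p.2 0 = z0 ∧ p.1 = y then
          (∏ i : Fin l, M i (p.2 i.castSucc) (p.2 i.succ)) * M l (p.2 (Fin.last l)) p.1
          else 0) := by
      symm
      refine Fintype.sum_equiv (Fin.snocEquiv fun _ => Fin n) _ _ ?_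
      rintro ⟨x, t⟩
      change _ = if (Fin.snoc t x : Fin (l + 1 + 1) → Fin n) 0 = z0 ∧
        (Fin.snoc t x : Fin (l + 1 + 1) → Fin n) (Fin.last (l + 1)) = y then
        ∏ i : Fin (l + 1), M i ((Fin.snoc t x : Fin (l + 1 + 1) → Fin n) i.castSucc)
          ((Fin.snoc t x : Fin (l + 1 + 1) → Fin n) i.succ) else 0
      have e0 : (Fin.snoc t x : Fin (l + 1 + 1) → Fin n) 0 = t 0 := by
        have : (0 : Fin (l + 1 + 1)) = (0 : Fin (l + 1)).castSucc := rfl
        rw [this, Fin.snoc_castSucc (α := fun _ => Fin n)]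
      have e1 : (Fin.snoc t x : Fin (l + 1 + 1) → Fin n) (Fin.last (l + 1)) = x :=
        Fin.snoc_last (α := fun _ => Fin n) x t
      have e2 : ∏ i : Fin (l + 1), M i ((Fin.snoc t x : Fin (l + 1 + 1) → Fin n) i.castSucc)
          ((Fin.snoc t x : Fin (l + 1 + 1) → Fin n) i.succ) =
          (∏ i : Fin l, M i (t i.castSucc) (t i.succ)) * M l (t (Fin.last l)) x := by
        rw [Fin.prod_univ_castSucc]
        congr 1
        · refine Finset.prod_congr rfl fun i _ => ?_
          rw [Fin.snoc_castSucc (α := fun _ => Fin n), Fin.succ_castSucc,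
            Fin.snoc_castSucc (α := fun _ => Fin n)]
          rfl
        · rw [Fin.snoc_castSucc (α := fun _ => Fin n), Fin.succ_last]
          change M l (t (Fin.last l)) ((Fin.snoc t x : Fin (l + 1 + 1) → Fin n)
            (Fin.last (l + 1))) = _
          rw [e1]
      rw [e0, e1, e2]
    rw [h1, Fintype.sum_prod_type_right]
    have h2 : ∀ t : Fin (l + 1) → Fin n, ∑ x : Fin n, (if t 0 = z0 ∧ x = y then
        (∏ i : Fin l, M i (t i.castSucc) (t i.succ)) * M l (t (Fin.last l)) x else 0) =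
        ∑ x : Fin n, (if t 0 = z0 ∧ t (Fin.last l) = x then
          ∏ i : Fin l, M i (t i.castSucc) (t i.succ) else 0) * M l x y := by
      intro t
      by_cases ht : t 0 = z0
      · simp only [ht, true_and]
        rw [Finset.sum_ite_eq' Finset.univ y]
        simp only [ite_mul, zero_mul]
        rw [Finset.sum_ite_eq Finset.univ (t (Fin.last l))]
        simp
      · simp [ht]
    rw [Finset.sum_congr rfl fun t _ => h2 t, Finset.sum_comm]
    refine Finset.sum_congr rfl fun x _ => ?_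
    rw [← Finset.sum_mul, ih x]

theorem pr_WalkDP : S_WalkDP := by
  intro R _ m n z0 M
  rw [← WalkDP_main z0 M m z0, ← Finset.sum_filter]
  symm
  refine Finset.sum_subtype _ ?_ fun s : Fin (m + 1) → Fin n =>
    ∏ i : Fin m, M i (s i.castSucc) (s i.succ)
  intro s
  rw [Finset.mem_filter]
  simp

end Pool.Agent.Work.MP_3c5c20_lc.QP

end

section

/-!
# The machine
-/

set_option autoImplicit false

namespace Pool.Agent.Work.MP_3c5c20_lc.QP

open Pool.Agent.PT Pool.Agent.PIT Function Turing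

/-- The decision procedure on strings. -/
def decideK (solve : ℕ → List Tok → Bool) (x : ℕ × List Sy) : Bool :=
  (parse x.2).isSome && solve x.1 ((parse x.2).getD [])

theorem decideK_iff (solve : ℕ → List Tok → Bool) (k : ℕ) (s : List Sy) :
    decideK solve (k, s) = true ↔ ∃ E, Der 0 s E ∧ solve k E.toks = true := by
  unfold decideK
  cases h : parse s with
  | none =>
    simp only [Option.isSome_none, Bool.false_and, Bool.false_eq_true, false_iff]
    rintro ⟨E, hE, _⟩
    rw [parse_of_der hE] at h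
    simp at h
  | some t =>
    obtain ⟨E, hE, rfl⟩ := der_of_parse h
    simp only [Option.isSome_some, Option.getD_some, Bool.true_and]
    constructor
    · exact fun h => ⟨E, hE, h⟩
    · rintro ⟨E', hE', h'⟩
      rw [der_unique hE hE']
      exact h'

/-- The growth function on strings. -/
def GS1 (x : ℕ × List Sy) : ℕ := 2 ^ lg (tsize ((parse x.2).getD [])) ^ x.1

theorem decideK_gtf {solve : ℕ → List Tok → Bool}
    (hs : GTF (fun x : ℕ × List Tok => 2 ^ lg (tsize x.2) ^ x.1) (fun x => solve x.1 x.2)) :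
    GTF GS1 (decideK solve) := by
  have h1 : PTF (fun x : ℕ × List Sy => (x.1, (parse x.2).getD [])) := by fun_prop
  have h2 : GTF GS1 (fun x : ℕ × List Sy => solve x.1 ((parse x.2).getD [])) :=
    GTF.comp_right (f := fun x : ℕ × List Tok => solve x.1 x.2)
      (g := fun x : ℕ × List Sy => (x.1, (parse x.2).getD [])) hs h1
  have h3 : GTF GS1 (fun x : ℕ × List Sy => (solve x.1 ((parse x.2).getD []), x.2)) :=
    h2.pair (gtf_of_ptf PTF.snd)
  have h4 : PTF (fun p : Bool × List Sy => (parse p.2).isSome && p.1) := by fun_prop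
  exact GTF.comp_left (f := fun p : Bool × List Sy => (parse p.2).isSome && p.1) h4 h3

/-- The decision procedure on bit strings. -/
def decideB (solve : ℕ → List Tok → Bool) (x : ℕ × List Bool) : List Bool :=
  [decideK solve (x.1, sdec x.2)]

/-- The growth function on bit strings. -/
def GS2 (x : ℕ × List Bool) : ℕ := 2 ^ lg (tsize ((parse (sdec x.2)).getD [])) ^ x.1

theorem decideB_gtf {solve : ℕ → List Tok → Bool}
    (hs : GTF (fun x : ℕ × List Tok => 2 ^ lg (tsize x.2) ^ x.1) (fun x => solve x.1 x.2)) :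
    GTF GS2 (decideB solve) := by
  have h1 : PTF (fun x : ℕ × List Bool => (x.1, sdec x.2)) := PTF.fst.pair (sdec_ptf.comp PTF.snd)
  have h2 : GTF GS2 (fun x : ℕ × List Bool => decideK solve (x.1, sdec x.2)) :=
    GTF.comp_right (f := decideK solve) (g := fun x : ℕ × List Bool => (x.1, sdec x.2))
      (decideK_gtf hs) h1
  exact GTF.comp_left (f := fun b : Bool => [b]) (by fun_prop) h2

theorem pairk_time {β : Type} [Enc β] (k : ℕ) :
    TimeF (fun w : β => (k, w)) (fun w => 22 * sz w + 9 * sz k + 16) := by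
  refine ⟨_, _, (CompT.const (enc k)).pair CompT.id, fun w => rfl, fun w => ?_⟩
  show sz w + 1 + sz k + 0 + 13 * sz w + 8 * sz k + 8 * sz w + 15 ≤ 22 * sz w + 9 * sz k + 16
  omega

theorem tsize_sdec_le (w : List Bool) :
    tsize ((parse (sdec w)).getD []) ≤ 40000 * (w.length + 1) := by
  have h1 : tsize ((parse (sdec w)).getD []) ≤ 400 * (sz (sdec w) + 1) := by
    refine (tsize_le _).trans ?_
    cases h : parse (sdec w) with
    | none => simp only [Option.getD_none, sz_nil]; omega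
    | some t => exact sz_parse_le h
  have h2 := sz_sdec_le w
  have h3 := sz_bits_le' w
  omega

theorem lg_le_log (n : ℕ) : lg (40000 * (n + 1)) ≤ (Nat.log 2 n + 2) ^ 6 := by
  have h0 : n + 1 ≤ 2 ^ (Nat.log 2 n + 1) := Nat.lt_pow_succ_log_self (by norm_num) _
  have h1 : 40000 * (n + 1) + 5 ≤ 2 ^ (Nat.log 2 n + 17) := by
    have h2 : 2 ^ (Nat.log 2 n + 17) = 65536 * 2 ^ (Nat.log 2 n + 1) := by
      rw [show Nat.log 2 n + 17 = 16 + (Nat.log 2 n + 1) by ring, pow_add]; norm_num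
    omega
  have h3 : Nat.log 2 (40000 * (n + 1) + 5) ≤ Nat.log 2 n + 17 :=
    (Nat.log_mono_right h1).trans (Nat.log_pow (by norm_num) _).le
  unfold lg
  obtain ⟨x, hx⟩ : ∃ x, Nat.log 2 n = x := ⟨_, rfl⟩
  rw [hx] at h3 ⊢
  have h4 : x + 18 ≤ (x + 2) ^ 6 := by
    have h5 : 2 ^ 5 ≤ (x + 2) ^ 5 := Nat.pow_le_pow_left (by omega) _
    calc x + 18 ≤ 2 ^ 5 * (x + 2) := by omega
      _ ≤ (x + 2) ^ 5 * (x + 2) := Nat.mul_le_mul_right _ h5
      _ = (x + 2) ^ 6 := (pow_succ _ _).symm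
  omega

theorem lg_monoQ {m n : ℕ} (h : m ≤ n) : lg m ≤ lg n := lg_mono h

theorem pr_Machine : S_Machine := by
  intro solve hs
  obtain ⟨Bf, hBf, j, hj⟩ := decideB_gtf hs
  refine ⟨6 + (j + 20), fun k hk => ?_⟩
  -- the time bound as a function of the length
  set tm : ℕ → ℕ := fun n => (2000 * (n + 1) * (k + 1) * 2 ^ (Nat.log 2 n + 2) ^ (6 * k)) ^ (j + 1)
    with htm
  have hX : ∀ n : ℕ, 1 ≤ 2 ^ (Nat.log 2 n + 2) ^ (6 * k) := fun n => Nat.one_le_two_pow
  -- growth on a string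
  have hS : ∀ w : List Bool, GS2 (k, w) ≤ 2 ^ (Nat.log 2 w.length + 2) ^ (6 * k) := by
    intro w
    unfold GS2
    refine Nat.pow_le_pow_right (by norm_num) ?_
    rw [pow_mul]
    exact Nat.pow_le_pow_left ((lg_mono (tsize_sdec_le w)).trans (lg_le_log w.length)) k
  have hcomp := TimeF.comp (f := decideB solve) (g := fun w : List Bool => (k, w)) hBf
    (pairk_time k)
  obtain ⟨M, hM⟩ := hcomp.tm2_raw
  have hmain : ∀ w : List Bool,
      20 * (22 * sz w + 9 * sz k + 16 + Bf (k, w) + 4 * sz w + 8 * sz (k, w) +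
        4 * sz (decideB solve (k, w)) + 8) + 100 * sz w + 100 ≤
      23 * tm w.length := by
    intro w
    have h1 : Bf (k, w) ≤ (sz (k, w) + GS2 (k, w) + 2) ^ j := hj (k, w)
    have h2 := sz_bits_le' w
    have h3 : sz (k, w) = sz k + sz w + 1 := sz_pair _ _
    have h4 : sz k = 2 * k + 1 := sz_nat k
    have h5 : sz (decideB solve (k, w)) ≤ 5 := by
      unfold decideB
      rw [sz_cons, sz_nil]
      have := sz_bool (decideK solve ((k, w).1, sdec (k, w).2))
      omega
    have h6 := hS w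
    have h7 : (sz (k, w) + GS2 (k, w) + 2) ^ j ≤ tm w.length := by
      have h8 : sz (k, w) + GS2 (k, w) + 2 ≤
          2000 * (w.length + 1) * (k + 1) * 2 ^ (Nat.log 2 w.length + 2) ^ (6 * k) := by
        have h9 := hX w.length
        generalize 2 ^ (Nat.log 2 w.length + 2) ^ (6 * k) = Y at h6 h9 ⊢
        have h10 : sz (k, w) + GS2 (k, w) + 2 ≤ (2 * k + 4 * w.length + 6) + Y := by omega
        have h11 : 2 * k + 4 * w.length + 7 ≤ 2000 * (w.length + 1) * (k + 1) := by nlinarith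
        calc sz (k, w) + GS2 (k, w) + 2 ≤ (2 * k + 4 * w.length + 6) * 1 + Y := by omega
          _ ≤ (2 * k + 4 * w.length + 6) * Y + Y :=
              Nat.add_le_add_right (Nat.mul_le_mul_left _ h9) _
          _ = (2 * k + 4 * w.length + 7) * Y := by ring
          _ ≤ _ := Nat.mul_le_mul_right _ h11
      calc (sz (k, w) + GS2 (k, w) + 2) ^ j ≤
          (2000 * (w.length + 1) * (k + 1) * 2 ^ (Nat.log 2 w.length + 2) ^ (6 * k)) ^ j :=
            Nat.pow_le_pow_left h8 _
        _ ≤ tm w.length := Nat.pow_le_pow_right (by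
            have := hX w.length
            positivity) (by omega)
    have h12 : 20 * (22 * sz w + 9 * sz k + 16 + 4 * sz w + 8 * sz (k, w) + 4 * 5 + 8) +
        100 * sz w + 100 ≤ 2000 * (w.length + 1) * (k + 1) * 3 := by
      rw [h3, h4]
      nlinarith
    have h13 : 2000 * (w.length + 1) * (k + 1) ≤ tm w.length := by
      have h9 := hX w.length
      have h14 : 2000 * (w.length + 1) * (k + 1) ≤
          2000 * (w.length + 1) * (k + 1) * 2 ^ (Nat.log 2 w.length + 2) ^ (6 * k) :=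
        Nat.le_mul_of_pos_right _ h9
      exact h14.trans (Nat.le_self_pow (by omega) _)
    have h15 : Bf (k, w) ≤ tm w.length := h1.trans h7
    omega
  refine ⟨fun s => decideK solve (k, s), { M with
    time := fun n => 23 * tm n
    outputsFun := fun s => Classical.choice ?_ }, fun s => decideK_iff solve k s, fun n => ?_⟩
  · have hs := hM (scode s)
    have h6 : decideB solve (k, scode s) = [decideK solve (k, s)] := by
      rw [decideB, sdec_scode]
    rw [h6] at hs
    obtain ⟨⟨h4, h5⟩⟩ := hs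
    refine ⟨⟨h4, h5.trans ?_⟩⟩
    have h7 := hmain (scode s)
    rw [h6] at h7
    exact h7
  · show 23 * tm n ≤ _
    rw [htm]
    obtain ⟨X, hX'⟩ : ∃ X, Nat.log 2 n + 2 = X := ⟨_, rfl⟩
    have hX2 : 2 ≤ X := by omega
    have h0 : n + 1 ≤ 2 ^ X := by
      have h1 : n < 2 ^ (Nat.log 2 n + 1) := Nat.lt_pow_succ_log_self (by norm_num) _
      have h2 : 2 ^ (Nat.log 2 n + 1) ≤ 2 ^ X := Nat.pow_le_pow_right (by norm_num) (by omega)
      omega
    simp only [hX']
    have hk1 : k + 1 ≤ 2 ^ k := Nat.lt_two_pow_self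
    have hk2 : k ≤ X ^ (6 * k) := by
      calc k ≤ 2 ^ k := Nat.lt_two_pow_self.le
        _ ≤ X ^ k := Nat.pow_le_pow_left hX2 _
        _ ≤ X ^ (6 * k) := Nat.pow_le_pow_right (by omega) (by omega)
    have hX3 : X ≤ X ^ (6 * k) := Nat.le_self_pow (by omega) _
    have hX4 : 11 + X + k + X ^ (6 * k) ≤ X ^ (6 * k + 4) := by
      have h1 : 2 ^ 4 ≤ X ^ 4 := Nat.pow_le_pow_left hX2 _
      have h2 : 1 ≤ X ^ (6 * k) := Nat.one_le_pow _ _ (by omega)
      calc 11 + X + k + X ^ (6 * k) ≤ X ^ (6 * k) * 2 ^ 4 := by omega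
        _ ≤ X ^ (6 * k) * X ^ 4 := Nat.mul_le_mul_left _ h1
        _ = _ := (pow_add _ _ _).symm
    have h1 : 2000 * (n + 1) * (k + 1) * 2 ^ X ^ (6 * k) ≤ 2 ^ X ^ (6 * k + 4) := by
      calc 2000 * (n + 1) * (k + 1) * 2 ^ X ^ (6 * k) ≤
          2 ^ 11 * 2 ^ X * 2 ^ k * 2 ^ X ^ (6 * k) := by
            refine Nat.mul_le_mul_right _ (Nat.mul_le_mul (Nat.mul_le_mul (by norm_num) h0) hk1)
        _ = 2 ^ (11 + X + k + X ^ (6 * k)) := by rw [← pow_add, ← pow_add, ← pow_add]
        _ ≤ _ := Nat.pow_le_pow_right (by norm_num) hX4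
    have h2 : 5 + X ^ (6 * k + 4) * (j + 1) ≤ X ^ ((6 + (j + 20)) * k) := by
      have h3 : 1 ≤ X ^ (6 * k + 4) := Nat.one_le_pow _ _ (by omega)
      have h4 : j + 6 ≤ X ^ (j + 6) := by
        calc j + 6 ≤ 2 ^ (j + 6) := Nat.lt_two_pow_self.le
          _ ≤ _ := Nat.pow_le_pow_left hX2 _
      calc 5 + X ^ (6 * k + 4) * (j + 1) ≤ X ^ (6 * k + 4) * (j + 6) := by nlinarith
        _ ≤ X ^ (6 * k + 4) * X ^ (j + 6) := Nat.mul_le_mul_left _ h4
        _ = X ^ (6 * k + 4 + (j + 6)) := (pow_add _ _ _).symm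
        _ ≤ _ := Nat.pow_le_pow_right (by omega) (by nlinarith)
    calc 23 * (2000 * (n + 1) * (k + 1) * 2 ^ X ^ (6 * k)) ^ (j + 1) ≤
        2 ^ 5 * (2 ^ X ^ (6 * k + 4)) ^ (j + 1) :=
          Nat.mul_le_mul (by norm_num) (Nat.pow_le_pow_left h1 _)
      _ = 2 ^ (5 + X ^ (6 * k + 4) * (j + 1)) := by rw [← pow_mul, ← pow_add]
      _ ≤ _ := Nat.pow_le_pow_right (by norm_num) h2

end Pool.Agent.Work.MP_3c5c20_lc.QP

end

section

/-!
# Quasi-polynomial identity testing for expressions of bounded product depth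
-/

set_option autoImplicit false

namespace Pool.Agent.Work.MP_3c5c20_lc.QP

open MvPolynomial Pool.Agent.PT Pool.Agent.PIT Pool.Agent.Work.MP_499dc6_lc.CD
  Pool.Agent.Work.MP_499dc6_lc.CDG Pool.Agent.Work.MP_3c5c20_lc.PIT Turing

theorem num_pos_aux {x : ℝ} {e : ℕ} {m : ℕ} (hm : m < 2) (h : 1 ≤ x) (hb : x ^ e < (m : ℝ)) :
    False := by
  have h1 := one_le_pow₀ h (n := e)
  have h2 : (m : ℝ) ≤ 1 := by exact_mod_cast (by omega : m ≤ 1)
  linarith

/-- The exponent is positive. -/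
theorem num_pos (hNum : S_Num) : ∃ k0 : ℕ, 1 ≤ k0 ∧ ∀ D n : ℕ, ∃ m p ka B : ℕ, 0 < m ∧ 1 ≤ ka ∧
    p.Prime ∧ n ≤ p ^ ka ∧
    (257 * (Real.log (n + 1) + ((1 * ka : ℕ) : ℝ) + (0 : ℕ) + 1 + Real.log (n + 1))) ^
      (10 ^ (2 * D + 3)) < (m : ℝ) ∧
    (aa m + m) * m ^ 10 * m ^ 10 ≤ p ∧ n * (aa m + m) < B ∧
    m < 2 ^ lg n ^ (k0 * 100 ^ D) ∧ aa m < 2 ^ lg n ^ (k0 * 100 ^ D) ∧
    m ^ 10 < 2 ^ lg n ^ (k0 * 100 ^ D) ∧ p < 2 ^ lg n ^ (k0 * 100 ^ D) ∧
    ka < 2 ^ lg n ^ (k0 * 100 ^ D) ∧ B < 2 ^ lg n ^ (k0 * 100 ^ D) ∧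
    B ^ (p * p) ≤ 2 ^ lg n ^ (k0 * 100 ^ D) ∧
    ((m ^ 10) ^ (m + 1) * B ^ (m + aa m) + n + 5) ^ 4 < 2 ^ lg n ^ (k0 * 100 ^ D) := by
  obtain ⟨k0, hk0⟩ := hNum
  refine ⟨k0, ?_, hk0⟩
  by_contra hcon
  have h0 : k0 = 0 := by omega
  subst h0
  obtain ⟨m, p, ka, B, hm, hka, hp, hnp, hbig, hpW, hB, l1, -⟩ := hk0 0 0
  rw [Nat.zero_mul, pow_zero, pow_one] at l1
  refine num_pos_aux l1 ?_ hbig
  have h2 : (0 : ℝ) ≤ ((1 * ka : ℕ) : ℝ) := Nat.cast_nonneg _
  rw [Nat.cast_zero, zero_add, Real.log_one]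
  linarith

theorem pr_Final (hHit : S_HitG) (hSub : S_CircSubstG) (hDig : S_Dig) (hPos : S_Pos)
    (hGrid : S_Grid) (hDE : S_DigEx) (hGval : S_Gval) (hGN : S_GNle) (hEx : S_ExCirc)
    (hNum : S_Num) (hAlg : S_AlgPT) (hSound : S_Sound) : S_Final := by
  obtain ⟨k1, hk1, hk⟩ := num_pos hNum
  obtain ⟨k2, hk2⟩ := pr_Machine (fun k toks => galg (2 ^ lg (tsize toks) ^ k) toks)
    (gs_galg hAlg)
  refine ⟨k2 * k1, fun D => ?_⟩
  obtain ⟨f, T, hf, hT⟩ := hk2 (k1 * 100 ^ D) (Nat.mul_pos hk1 (by positivity))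
  have hsound : ∀ s, f s = true → s ∈ Nonzero := by
    intro s hs
    obtain ⟨E, hE, h⟩ := (hf s).1 hs
    exact ⟨E, hE, (npoly_ne_zero_iff hE).2 (hSound _ E (der_ok hE) h)⟩
  refine ⟨f, T, hsound, fun s E hE hdep => ⟨hsound s, ?_⟩, fun n => ?_⟩
  · rintro ⟨E', hE', hne⟩
    rw [der_unique hE' hE] at hne
    rw [hf s]
    refine ⟨E, hE, ?_⟩
    show galg (2 ^ lg (tsize E.toks) ^ (k1 * 100 ^ D)) E.toks = true
    rw [tsize_toks]
    obtain ⟨m, p, ka, B, hm, hka, hp, hnp, hbig, hpW, hB, l1, l2, l3, l4, l5, l6, l7, l8⟩ :=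
      hk D E.size
    exact compl_aux hHit hSub hDig hPos hGrid hDE hGval hGN hEx (der_ok hE) hdep
      ((npoly_ne_zero_iff hE).1 hne) (pow_pos hm 10) rfl hka hp hnp hbig hpW hB
      l1 l2 l3 l4 l5 l6 l7 l8
  · have h := hT n
    rwa [← Nat.mul_assoc] at h

end Pool.Agent.Work.MP_3c5c20_lc.QP

end
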